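import Mathlib
import Pool.Agent.ZIso.Krull

/-!
# Rational curves through a point
-/

set_option autoImplicit false

noncomputable section

namespace Pool.Agent.GOC

open Polynomial

/-- The polynomial with constant coefficient `c` and the other coefficients `v`. -/
private def kp {R : Type*} [CommRing R] (c : R) (n : ℕ) (v : Fin n → R) : R[X] :=
  C c + ∑ i : Fin n, C (v i) * X ^ (i.val + 1)

private theorem kp_natDegree {R : Type*} [CommRing R] (c : R) (n : ℕ) (v : Fin n → R) :
    (kp c n v).natDegree ≤ n := by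
  unfold kp
  refine natDegree_add_le_of_degree_le (by simp) ?_
  refine natDegree_sum_le_of_forall_le _ _ fun i _ => ?_
  exact (natDegree_C_mul_X_pow_le _ _).trans i.2

private theorem kp_eval {R : Type*} [CommRing R] (c : R) (n : ℕ) (v : Fin n → R) :
    (kp c n v).eval 0 = c := by
  unfold kp
  rw [eval_add, eval_C, eval_finsetSum]
  simp

private theorem kp_map {R S : Type*} [CommRing R] [CommRing S] (f : R →+* S) (c : R) (n : ℕ)
    (v : Fin n → R) : (kp c n v).map f = kp (f c) n fun i => f (v i) := by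
  unfold kp
  rw [Polynomial.map_add, Polynomial.map_sum, map_C]
  simp

private theorem kp_zero {R : Type*} [CommRing R] (c : R) (n : ℕ) :
    kp c n (fun _ => 0) = C c := by
  unfold kp
  simp

private theorem kp_const {R : Type*} [CommRing R] {c c' : R} {n : ℕ} {v : Fin n → R}
    (h : kp c n v = C c') : v = 0 := by
  funext i
  have h1 := congrArg (fun p => p.coeff (i.val + 1)) h
  simp only [kp, coeff_add, coeff_C_succ, finsetSum_coeff, coeff_C_mul, coeff_X_pow] at h1
  rw [zero_add, Finset.sum_eq_single i] at h1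
  · simpa using h1
  · intro j _ hj
    rw [if_neg, mul_zero]
    intro h2
    exact hj (Fin.ext (by omega))
  · intro h2
    exact absurd (Finset.mem_univ _) h2

variable {k : Type} [Field k]

private theorem natDegree_mul_le' {p q : k[X]} {m n : ℕ} (hp : p.natDegree ≤ m)
    (hq : q.natDegree ≤ n) : (p * q).natDegree ≤ m + n :=
  natDegree_mul_le.trans (Nat.add_le_add hp hq)

private theorem natDegree_pow_le' {p : k[X]} {m : ℕ} (hp : p.natDegree ≤ m) (n : ℕ) :
    (p ^ n).natDegree ≤ n * m :=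
  natDegree_pow_le.trans (Nat.mul_le_mul_left _ hp)

private theorem natDegree_sub_le' {p q : k[X]} {m : ℕ} (hp : p.natDegree ≤ m)
    (hq : q.natDegree ≤ m) : (p - q).natDegree ≤ m :=
  (natDegree_sub_le_of_le hp hq).trans (max_self m).le

/-- the indices of the unknowns -/
private abbrev KI : Type := Fin 2 ⊕ (Fin 4 ⊕ (Fin 5 ⊕ Fin 2))

/-- the point of the line -/
private def kL (E v w : Fin 3 → k) {S : Type*} [CommRing S] [Algebra k S] (x : KI → S)
    (i : Fin 3) : S[X] :=
  C (algebraMap k S (E i)) + C (x (Sum.inl 0) * algebraMap k S (v i) +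
    x (Sum.inl 1) * algebraMap k S (w i)) * X

/-- the equation -/
private def kF (P Q : MvPolynomial (Fin 3) k) (E v w : Fin 3 → k) (x₀ w₀ : k) {S : Type*}
    [CommRing S] [Algebra k S] (x : KI → S) : S[X] :=
  kp (algebraMap k S x₀) 4 (fun j => x (Sum.inr (Sum.inl j))) ^ 3 -
    27 * MvPolynomial.aeval (kL E v w x) P *
      kp (algebraMap k S x₀) 4 (fun j => x (Sum.inr (Sum.inl j))) -
    27 * MvPolynomial.aeval (kL E v w x) Q -
    kp (algebraMap k S 1) 2 (fun j => x (Sum.inr (Sum.inr (Sum.inr j)))) *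
      kp (algebraMap k S w₀) 5 (fun j => x (Sum.inr (Sum.inr (Sum.inl j)))) ^ 2

private theorem kr_mapAlg {S S' : Type*} [CommRing S] [Algebra k S] [CommRing S'] [Algebra k S']
    (f : S →ₐ[k] S') (c : k) (n : ℕ) (v : Fin n → S) :
    Polynomial.mapAlgHom f (kp (algebraMap k S c) n v) =
      kp (algebraMap k S' c) n fun j => f (v j) := by
  show (kp (algebraMap k S c) n v).map f.toRingHom = _
  rw [kp_map]
  congr 1
  exact f.commutes c

private theorem kL_map (E v w : Fin 3 → k) {S S' : Type*} [CommRing S] [Algebra k S]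
    [CommRing S'] [Algebra k S'] (f : S →ₐ[k] S') (x : KI → S) (i : Fin 3) :
    Polynomial.mapAlgHom f (kL E v w x i) = kL E v w (fun i => f (x i)) i := by
  show (kL E v w x i).map f.toRingHom = _
  unfold kL
  rw [Polynomial.map_add, Polynomial.map_mul, map_C, map_C, map_X]
  have h1 : ∀ c : k, f.toRingHom (algebraMap k S c) = algebraMap k S' c := f.commutes
  rw [map_add, map_mul, map_mul, h1, h1, h1]
  rfl

private theorem kF_map (P Q : MvPolynomial (Fin 3) k) (E v w : Fin 3 → k) (x₀ w₀ : k)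
    {S S' : Type*} [CommRing S] [Algebra k S] [CommRing S'] [Algebra k S'] (f : S →ₐ[k] S')
    (x : KI → S) :
    Polynomial.mapAlgHom f (kF P Q E v w x₀ w₀ x) = kF P Q E v w x₀ w₀ fun i => f (x i) := by
  have h1 : ∀ R : MvPolynomial (Fin 3) k,
      Polynomial.mapAlgHom f (MvPolynomial.aeval (kL E v w x) R) =
        MvPolynomial.aeval (kL E v w fun i => f (x i)) R := by
    intro R
    rw [MvPolynomial.comp_aeval_apply]
    congr 2
    funext i
    exact kL_map E v w f x i
  unfold kF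
  simp only [map_sub, map_mul, map_pow, map_ofNat, kr_mapAlg, h1]

private theorem kL_natDegree (E v w : Fin 3 → k) (x : KI → k) (i : Fin 3) :
    (kL E v w x i).natDegree ≤ 1 := by
  unfold kL
  rw [add_comm]
  exact natDegree_linear_le

private theorem kF_natDegree {P Q : MvPolynomial (Fin 3) k} (hP : P.totalDegree ≤ 8)
    (hQ : Q.totalDegree ≤ 12) (E v w : Fin 3 → k) (x₀ w₀ : k) (x : KI → k) :
    (kF P Q E v w x₀ w₀ x).natDegree ≤ 12 := by
  have c27 : (27 : k[X]).natDegree ≤ 0 := (natDegree_ofNat 27).le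
  have h1 := MvPolynomial.aeval_natDegree_le P hP (kL E v w x) (kL_natDegree E v w x)
  have h2 := MvPolynomial.aeval_natDegree_le Q hQ (kL E v w x) (kL_natDegree E v w x)
  unfold kF
  refine natDegree_sub_le' (natDegree_sub_le' (natDegree_sub_le' ?_ ?_) ?_) ?_
  · exact (natDegree_pow_le' (kp_natDegree _ _ _) 3).trans (by norm_num)
  · exact (natDegree_mul_le' (natDegree_mul_le' c27 h1) (kp_natDegree _ _ _)).trans (by norm_num)
  · exact (natDegree_mul_le' c27 h2).trans (by norm_num)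
  · exact (natDegree_mul_le' (kp_natDegree _ _ _)
      (natDegree_pow_le' (kp_natDegree _ _ _) 2)).trans (by norm_num)

private theorem aeval_zero (P : MvPolynomial (Fin 3) k) (E v w : Fin 3 → k) (x : KI → k) :
    (MvPolynomial.aeval (kL E v w x) P).eval 0 = MvPolynomial.aeval E P := by
  have h1 : ∀ p : k[X], p.eval 0 = Polynomial.aeval (0 : k) p := by
    intro p
    rw [coe_aeval_eq_eval]
  rw [h1, MvPolynomial.comp_aeval_apply]
  congr 2
  funext i
  rw [← h1]
  unfold kL
  simp

private theorem kF_eval {P Q : MvPolynomial (Fin 3) k} {E : Fin 3 → k} (v w : Fin 3 → k)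
    {x₀ w₀ : k}
    (h : x₀ ^ 3 - 27 * MvPolynomial.aeval E P * x₀ - 27 * MvPolynomial.aeval E Q = w₀ ^ 2)
    (x : KI → k) : (kF P Q E v w x₀ w₀ x).eval 0 = 0 := by
  unfold kF
  simp only [eval_sub, eval_mul, eval_pow, kp_eval, eval_ofNat, aeval_zero]
  show x₀ ^ 3 - 27 * MvPolynomial.aeval E P * x₀ - 27 * MvPolynomial.aeval E Q - 1 * w₀ ^ 2 = 0
  rw [h]
  ring

private theorem kL_const (E v w : Fin 3 → k) {x : KI → k} (h0 : x (Sum.inl 0) = 0)
    (h1 : x (Sum.inl 1) = 0) (P : MvPolynomial (Fin 3) k) :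
    MvPolynomial.aeval (kL E v w x) P = C (MvPolynomial.aeval E P) := by
  have h2 : kL E v w x = fun i => Algebra.ofId k k[X] (E i) := by
    funext i
    unfold kL
    rw [h0, h1, zero_mul, zero_mul, add_zero, C_0, zero_mul, add_zero]
    rfl
  rw [h2, ← MvPolynomial.comp_aeval_apply]
  rfl

private theorem kF_zero {P Q : MvPolynomial (Fin 3) k} {E : Fin 3 → k} (v w : Fin 3 → k)
    {x₀ w₀ : k}
    (h : x₀ ^ 3 - 27 * MvPolynomial.aeval E P * x₀ - 27 * MvPolynomial.aeval E Q = w₀ ^ 2) :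
    kF P Q E v w x₀ w₀ (fun _ => (0 : k)) = 0 := by
  unfold kF
  simp only [kp_zero]
  rw [kL_const E v w rfl rfl, kL_const E v w rfl rfl]
  show C x₀ ^ 3 - 27 * C (MvPolynomial.aeval E P) * C x₀ - 27 * C (MvPolynomial.aeval E Q) -
    C 1 * C w₀ ^ 2 = 0
  rw [← C_pow, ← C_pow, ← h]
  simp only [C_sub, C_mul, C_pow, C_1]
  have h27 : (27 : k[X]) = C 27 := rfl
  rw [h27]
  ring

variable [IsAlgClosed k]

/-- Krull's theorem with 13 unknowns (`a`, `b`, 4 for `x`, 5 for `g`, 2 for `q`) and 12 equations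
(the coefficients of degree `1, …, 12` of the equation), `Pool.Agent.ZIso.exists_ne_zero`. Port of
`Pool.Agent.VFP.krull` (file `Pool/Agent/VFP/Krull.lean`) with one factor: there is a solution which
is different from `a = b = 0`, `x = x₀`, `g = w₀`, `q = 1`; if `a = b = 0` and `x = x₀` then
`q g ² = w₀ ²` and `g`, `q` are constant. -/
theorem krull {P Q : MvPolynomial (Fin 3) k} (hP : P.totalDegree ≤ 8) (hQ : Q.totalDegree ≤ 12)
    (E v w : Fin 3 → k) {x₀ w₀ : k} (hw : w₀ ≠ 0)
    (h : x₀ ^ 3 - 27 * MvPolynomial.aeval E P * x₀ - 27 * MvPolynomial.aeval E Q = w₀ ^ 2) :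
    ∃ (a b : k) (x g q : k[X]), q.natDegree ≤ 2 ∧ x.eval 0 = x₀ ∧ g.eval 0 = w₀ ∧ q.eval 0 = 1 ∧
      x ^ 3 - 27 * MvPolynomial.aeval (fun i => C (E i) + C (a * v i + b * w i) * X) P * x -
        27 * MvPolynomial.aeval (fun i => C (E i) + C (a * v i + b * w i) * X) Q = q * g ^ 2 ∧
      ¬ (a = 0 ∧ b = 0 ∧ x = C x₀) := by
  classical
  let R := MvPolynomial KI k
  have key : ∀ x : KI → k, (kF P Q E v w x₀ w₀ (fun i => (MvPolynomial.X i : R))).map
      (MvPolynomial.aeval x : R →ₐ[k] k).toRingHom = kF P Q E v w x₀ w₀ x := by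
    intro x
    have h1 := kF_map P Q E v w x₀ w₀ (MvPolynomial.aeval x : R →ₐ[k] k)
      (fun i => (MvPolynomial.X i : R))
    simp only [MvPolynomial.aeval_X] at h1
    exact h1
  have hev : ∀ (x : KI → k) (p : R), MvPolynomial.eval x p =
      (MvPolynomial.aeval x : R →ₐ[k] k).toRingHom p := by
    intro x p
    show _ = MvPolynomial.aeval x p
    rw [MvPolynomial.aeval_eq_eval]
  obtain ⟨x, hx0, hx⟩ := Pool.Agent.ZIso.exists_ne_zero (K := k) (ι := KI) (κ := Fin 12)
    (by
      simp only [Fintype.card_sum, Fintype.card_fin]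
      norm_num)
    (fun j => (kF P Q E v w x₀ w₀ (fun i => (MvPolynomial.X i : R))).coeff (j.val + 1))
    (fun j => by
      show MvPolynomial.eval 0
        ((kF P Q E v w x₀ w₀ (fun i => (MvPolynomial.X i : R))).coeff (j.val + 1)) = 0
      rw [hev, ← coeff_map, key]
      show (kF P Q E v w x₀ w₀ (fun _ => (0 : k))).coeff (j.val + 1) = 0
      rw [kF_zero v w h, coeff_zero])
  have hF : kF P Q E v w x₀ w₀ x = 0 := by
    ext n
    rw [coeff_zero]
    rcases n with _ | n
    · rw [coeff_zero_eq_eval_zero]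
      exact kF_eval v w h x
    · by_cases hn : n < 12
      · have h1 := hx ⟨n, hn⟩
        rw [hev] at h1
        change (MvPolynomial.aeval x : R →ₐ[k] k).toRingHom
          ((kF P Q E v w x₀ w₀ (fun i => (MvPolynomial.X i : R))).coeff (n + 1)) = 0 at h1
        rw [← coeff_map, key] at h1
        exact h1
      · have h1 := kF_natDegree hP hQ E v w x₀ w₀ x
        exact coeff_eq_zero_of_natDegree_lt (by omega)
  have hF' := sub_eq_zero.1 hF
  refine ⟨x (Sum.inl 0), x (Sum.inl 1), kp x₀ 4 (fun j => x (Sum.inr (Sum.inl j))),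
    kp w₀ 5 (fun j => x (Sum.inr (Sum.inr (Sum.inl j)))),
    kp 1 2 (fun j => x (Sum.inr (Sum.inr (Sum.inr j)))), kp_natDegree _ _ _, kp_eval _ _ _,
    kp_eval _ _ _, kp_eval _ _ _, ?_, ?_⟩
  · exact hF'
  rintro ⟨h1, h2, h3⟩
  have hqg : kp 1 2 (fun j => x (Sum.inr (Sum.inr (Sum.inr j)))) *
      kp w₀ 5 (fun j => x (Sum.inr (Sum.inr (Sum.inl j)))) ^ 2 = C (w₀ ^ 2) := by
    have h5 : kp x₀ 4 (fun j => x (Sum.inr (Sum.inl j))) ^ 3 -
        27 * MvPolynomial.aeval (kL E v w x) P * kp x₀ 4 (fun j => x (Sum.inr (Sum.inl j))) -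
        27 * MvPolynomial.aeval (kL E v w x) Q =
        kp 1 2 (fun j => x (Sum.inr (Sum.inr (Sum.inr j)))) *
          kp w₀ 5 (fun j => x (Sum.inr (Sum.inr (Sum.inl j)))) ^ 2 := hF'
    rw [← h5, h3, kL_const E v w h1 h2, kL_const E v w h1 h2, ← h]
    simp only [C_sub, C_mul, C_pow]
    rfl
  have hT2 : w₀ ^ 2 ≠ 0 := pow_ne_zero 2 hw
  have h6 : kp 1 2 (fun j => x (Sum.inr (Sum.inr (Sum.inr j)))) *
      kp w₀ 5 (fun j => x (Sum.inr (Sum.inr (Sum.inl j)))) ^ 2 ≠ 0 := by
    rw [hqg]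
    exact C_ne_zero.2 hT2
  have hq0 := left_ne_zero_of_mul h6
  have hg0 := right_ne_zero_of_mul h6
  have h8 := congrArg natDegree hqg
  rw [natDegree_mul hq0 hg0, natDegree_pow, natDegree_C] at h8
  have k5 := kp_const (eq_C_of_natDegree_eq_zero
    (p := kp 1 2 (fun j => x (Sum.inr (Sum.inr (Sum.inr j))))) (by omega))
  have k6 := kp_const (eq_C_of_natDegree_eq_zero
    (p := kp w₀ 5 (fun j => x (Sum.inr (Sum.inr (Sum.inl j))))) (by omega))
  apply hx0
  funext j
  rcases j with j | (j | (j | j))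
  · fin_cases j
    · exact h1
    · exact h2
  · exact congrFun (kp_const h3) j
  · exact congrFun k6 j
  · exact congrFun k5 j

end Pool.Agent.GOC
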