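import Mathlib

/-!
# There are no rational curves in an elliptic curve
-/

set_option autoImplicit false

noncomputable section

namespace Pool.Agent.GOC

open Polynomial

variable {k : Type} [Field k] [IsAlgClosed k] [CharZero k]

/-- The cubic `t ³ + A t + B` has three different roots `e₁`, `e₂`, `e₃` (`Cubic` in Mathlib,
`Cubic.discr_ne_zero_iff_roots_ne`), so `q g ² = (x - e₁) (x - e₂) (x - e₃)` with pairwise coprime
factors. Let `d = deg x > 0`, and let `N` be the number of the different roots of the product. A root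
of multiplicity `m` of `x - e_i` is a root of multiplicity `≥ m - 1` of `x'`, and the roots for
different `i` are different, so that `3 d - N ≤ deg x' = d - 1`, i.e. `N ≥ 2 d + 1`. On the other hand
all roots which are not roots of `q` (at most `2`) have even multiplicity, hence `≥ 2`:
`3 d ≥ 2 (N - 2) + 2 = 2 N - 2`. So `3 d ≥ 4 d`, a contradiction. (Or `Polynomial.abc`, or: the
polynomial `x'` is divisible by `g`, since `g ∣ (3 x ² + A) x'` and `3 x ² + A` is coprime to
`x ³ + A x + B`; so `deg g ≤ d - 1`, and `3 d = deg q + 2 deg g ≤ 2 + 2 (d - 1) = 2 d`. This is the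
shortest proof: from `q g ² = c(x)` with `c(t) = t ³ + A t + B` we get `g ∣ c'(x) x'`, and `c(x)`,
`c'(x)` are coprime because `c`, `c'` are.) -/
theorem no_rational {A B : k} (hD : 4 * A ^ 3 + 27 * B ^ 2 ≠ 0) {x g q : k[X]}
    (hq : q.natDegree ≤ 2) (h : x ^ 3 + C A * x + C B = q * g ^ 2) : ∃ c, x = C c := by
  by_cases hx : derivative x = 0
  · exact ⟨x.coeff 0, eq_C_of_derivative_eq_zero hx⟩
  exfalso
  have h1 : (3 * x ^ 2 + C A) * derivative x = g * (derivative q * g + 2 * q * derivative g) := by
    have h2 := congrArg derivative h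
    simp only [derivative_add, derivative_mul, derivative_pow, derivative_C, zero_mul, zero_add,
      add_zero, Nat.cast_ofNat, map_ofNat] at h2
    linear_combination h2
  have h3 : C (4 * A ^ 3 + 27 * B ^ 2) * derivative x =
      (-18 * C A * x + 27 * C B) * derivative x * (q * g ^ 2) +
        (6 * C A * x ^ 2 - 9 * C B * x + 4 * C A ^ 2) *
          (g * (derivative q * g + 2 * q * derivative g)) := by
    rw [← h, ← h1]
    simp only [map_add, map_mul, map_pow, map_ofNat]
    ring
  have h4 : g ∣ C (4 * A ^ 3 + 27 * B ^ 2) * derivative x := by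
    rw [h3]
    exact ⟨(-18 * C A * x + 27 * C B) * derivative x * (q * g) +
      (6 * C A * x ^ 2 - 9 * C B * x + 4 * C A ^ 2) *
        (derivative q * g + 2 * q * derivative g), by ring⟩
  have h5 : g ∣ derivative x := by
    obtain ⟨r, hr⟩ := h4
    refine ⟨C ((4 * A ^ 3 + 27 * B ^ 2)⁻¹) * r, ?_⟩
    have h6 : C ((4 * A ^ 3 + 27 * B ^ 2)⁻¹) * C (4 * A ^ 3 + 27 * B ^ 2) = (1 : k[X]) := by
      rw [← C_mul, inv_mul_cancel₀ hD, C_1]
    linear_combination (C ((4 * A ^ 3 + 27 * B ^ 2)⁻¹)) * hr - derivative x * h6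
  have h7 : g.natDegree ≤ x.natDegree - 1 :=
    (natDegree_le_of_dvd h5 hx).trans (natDegree_derivative_le x)
  have hd : x.natDegree ≠ 0 := by
    intro h8
    rw [eq_C_of_natDegree_eq_zero h8, derivative_C] at hx
    exact hx rfl
  have h9 : (x ^ 3 + C A * x + C B).natDegree = 3 * x.natDegree := by
    have h10 : (X ^ 3 + C A * X + C B : k[X]).natDegree = 3 := by
      compute_degree!
    have h11 : (X ^ 3 + C A * X + C B : k[X]).comp x = x ^ 3 + C A * x + C B := by
      simp
    rw [← h11, natDegree_comp, h10]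
  have h12 : (q * g ^ 2).natDegree ≤ q.natDegree + 2 * g.natDegree :=
    natDegree_mul_le.trans (Nat.add_le_add_left (natDegree_pow_le) _)
  rw [← h, h9] at h12
  omega

end Pool.Agent.GOC
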