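import Pool.Agent.GOC.Hom
import Pool.Agent.GOC.Krl
import Pool.Agent.GOC.NoR
import Pool.Agent.VFP.Conic

/-!
# The rational curve and the points over it
-/

set_option autoImplicit false
set_option linter.unusedSectionVars false

noncomputable section

namespace Pool.Agent.GOC

open Pool.Agent.ZCyc Pool.Agent.Dess Pool.Agent.GT Pool.Agent.TInc
open Pool.Agent.VFP (Om tt)

variable {k : Type} [Field k] [IsAlgClosed k] [CharZero k]

/-- **The rational curve.** -/
theorem exists_curve {P Q : MvPolynomial (Fin 3) k} (hP : P.IsHomogeneous 8)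
    (hQ : Q.IsHomogeneous 12) {E₀ : Fin 3 → k} (hE : E₀ ≠ 0)
    (hD : 4 * MvPolynomial.aeval E₀ P ^ 3 - MvPolynomial.aeval E₀ Q ^ 2 ≠ 0) {x₀ w₀ : k}
    (hw : w₀ ≠ 0)
    (h : x₀ ^ 3 - 27 * MvPolynomial.aeval E₀ P * x₀ - 27 * MvPolynomial.aeval E₀ Q = w₀ ^ 2) :
    ∃ (E : Fin 3 → Om k) (x γ : Om k) (c₀ c₁ : k) (E₁ : Fin 3 → k), E₁ ≠ 0 ∧
      4 * MvPolynomial.aeval E₁ P ^ 3 - MvPolynomial.aeval E₁ Q ^ 2 = 0 ∧
      x ^ 3 - 27 * MvPolynomial.aeval E P * x - 27 * MvPolynomial.aeval E Q = γ ^ 2 ∧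
      (∀ v : Place k (Om k), v.At (tt k) c₀ → VA v E E₀ ∧ v.At x x₀ ∧ v.At γ w₀) ∧
      ∀ v : Place k (Om k), v.At (tt k) c₁ → ∃ e : Om k, VA v (fun i => e * E i) E₁ := by
  obtain ⟨v₁, v₂, hv⟩ := exists_compl hE
  obtain ⟨a, b, x, g, q, hq, hx0, hg0, hq0, heq, hne⟩ :=
    krull hP.totalDegree_le hQ.totalDegree_le E₀ v₁ v₂ hw h
  obtain ⟨u, hu⟩ : ∃ u : Fin 3 → k, u = fun i => a * v₁ i + b * v₂ i := ⟨_, rfl⟩
  have hu' : (fun i => Polynomial.C (E₀ i) + Polynomial.C (a * v₁ i + b * v₂ i) *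
      Polynomial.X) = fun i => Polynomial.C (E₀ i) + Polynomial.C (u i) * Polynomial.X := by
    rw [hu]
  rw [hu'] at heq
  -- the direction is not zero
  have hu0 : ∀ c : k, (∀ i, u i = c * E₀ i) → False := by
    intro c hc
    obtain ⟨ha, hb⟩ := hv a b c (fun i => by rw [← hc i, hu])
    apply hne
    refine ⟨ha, hb, ?_⟩
    have hu00 : u = 0 := by
      rw [hu, ha, hb]
      funext i
      simp
    have hC : (fun i => Polynomial.C (E₀ i) + Polynomial.C (u i) * Polynomial.X) =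
        fun i => algebraMap k (Polynomial k) (E₀ i) := by
      rw [hu00]
      funext i
      simp
    have hPC : ∀ R : MvPolynomial (Fin 3) k,
        MvPolynomial.aeval (fun i => Polynomial.C (E₀ i) + Polynomial.C (u i) * Polynomial.X) R =
          Polynomial.C (MvPolynomial.aeval E₀ R) := by
      intro R
      rw [hC, aeval_sum, aeval_sum, map_sum]
      refine Finset.sum_congr rfl fun d _ => ?_
      simp only [map_mul, map_pow]
      rfl
    rw [hPC, hPC] at heq
    obtain ⟨c', hc'⟩ := no_rational (A := -27 * MvPolynomial.aeval E₀ P)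
      (B := -27 * MvPolynomial.aeval E₀ Q) (x := x) (g := g) (q := q) (by
        intro h0
        apply hD
        apply (mul_eq_zero.1 (?_ : (-27 : k) ^ 3 * _ = 0)).resolve_left
          (pow_ne_zero 3 (by norm_num))
        linear_combination h0) hq (by
        rw [← heq]
        simp only [map_mul, map_neg, map_ofNat]
        ring)
    rw [hc'] at hx0 ⊢
    rw [Polynomial.eval_C] at hx0
    rw [hx0]
  -- the discriminant on the line
  obtain ⟨LP, hLP⟩ : ∃ L, L = MvPolynomial.aeval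
    (fun i => Polynomial.C (E₀ i) + Polynomial.C (u i) * Polynomial.X) P := ⟨_, rfl⟩
  obtain ⟨LQ, hLQ⟩ : ∃ L, L = MvPolynomial.aeval
    (fun i => Polynomial.C (E₀ i) + Polynomial.C (u i) * Polynomial.X) Q := ⟨_, rfl⟩
  rw [← hLP, ← hLQ] at heq
  obtain ⟨p1, p2⟩ := line_coeff hP E₀ u
  obtain ⟨q1, q2⟩ := line_coeff hQ E₀ u
  rw [← hLP] at p1 p2
  rw [← hLQ] at q1 q2
  have hLPe : ∀ {R : Type} [CommRing R] [Algebra k R] (c : R), Polynomial.aeval c LP =
      MvPolynomial.aeval (fun i => algebraMap k R (E₀ i) + algebraMap k R (u i) * c) P := by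
    intro R _ _ c
    rw [hLP, line_aeval]
  have hLQe : ∀ {R : Type} [CommRing R] [Algebra k R] (c : R), Polynomial.aeval c LQ =
      MvPolynomial.aeval (fun i => algebraMap k R (E₀ i) + algebraMap k R (u i) * c) Q := by
    intro R _ _ c
    rw [hLQ, line_aeval]
  -- the point of the line on the discriminant and the parametrisation
  have key : ∃ (τ ρ : Om k) (c₀ c₁ : k) (E₁ : Fin 3 → k), E₁ ≠ 0 ∧
      4 * MvPolynomial.aeval E₁ P ^ 3 - MvPolynomial.aeval E₁ Q ^ 2 = 0 ∧
      ρ ^ 2 = Polynomial.aeval τ q ∧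
      (∀ v : Place k (Om k), v.At (tt k) c₀ → v.At τ 0 ∧ v.At ρ 1) ∧
      ∀ v : Place k (Om k), v.At (tt k) c₁ → ∃ e : Om k, VA v (fun i => e *
        (algebraMap k (Om k) (E₀ i) + algebraMap k (Om k) (u i) * τ)) E₁ := by
    have hdeg : (4 * LP ^ 3 - LQ ^ 2).natDegree ≤ 24 := by
      refine (Polynomial.natDegree_sub_le_of_le (m := 24) ?_ (n := 24) ?_).trans (le_refl _)
      · have h4 : (4 : Polynomial k) = Polynomial.C 4 := (map_ofNat _ 4).symm
        rw [h4]
        refine (Polynomial.natDegree_C_mul_le _ _).trans ?_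
        refine Polynomial.natDegree_pow_le.trans ?_
        omega
      · refine Polynomial.natDegree_pow_le.trans ?_
        omega
    rcases exists_zero_form (n := 24) (by norm_num) _ hdeg with ⟨c, hc⟩ | hc
    · have hce : ∀ R : Polynomial k, R.eval c = Polynomial.aeval c R := fun R =>
        (Polynomial.coe_aeval_eq_eval c ▸ rfl)
      rw [Polynomial.eval_sub, Polynomial.eval_mul, Polynomial.eval_pow, Polynomial.eval_pow,
        Polynomial.eval_ofNat, hce, hce, hLPe, hLQe] at hc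
      have hc0 : c ≠ 0 := by
        rintro rfl
        apply hD
        simp only [mul_zero, add_zero] at hc
        exact hc
      obtain ⟨τ, ρ, c₀, c₁, h1, h2, h3⟩ := VFP.conic q hq hq0 c hc0
      refine ⟨τ, ρ, c₀, c₁, fun i => E₀ i + u i * c, ?_, hc, h1, h2, fun v hv => ⟨1, ?_⟩⟩
      · intro h0
        apply hu0 (-c⁻¹)
        intro i
        have h4 : E₀ i + u i * c = 0 := congrFun h0 i
        field_simp
        linear_combination h4
      · intro i
        have h4 := at_one.mul ((Place.at_const (v := v) (E₀ i)).add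
          ((Place.at_const (u i)).mul (h3 v hv)))
        rw [one_mul (E₀ i + u i * c)] at h4
        exact h4
    · have hc24 : (4 * LP ^ 3 - LQ ^ 2).coeff 24 =
          4 * MvPolynomial.aeval u P ^ 3 - MvPolynomial.aeval u Q ^ 2 := by
        have h4 : (4 : Polynomial k) = Polynomial.C 4 := (map_ofNat _ 4).symm
        have e1 : (LP ^ 3).coeff 24 = MvPolynomial.aeval u P ^ 3 := by
          rw [← p2]
          exact Polynomial.coeff_pow_of_natDegree_le (m := 3) p1
        have e2 : (LQ ^ 2).coeff 24 = MvPolynomial.aeval u Q ^ 2 := by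
          rw [← q2]
          exact Polynomial.coeff_pow_of_natDegree_le (m := 2) q1
        rw [Polynomial.coeff_sub, h4, Polynomial.coeff_C_mul, e1, e2]
      rw [hc24] at hc
      obtain ⟨τ, ρ, c₀, c₁, h1, h2, h3⟩ := VFP.conic_inf q hq hq0
      refine ⟨τ, ρ, c₀, c₁, u, ?_, hc, h1, h2, fun v hv => ⟨τ⁻¹, ?_⟩⟩
      · intro h0
        apply hu0 0
        intro i
        rw [h0, zero_mul]
        rfl
      · intro i
        have h4 := VFP.inv_at_of_not_mem (h3 v hv)
        have h5 : τ ≠ 0 := by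
          rintro rfl
          exact h3 v hv v.ring.zero_mem
        have h6 := (h4.mul (Place.at_const (v := v) (E₀ i))).add (Place.at_const (u i))
        rw [zero_mul, zero_add] at h6
        have h7 : τ⁻¹ * algebraMap k (Om k) (E₀ i) + algebraMap k (Om k) (u i) =
            τ⁻¹ * (algebraMap k (Om k) (E₀ i) + algebraMap k (Om k) (u i) * τ) := by
          field_simp
        rw [h7] at h6
        exact h6
  obtain ⟨τ, ρ, c₀, c₁, E₁, hE1, hD1, hρ, hv0, hv1⟩ := key
  refine ⟨fun i => algebraMap k (Om k) (E₀ i) + algebraMap k (Om k) (u i) * τ,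
    Polynomial.aeval τ x, Polynomial.aeval τ g * ρ, c₀, c₁, E₁, hE1, hD1, ?_, ?_, hv1⟩
  · have h1 := congrArg (Polynomial.aeval τ) heq
    simp only [map_sub, map_mul, map_pow, map_ofNat] at h1
    rw [hLPe, hLQe] at h1
    rw [h1, mul_pow, hρ]
    ring
  · intro v hv
    obtain ⟨h1, h2⟩ := hv0 v hv
    have hat : ∀ R : Polynomial k, v.At (Polynomial.aeval τ R) (R.eval 0) := by
      intro R
      rw [Polynomial.aeval_eq_sum_range, Polynomial.eval_eq_sum_range]
      refine Place.At.sum fun i _ => ?_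
      rw [Algebra.smul_def]
      exact (Place.at_const _).mul (h1.pow i)
    refine ⟨fun i => ?_, ?_, ?_⟩
    · have h3 := (Place.at_const (v := v) (E₀ i)).add ((Place.at_const (u i)).mul h1)
      rw [mul_zero, add_zero] at h3
      exact h3
    · rw [← hx0]
      exact hat x
    · have h3 := (hat g).mul h2
      rw [hg0, mul_one] at h3
      exact h3

/-- the point with given first coordinate -/
theorem pnt_of {K : Type} [Field K] [CharZero K] [Algebra k K] (f : Cf k) {S T X : Fin 2 → K}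
    (hD : Dq (f.vg S T) ≠ 0) (hX : X ≠ 0) {x γ : K} (hγ : γ ≠ 0)
    (h : x ^ 3 - 27 * Iq (f.vg S T) * x - 27 * Jq (f.vg S T) = γ ^ 2)
    (h1 : 3 * Hq (f.vg S T) X = 4 * x * Gq (f.vg S T) X) :
    ∃ (y : K) (Y : Fin 2 → K), y ^ 2 = Gq (f.vg S T) X ∧
      f.Ker S T X y Y ∧ 3 * Hq (f.vg S T) X = 4 * x * y ^ 2 ∧
      27 * Tq (f.vg S T) X = 8 * γ * y ^ 3 := by
  obtain ⟨g, hg⟩ : ∃ g, g = f.vg S T := ⟨_, rfl⟩
  rw [← hg] at hD h h1 ⊢
  have hG : Gq g X ≠ 0 := by
    intro h0
    apply hD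
    apply disc_of_zero hX h0
    rw [h0, mul_zero] at h1
    exact (mul_eq_zero.1 h1).resolve_left (by norm_num)
  have h3 : Hq g X = 4 * x * Gq g X / 3 := by
    rw [← h1]
    field_simp
  have hs := syz g X
  rw [h3] at hs
  have hT : (27 * Tq g X) ^ 2 = 64 * Gq g X ^ 3 * γ ^ 2 := by
    rw [← h]
    field_simp at hs
    linear_combination hs
  have hy : (27 * Tq g X / (8 * γ * Gq g X)) ^ 2 = Gq g X := by
    rw [div_pow, hT]
    field_simp
    ring
  obtain ⟨y, hy'⟩ : ∃ y, y = 27 * Tq g X / (8 * γ * Gq g X) := ⟨_, rfl⟩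
  rw [← hy'] at hy
  obtain ⟨Y, hY⟩ := exists_ker (f := f) (S := S) (T := T) (X := X) (y := y) (by rw [hy, hg])
  refine ⟨y, Y, hy, hY, ?_, ?_⟩
  · rw [hy, h1]
  · have h4 : y ^ 3 = y * Gq g X := by
      rw [← hy]
      ring
    rw [h4, hy']
    field_simp

/-- **Points over the curve.** -/
theorem exists_pnt {K : Type} [Field K] [IsAlgClosed K] [CharZero K] [Algebra k K] (f : Cf k)
    {S T : Fin 2 → K} (hD : Dq (f.vg S T) ≠ 0) {x γ : K} (hγ : γ ≠ 0)
    (h : x ^ 3 - 27 * Iq (f.vg S T) * x - 27 * Jq (f.vg S T) = γ ^ 2) :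
    ∃ (X : Fin 2 → K) (y : K) (Y : Fin 2 → K), X ≠ 0 ∧ y ^ 2 = Gq (f.vg S T) X ∧
      f.Ker S T X y Y ∧ 3 * Hq (f.vg S T) X = 4 * x * y ^ 2 ∧
      27 * Tq (f.vg S T) X = 8 * γ * y ^ 3 := by
  obtain ⟨X, hX, h1⟩ := exists_fibre (f.vg S T) x
  obtain ⟨y, Y, h2⟩ := pnt_of f hD hX hγ h h1
  exact ⟨X, y, Y, hX, h2⟩

end Pool.Agent.GOC
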