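import Pool.Agent.GOC.BarV

/-!
# The points on vertical lines, if the form is not zero
-/

set_option autoImplicit false
set_option linter.unusedSectionVars false

noncomputable section

namespace Pool.Agent.GOC

open Pool.Agent.ZCyc Pool.Agent.Dess Pool.Agent.GT Pool.Agent.TInc
open Pool.Agent.VFP (Om tt)
open Pool.Agent.HGF (fst snd vlo)

section zeros

variable {k : Type} [Field k] [CharZero k]

theorem v01_ne : (![0, 1] : Fin 2 → k) ≠ 0 := fun h => by
  have := congrFun h 1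
  simp at this

theorem v10_ne : (![1, 0] : Fin 2 → k) ≠ 0 := fun h => by
  have := congrFun h 0
  simp at this

theorem v11_ne : (![1, 1] : Fin 2 → k) ≠ 0 := fun h => by
  have := congrFun h 0
  simp at this

/-- a quadratic form which is zero everywhere -/
theorem quad_zero {c : Fin 3 → k} (h : ∀ x : Fin 2 → k, x ≠ 0 → ∑ i, c i * mv x i = 0) (i : Fin 3) :
    c i = 0 := by
  have h0 := h _ v01_ne
  have h2 := h _ v10_ne
  have h1 := h _ v11_ne
  simp only [Fin.sum_univ_three, mv, Matrix.cons_val] at h0 h1 h2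
  simp at h0 h1 h2
  fin_cases i
  · exact h0
  · show c 1 = 0
    rw [h0, h2] at h1
    simpa using h1
  · exact h2

theorem Qq_mv (q : Fin 3 → k) (x : Fin 2 → k) : Qv q x = ∑ i, q i * mv x i := by
  simp only [Fin.sum_univ_three, mv, Qv]
  simp
  ring

/-- a form which is not zero has values which are not zero -/
theorem exists_co {f : Cf k} (hf : f ≠ 0) : ∃ (S T X : Fin 2 → k) (j : Fin 3), S ≠ 0 ∧ T ≠ 0 ∧
    X ≠ 0 ∧ f.co S T X j ≠ 0 := by
  by_contra hc
  push Not at hc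
  apply hf
  funext a b i j
  have h1 : ∀ S T : Fin 2 → k, S ≠ 0 → T ≠ 0 → ∀ i, f.vc S T i j = 0 := by
    intro S T hS hT
    apply quad_zero
    intro X hX
    rw [← Qq_mv]
    exact hc S T X j hS hT hX
  have h2 : ∀ T : Fin 2 → k, T ≠ 0 → ∀ a, (∑ b, f a b i j * mv T b) = 0 := by
    intro T hT
    apply quad_zero
    intro S hS
    rw [← h1 S T hS hT i]
    unfold Cf.vc
    refine Finset.sum_congr rfl fun a _ => ?_
    rw [Finset.sum_mul]
    refine Finset.sum_congr rfl fun b _ => ?_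
    show f a b i j * mv T b * mv S a = f a b i j * (mv S a * mv T b)
    ring
  exact quad_zero (fun T hT => h2 T hT a) b

end zeros

variable {k : Type} [Field k] [IsAlgClosed k] [CharZero k] {W : Type} [AddCommGroup W] [Module ℚ W]
  {f : Cf k} {F : Option k → Option k → Option k → Option k → W}

/-- the line between two vectors -/
def lin (x y : Fin 2 → k) : Fin 2 → Om k := fun i =>
  (1 - tt k) * algebraMap k (Om k) (x i) + tt k * algebraMap k (Om k) (y i)

theorem sp_lin0 {x y : Fin 2 → k} (hx : x ≠ 0) {v : Place k (Om k)} (hv : v.At (tt k) 0) :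
    Sp v 1 (lin x y) x := by
  refine ⟨one_ne_zero, hx, fun i => ?_⟩
  have h := ((at_one.sub hv).mul (Place.at_const (x i))).add (hv.mul (Place.at_const (y i)))
  rw [sub_zero, one_mul, zero_mul, add_zero] at h
  show v.At (1 * _) _
  rw [one_mul]
  exact h

theorem sp_lin1 {x y : Fin 2 → k} (hy : y ≠ 0) {v : Place k (Om k)} (hv : v.At (tt k) 1) :
    Sp v 1 (lin x y) y := by
  refine ⟨one_ne_zero, hy, fun i => ?_⟩
  have h := ((at_one.sub hv).mul (Place.at_const (x i))).add (hv.mul (Place.at_const (y i)))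
  rw [sub_self, zero_mul, one_mul, zero_add] at h
  show v.At (1 * _) _
  rw [one_mul]
  exact h

theorem lin_ne {x y : Fin 2 → k} (hx : x ≠ 0) : lin x y ≠ 0 := by
  obtain ⟨v, hv⟩ : ∃ v : Place k (Om k), v.At (tt k) 0 :=
    ZCyc.exists_place VFP.tt_transc (0 : k)
  exact (sp_lin0 (y := y) hx hv).ne

/-- the class function is constant on vertical lines -/
theorem vert_const (hcf : f.IsCF F) {S T X Y Y' : Fin 2 → k} (hS : S ≠ 0) (hT : T ≠ 0) (hX : X ≠ 0)
    (hY : Y ≠ 0) (hY' : Y' ≠ 0) (hc : ∀ j, f.co S T X j = 0) : FV F S T X Y = FV F S T X Y' := by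
  have hV : ∀ Z : Fin 2 → Om k, f.OnV (cst (Om k) S) (cst (Om k) T) (cst (Om k) X) Z := by
    intro Z
    unfold Cf.OnV
    rw [co_cst, co_cst, co_cst, hc, hc, hc, map_zero]
    ring
  refine bridge (n := 1) (c₀ := 0) (c₁ := 1) (C₀ := FV F S T X Y) (C₁ := FV F S T X Y') hcf
    (S := fun _ => cst (Om k) S) (T := fun _ => cst (Om k) T) (X := fun _ => cst (Om k) X)
    (Y := fun _ => lin Y Y') (fun _ => cst_ne hS) (fun _ => cst_ne hT) (fun _ => cst_ne hX)
    (fun _ => lin_ne hY) (fun _ => hV _) ?_ ?_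
  · intro v hv
    rw [Fin.sum_univ_one, (sp_cst hS).vlo, (sp_cst hT).vlo, (sp_cst hX).vlo, (sp_lin0 hY hv).vlo]
    rfl
  · intro v hv
    rw [Fin.sum_univ_one, (sp_cst hS).vlo, (sp_cst hT).vlo, (sp_cst hX).vlo, (sp_lin1 hY' hv).vlo]
    rfl

/-- **Vertical lines.** -/
theorem vert_zero (hne : f ≠ 0) (hcf : f.IsCF F) (hb : ∀ s t : Option k, Bar (f.at s t) (F s t))
    {S T X Y : Fin 2 → k} (hS : S ≠ 0) (hT : T ≠ 0) (hX : X ≠ 0) (hY : Y ≠ 0)
    (hc : ∀ j, f.co S T X j = 0) : FV F S T X Y = 0 := by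
  obtain ⟨S₁, T₁, X₁, j, hS1, hT1, hX1, hj⟩ := exists_co hne
  obtain ⟨y, hy⟩ := IsAlgClosed.exists_pow_nat_eq (Gq (f.vg (lin S S₁) (lin T T₁)) (lin X X₁))
    (n := 2) (by norm_num)
  have hy' : (-y) ^ 2 = Gq (f.vg (lin S S₁) (lin T T₁)) (lin X X₁) := by rw [neg_sq, hy]
  obtain ⟨U, kU⟩ := exists_ker hy
  obtain ⟨U', kU'⟩ := exists_ker hy'
  have hb := bridge (n := 2) (c₀ := 0) (c₁ := 1) (C₀ := FV F S T X Y + FV F S T X Y) (C₁ := 0) hcf
    (S := fun _ => lin S S₁) (T := fun _ => lin T T₁) (X := fun _ => lin X X₁)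
    (Y := ![U, U']) (fun _ => lin_ne hS) (fun _ => lin_ne hT) (fun _ => lin_ne hX) ?_ ?_ ?_ ?_
  · have h4 : (2 : ℚ) • FV F S T X Y = 0 := by
      rw [two_smul]
      exact hb
    exact (smul_eq_zero.1 h4).resolve_left two_ne_zero
  · intro j
    fin_cases j
    · exact kU.ne
    · exact kU'.ne
  · intro j
    fin_cases j
    · exact kU.onV
    · exact kU'.onV
  · intro v hv
    have s1 := sp_lin0 (y := S₁) hS hv
    have t1 := sp_lin0 (y := T₁) hT hv
    have x1 := sp_lin0 (y := X₁) hX hv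
    obtain ⟨e, w, y₀, w1, -, -, m1⟩ := lim s1 t1 x1 hy kU
    obtain ⟨e', w', y₀', w1', -, -, m1'⟩ := lim s1 t1 x1 hy' kU'
    rw [Fin.sum_univ_two]
    simp only [Matrix.cons_val_zero, Matrix.cons_val_one]
    rw [s1.vlo, t1.vlo, x1.vlo, w1.vlo, w1'.vlo]
    show FV F S T X w + FV F S T X w' = _
    rw [vert_const hcf hS hT hX m1.ne hY hc, vert_const hcf hS hT hX m1'.ne hY hc]
  · intro v hv
    have s1 := sp_lin1 (x := S) hS1 hv
    have t1 := sp_lin1 (x := T) hT1 hv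
    have x1 := sp_lin1 (x := X) hX1 hv
    obtain ⟨e, w, y₀, w1, u1, -, m1⟩ := lim s1 t1 x1 hy kU
    obtain ⟨e', w', y₀', w1', u1', -, m1'⟩ := lim s1 t1 x1 hy' kU'
    have h3 : y₀' = -y₀ := by
      have h4 := u1.neg
      have h5 : -((1 * 1) ^ 2 * 1 ^ 2 * y) = (1 * 1) ^ 2 * 1 ^ 2 * -y := by ring
      rw [h5] at h4
      exact u1'.unique h4
    rw [h3] at m1'
    rw [Fin.sum_univ_two]
    simp only [Matrix.cons_val_zero, Matrix.cons_val_one]
    rw [s1.vlo, t1.vlo, x1.vlo, w1.vlo, w1'.vlo]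
    show FV F S₁ T₁ X₁ w + FV F S₁ T₁ X₁ w' = _
    obtain ⟨κ, e2, e1, e0, -⟩ := coeffs m1 m1'
    refine bar_gen0 hb hS1 hT1 hX1 m1.ne m1'.ne (fun h0 => hj ?_) e2 e1 e0
    rw [h0] at e0 e1 e2
    fin_cases j
    · show f.co S₁ T₁ X₁ 0 = 0
      rw [e0]
      ring
    · show f.co S₁ T₁ X₁ 1 = 0
      rw [e1]
      ring
    · show f.co S₁ T₁ X₁ 2 = 0
      rw [e2]
      ring

/-- The data on the fibres. -/
theorem datV_of_ne (hne : f ≠ 0) (hcf : f.IsCF F)
    (hb : ∀ s t : Option k, Bar (f.at s t) (F s t)) : DatV f F := by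
  refine ⟨hcf, fun s t X Y hc => ?_, hb⟩
  have h1 := vert_zero hne hcf hb (vo_ne s) (vo_ne t) (vo_ne X) (vo_ne Y) (fun j => by
    rw [← hco_eq]
    exact hc j)
  unfold FV at h1
  rwa [po_vo, po_vo, po_vo, po_vo] at h1

end Pool.Agent.GOC
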