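import Pool.Agent.GOC.Pen

/-!
# The points on singular curves
-/

set_option autoImplicit false
set_option linter.unusedSectionVars false

noncomputable section

namespace Pool.Agent.GOC

open Pool.Agent.ZCyc Pool.Agent.Dess Pool.Agent.GT Pool.Agent.TInc
open Pool.Agent.VFP (Om tt)
open Pool.Agent.HGF (fst snd vlo)

variable {k : Type} [Field k] [IsAlgClosed k] [CharZero k] {W : Type} [AddCommGroup W] [Module ℚ W]
  {f : Cf k} {F : Option k → Option k → Option k → Option k → W} {p q : k}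

/-- A path on a conic from a given point to a point with given first coordinate. -/
theorem path (m : Fin 3 → k) {X X₁ : Fin 2 → k} {ρ₀ : k} (hρ : ρ₀ ≠ 0) (h : ρ₀ ^ 2 = Qv m X) :
    ∃ (Z : Fin 2 → Om k) (ρ : Om k) (c₀ c₁ : k), ρ ^ 2 = Qv (cst (Om k) m) Z ∧ c₀ ≠ 0 ∧ c₁ ≠ 0 ∧
      (∀ v : Place k (Om k), v.At (tt k) 0 → VA v Z (fun i => c₀ * X i) ∧ v.At ρ (c₀ * ρ₀)) ∧
      ∀ v : Place k (Om k), v.At (tt k) 1 → VA v Z (fun i => c₁ * X₁ i) := by
  obtain ⟨β, hβ⟩ : ∃ β, β = 2 * m 2 * X 0 * X₁ 0 + m 1 * (X 0 * X₁ 1 + X 1 * X₁ 0) +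
      2 * m 0 * X 1 * X₁ 1 := ⟨_, rfl⟩
  obtain ⟨γ, hγ⟩ : ∃ γ, γ = Qv m X₁ := ⟨_, rfl⟩
  have hQ : ∀ l n : Om k, Qv (cst (Om k) m) (fun i => l * algebraMap k (Om k) (X i) +
      n * algebraMap k (Om k) (X₁ i)) = algebraMap k (Om k) (ρ₀ ^ 2) * l ^ 2 +
      algebraMap k (Om k) β * (l * n) + algebraMap k (Om k) γ * n ^ 2 := by
    intro l n
    rw [h, hβ, hγ]
    simp only [Qv, cst, map_add, map_mul, map_pow, map_ofNat]
    ring
  have h2 : (2 : k) ≠ 0 := two_ne_zero
  by_cases hd : 4 * ρ₀ ^ 2 * γ = β ^ 2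
  · refine ⟨fun i => (1 - tt k) * algebraMap k (Om k) (X i) + tt k * algebraMap k (Om k) (X₁ i),
      (1 - tt k) * algebraMap k (Om k) ρ₀ + tt k * algebraMap k (Om k) (β / (2 * ρ₀)), 1, 1, ?_,
      one_ne_zero, one_ne_zero, ?_, ?_⟩
    · rw [hQ]
      have e1 : γ = (β / (2 * ρ₀)) ^ 2 := by
        field_simp
        linear_combination hd
      have e2 : β = 2 * ρ₀ * (β / (2 * ρ₀)) := by
        field_simp
      rw [e1]
      nth_rewrite 2 [e2]
      simp only [map_mul, map_pow, map_ofNat]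
      ring
    · intro v hv
      constructor
      · intro i
        have e := ((at_one.sub hv).mul (Place.at_const (X i))).add
          (hv.mul (Place.at_const (X₁ i)))
        have e' : (1 - 0) * X i + 0 * X₁ i = 1 * X i := by ring
        rw [e'] at e
        exact e
      · have e := ((at_one.sub hv).mul (Place.at_const ρ₀)).add
          (hv.mul (Place.at_const (β / (2 * ρ₀))))
        have e' : (1 - 0) * ρ₀ + 0 * (β / (2 * ρ₀)) = 1 * ρ₀ := by ring
        rw [e'] at e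
        exact e
    · intro v hv i
      have e := ((at_one.sub hv).mul (Place.at_const (X i))).add
        (hv.mul (Place.at_const (X₁ i)))
      have e' : (1 - 1) * X i + 1 * X₁ i = 1 * X₁ i := by ring
      rw [e'] at e
      exact e
  · obtain ⟨t₁, ht₁⟩ := IsAlgClosed.exists_pow_nat_eq γ (n := 2) (by norm_num)
    obtain ⟨t, ht⟩ : ∃ t : Om k, t = (1 - tt k) * algebraMap k (Om k) (β / (2 * ρ₀)) +
      tt k * algebraMap k (Om k) t₁ := ⟨_, rfl⟩
    have hc0 : γ - (β / (2 * ρ₀)) ^ 2 ≠ 0 := by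
      intro h0
      apply hd
      have e : γ = (β / (2 * ρ₀)) ^ 2 := sub_eq_zero.1 h0
      rw [e]
      field_simp
      ring
    have hc1 : 2 * ρ₀ * t₁ - β ≠ 0 := by
      intro h0
      apply hd
      rw [← ht₁]
      linear_combination (2 * ρ₀ * t₁ + β) * h0
    have ht0 : ∀ v : Place k (Om k), v.At (tt k) 0 → v.At t (β / (2 * ρ₀)) := by
      intro v hv
      have e := ((at_one.sub hv).mul (Place.at_const (β / (2 * ρ₀)))).add
        (hv.mul (Place.at_const t₁))
      have e' : (1 - 0) * (β / (2 * ρ₀)) + 0 * t₁ = β / (2 * ρ₀) := by ring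
      rw [e'] at e
      rw [ht]
      exact e
    have ht1 : ∀ v : Place k (Om k), v.At (tt k) 1 → v.At t t₁ := by
      intro v hv
      have e := ((at_one.sub hv).mul (Place.at_const (β / (2 * ρ₀)))).add
        (hv.mul (Place.at_const t₁))
      have e' : (1 - 1) * (β / (2 * ρ₀)) + 1 * t₁ = t₁ := by ring
      rw [e'] at e
      rw [ht]
      exact e
    refine ⟨fun i => (algebraMap k (Om k) γ - t ^ 2) * algebraMap k (Om k) (X i) +
      (2 * algebraMap k (Om k) ρ₀ * t - algebraMap k (Om k) β) * algebraMap k (Om k) (X₁ i),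
      algebraMap k (Om k) ρ₀ * algebraMap k (Om k) γ - algebraMap k (Om k) β * t +
        algebraMap k (Om k) ρ₀ * t ^ 2, γ - (β / (2 * ρ₀)) ^ 2, 2 * ρ₀ * t₁ - β, ?_, hc0, hc1,
      ?_, ?_⟩
    · rw [hQ, map_pow]
      ring
    · intro v hv
      have e0 := ht0 v hv
      constructor
      · intro i
        have e := (((Place.at_const (v := v) γ).sub (e0.pow 2)).mul (Place.at_const (X i))).add
          (((((at_num 2).mul (Place.at_const ρ₀)).mul e0).sub (Place.at_const β)).mul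
            (Place.at_const (X₁ i)))
        have e' : (γ - (β / (2 * ρ₀)) ^ 2) * X i + (2 * ρ₀ * (β / (2 * ρ₀)) - β) * X₁ i =
            (γ - (β / (2 * ρ₀)) ^ 2) * X i := by
          field_simp
          ring
        rw [e'] at e
        exact e
      · have e := ((((Place.at_const (v := v) ρ₀).mul (Place.at_const γ)).sub
          ((Place.at_const β).mul e0))).add ((Place.at_const ρ₀).mul (e0.pow 2))
        have e' : ρ₀ * γ - β * (β / (2 * ρ₀)) + ρ₀ * (β / (2 * ρ₀)) ^ 2 =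
            (γ - (β / (2 * ρ₀)) ^ 2) * ρ₀ := by
          field_simp
          ring
        rw [e'] at e
        exact e
    · intro v hv i
      have e0 := ht1 v hv
      have e := (((Place.at_const (v := v) γ).sub (e0.pow 2)).mul (Place.at_const (X i))).add
        (((((at_num 2).mul (Place.at_const ρ₀)).mul e0).sub (Place.at_const β)).mul
          (Place.at_const (X₁ i)))
      have e' : (γ - t₁ ^ 2) * X i + (2 * ρ₀ * t₁ - β) * X₁ i = (2 * ρ₀ * t₁ - β) * X₁ i := by
        rw [ht₁]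
        ring
      rw [e'] at e
      exact e

/-- **Singular curves.** -/
theorem sing (h : DatV f F) {S T X Y : Fin 2 → k} (hS : S ≠ 0) (hT : T ≠ 0) (hX : X ≠ 0)
    (hY : Y ≠ 0) (hV : f.OnV S T X Y) (hD : Dq (f.vg S T) = 0) : FV F S T X Y = 0 := by
  obtain ⟨y, hy, k1⟩ := hV.exists_y hY
  by_cases hy0 : y = 0
  · rw [hy0] at k1
    exact zero_of_y h hS hT hX k1
  obtain ⟨r, m, hr0, hr⟩ := exists_double hD
  have h1 := hr k X
  have e1 : (fun i => algebraMap k k (f.vg S T i)) = f.vg S T := rfl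
  have e2 : (fun i => algebraMap k k (r i)) = r := rfl
  have e3 : (fun i => algebraMap k k (m i)) = m := rfl
  rw [e1, e2, e3, ← hy] at h1
  have hd : dt X r ≠ 0 := by
    intro h0
    rw [h0] at h1
    apply hy0
    have : y ^ 2 = 0 := by rw [h1]; ring
    exact pow_eq_zero_iff two_ne_zero |>.1 this
  obtain ⟨ρ₀, hρ⟩ : ∃ ρ₀, ρ₀ = y / dt X r := ⟨_, rfl⟩
  have hρ0 : ρ₀ ≠ 0 := by
    rw [hρ]
    exact div_ne_zero hy0 hd
  have hyρ : y = dt X r * ρ₀ := by
    rw [hρ]
    field_simp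
  obtain ⟨Z, ρ, c₀, c₁, hZρ, hc0, hc1, hv0, hv1⟩ := path m (X₁ := r) hρ0 (by
    rw [hρ, div_pow, h1]
    field_simp)
  have hsq : (dt Z (cst (Om k) r) * ρ) ^ 2 = Gq (f.vg (cst (Om k) S) (cst (Om k) T)) Z := by
    have h2 := hr (Om k) Z
    rw [vg_cst]
    unfold cst at hZρ ⊢
    rw [h2, mul_pow, hZρ]
  obtain ⟨U, kU⟩ := exists_ker hsq
  have hsm : ∀ {c : k} {z : Fin 2 → k}, c ≠ 0 → z ≠ 0 → (fun i => c * z i) ≠ 0 := by
    intro c z hc hz h0
    apply hz
    funext i
    exact (mul_eq_zero.1 (congrFun h0 i)).resolve_left hc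
  have hsp : ∀ {v : Place k (Om k)} {c : k} {z : Fin 2 → k}, c ≠ 0 → z ≠ 0 →
      VA v Z (fun i => c * z i) → Sp v 1 Z (fun i => c * z i) := by
    intro v c z hc hz hv
    refine ⟨one_ne_zero, hsm hc hz, fun i => ?_⟩
    show v.At (1 * Z i) _
    rw [one_mul]
    exact hv i
  have hZ0 : Z ≠ 0 := by
    obtain ⟨v, hv⟩ : ∃ v : Place k (Om k), v.At (tt k) 0 :=
      ZCyc.exists_place VFP.tt_transc (0 : k)
    exact (hsp hc0 hX (hv0 v hv).1).ne
  refine bridge (n := 1) (c₀ := 0) (c₁ := 1) (C₀ := FV F S T X Y) (C₁ := 0) h.cf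
    (S := fun _ => cst (Om k) S) (T := fun _ => cst (Om k) T) (X := fun _ => Z)
    (Y := fun _ => U) (fun _ => cst_ne hS) (fun _ => cst_ne hT) (fun _ => hZ0)
    (fun _ => kU.ne) (fun _ => kU.onV) ?_ ?_
  · intro v hv
    obtain ⟨a1, a2⟩ := hv0 v hv
    have s1 := hsp hc0 hX a1
    obtain ⟨e, w, y', t1, u1, -, m1⟩ := lim (sp_cst hS) (sp_cst hT) s1 hsq kU
    rw [Fin.sum_univ_one, (sp_cst hS).vlo, (sp_cst hT).vlo, s1.vlo, t1.vlo]
    show FV F S T (fun i => c₀ * X i) w = _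
    have hy' : y' = c₀ ^ 2 * y := by
      rw [mul_one, one_pow, one_mul, one_mul] at u1
      have a3 := (at_dt a1 (at_cst (K := Om k) (v := v) r)).mul a2
      rw [u1.unique a3, hyρ]
      unfold dt
      ring
    have h3 := k1.smul (c := 1) (d := 1) (r := c₀) (e := 1) one_ne_zero
    simp only [one_mul, one_pow] at h3
    rw [hy'] at m1
    obtain ⟨d, hd'⟩ := h3.unique (mul_ne_zero (pow_ne_zero 2 hc0) hy0) m1
    exact FV_congr (a := 1) (b := 1) (c := c₀) hS hT s1.z0 m1.ne (by simp) (by simp) rfl hd'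
  · intro v hv
    have s1 := hsp hc1 hr0 (hv1 v hv)
    obtain ⟨e, w, y', t1, u1, q1, m1⟩ := lim (sp_cst hS) (sp_cst hT) s1 hsq kU
    rw [Fin.sum_univ_one, (sp_cst hS).vlo, (sp_cst hT).vlo, s1.vlo, t1.vlo]
    have h4 := hr k (fun i => c₁ * r i)
    rw [e1, e2, e3, ← q1] at h4
    have h5 : dt (fun i => c₁ * r i) r = 0 := by
      unfold dt
      ring
    have h6 : y' = 0 := by
      rw [h5] at h4
      exact pow_eq_zero_iff two_ne_zero |>.1 (by rw [h4]; ring)
    rw [h6] at m1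
    exact zero_of_y h hS hT s1.z0 m1

end Pool.Agent.GOC
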