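import Pool.Agent.GOC.SwpA

/-!
# The sum of a class function and of its transform
-/

set_option autoImplicit false
set_option linter.unusedSectionVars false

noncomputable section

namespace Pool.Agent.GOC

open Pool.Agent.ZCyc Pool.Agent.Dess Pool.Agent.GT Pool.Agent.TInc
open Pool.Agent.VFP (Om tt)
open Pool.Agent.HGF (fst snd vlo)

section dbl

variable {k : Type} [Field k] [IsAlgClosed k] [CharZero k] {W : Type} [AddCommGroup W] [Module ℚ W]
  {f : Cf k} {F : Option k → Option k → Option k → Option k → W} {p q : k}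

/-- the sum of `F` and of its transform -/
def dbl (p q : k) (F : Option k → Option k → Option k → Option k → W) :
    Option k → Option k → Option k → Option k → W :=
  fun s t X Y => F s t X Y + F t s (inv p X) (inv q Y)

private theorem inv_some_zero {K : Type} [Field K] (p : K) : inv p (some 0) = none := by
  simp [inv]

private theorem inv_some_ne {K : Type} [Field K] (p : K) {x : K} (hx : x ≠ 0) :
    inv p (some x) = some (p / x) := by
  simp [inv, hx]

private theorem inv_none {K : Type} [Field K] (p : K) : inv p none = some 0 := rfl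

theorem inv_inv' (hp : p ≠ 0) (x : Option k) : inv p (inv p x) = x := by
  cases x with
  | none => rw [inv_none, inv_some_zero]
  | some f =>
    by_cases hf : f = 0
    · subst hf
      rw [inv_some_zero, inv_none]
    · rw [inv_some_ne p hf, inv_some_ne p (div_ne_zero hp hf), div_div_cancel₀ hp]

theorem dbl_swap (hp : p ≠ 0) (hq : q ≠ 0) (s t X Y : Option k) :
    dbl p q F t s (inv p X) (inv q Y) = dbl p q F s t X Y := by
  unfold dbl
  rw [inv_inv' hp, inv_inv' hq, add_comm]

/-- homogeneous coordinates of `p / x` -/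
private theorem inv_hom {K : Type} [Field K] {p : K} (hp : p ≠ 0) (x : Option K) :
    ∃ m : K, m ≠ 0 ∧ m * fst (inv p x) = p * snd x ∧ m * snd (inv p x) = fst x := by
  cases x with
  | none =>
    refine ⟨1, one_ne_zero, ?_, ?_⟩
    · rw [inv_none, HGF.fst_some, HGF.snd_none, mul_zero, mul_zero]
    · rw [inv_none, HGF.snd_some, HGF.fst_none, mul_one]
  | some f =>
    by_cases hf : f = 0
    · subst hf
      refine ⟨p, hp, ?_, ?_⟩
      · rw [inv_some_zero, HGF.fst_none, HGF.snd_some]
      · rw [inv_some_zero, HGF.snd_none, HGF.fst_some, mul_zero]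
    · refine ⟨f, hf, ?_, ?_⟩
      · rw [inv_some_ne p hf, HGF.fst_some, HGF.snd_some, mul_one, mul_div_cancel₀ _ hf]
      · rw [inv_some_ne p hf, HGF.snd_some, HGF.fst_some, mul_one]

private theorem mon_inv {K : Type} [Field K] {p m : K} {x : Option K}
    (h1 : m * fst (inv p x) = p * snd x) (h2 : m * snd (inv p x) = fst x) (i : Fin 3) :
    m ^ 2 * mon (inv p x) i = p ^ (i : ℕ) * mon x (Fin.rev i) := by
  unfold mon
  rw [← h2]
  fin_cases i
  · simp only [Fin.rev]
    simp
    ring
  · simp only [Fin.rev]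
    simp
    linear_combination (m * snd (inv p x)) * h1
  · simp only [Fin.rev]
    simp
    linear_combination (m * fst (inv p x) + p * snd x) * h1

/-- the coefficients of the form over the exchanged points -/
private theorem hco_swp {K : Type} [Field K] [Algebra k K]
    (hs : ∀ a b i j : Fin 3, p ^ (i : ℕ) * q ^ (j : ℕ) * f b a i j =
      p * q * f a b (Fin.rev i) (Fin.rev j)) {s t X : Option K} {m : K}
    (h1 : m * fst (inv (algebraMap k K p) X) = algebraMap k K p * snd X)
    (h2 : m * snd (inv (algebraMap k K p) X) = fst X) (j : Fin 3) :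
    algebraMap k K q ^ (j : ℕ) * (m ^ 2 * (f.at t s).hco j (inv (algebraMap k K p) X)) =
      algebraMap k K p * algebraMap k K q * (f.at s t).hco (Fin.rev j) X := by
  have hs' : ∀ a b i j : Fin 3, algebraMap k K p ^ (i : ℕ) * algebraMap k K q ^ (j : ℕ) *
      algebraMap k K (f b a i j) =
      algebraMap k K p * algebraMap k K q * algebraMap k K (f a b (Fin.rev i) (Fin.rev j)) := by
    intro a b i j
    rw [← map_pow, ← map_pow, ← map_mul, ← map_mul, hs, map_mul, map_mul]
  have key : ∀ i a b : Fin 3, algebraMap k K q ^ (j : ℕ) * (m ^ 2 *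
      (algebraMap k K (f a b i j) * (mon t a * mon s b) * mon (inv (algebraMap k K p) X) i)) =
      algebraMap k K p * algebraMap k K q * (algebraMap k K (f b a (Fin.rev i) (Fin.rev j)) *
        (mon s b * mon t a) * mon X (Fin.rev i)) := by
    intro i a b
    linear_combination (algebraMap k K q ^ (j : ℕ) * algebraMap k K (f a b i j) *
      mon t a * mon s b) * mon_inv h1 h2 i +
      (mon t a * mon s b * mon X (Fin.rev i)) * hs' b a i j
  have e1 : algebraMap k K q ^ (j : ℕ) * (m ^ 2 *
      (f.at t s).hco j (inv (algebraMap k K p) X)) = ∑ i : Fin 3, ∑ a : Fin 3, ∑ b : Fin 3,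
      algebraMap k K q ^ (j : ℕ) * (m ^ 2 *
      (algebraMap k K (f a b i j) * (mon t a * mon s b) * mon (inv (algebraMap k K p) X) i)) := by
    unfold Bq.hco Cf.at
    simp only [Finset.mul_sum, Finset.sum_mul]
  have e2 : algebraMap k K p * algebraMap k K q * (f.at s t).hco (Fin.rev j) X =
      ∑ i : Fin 3, ∑ a : Fin 3, ∑ b : Fin 3, algebraMap k K p * algebraMap k K q *
        (algebraMap k K (f b a (Fin.rev i) (Fin.rev j)) * (mon s b * mon t a) *
          mon X (Fin.rev i)) := by
    unfold Bq.hco Cf.at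
    rw [← Equiv.sum_comp Fin.revPerm]
    simp only [Finset.mul_sum, Finset.sum_mul, Fin.revPerm_apply]
    exact Finset.sum_congr rfl fun i _ => Finset.sum_comm
  rw [e1, e2]
  exact Finset.sum_congr rfl fun i _ => Finset.sum_congr rfl fun a _ =>
    Finset.sum_congr rfl fun b _ => key i a b

/-- the form over the exchanged points -/
private theorem val_swp {K : Type} [Field K] [Algebra k K] (hp : p ≠ 0) (hq : q ≠ 0)
    (hs : ∀ a b i j : Fin 3, p ^ (i : ℕ) * q ^ (j : ℕ) * f b a i j =
      p * q * f a b (Fin.rev i) (Fin.rev j)) {s t X Y : Option K} (h : (f.at s t).val X Y = 0) :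
    (f.at t s).val (inv (algebraMap k K p) X) (inv (algebraMap k K q) Y) = 0 := by
  have hp' : algebraMap k K p ≠ 0 := fun h0 => hp ((map_eq_zero _).1 h0)
  have hq' : algebraMap k K q ≠ 0 := fun h0 => hq ((map_eq_zero _).1 h0)
  obtain ⟨m, hm, h1, h2⟩ := inv_hom hp' X
  obtain ⟨l, hl, h3, h4⟩ := inv_hom hq' Y
  have g0 := hco_swp (s := s) (t := t) hs h1 h2 0
  have g1 := hco_swp (s := s) (t := t) hs h1 h2 1
  have g2 := hco_swp (s := s) (t := t) hs h1 h2 2
  have r0 : Fin.rev (0 : Fin 3) = 2 := rfl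
  have r1 : Fin.rev (1 : Fin 3) = 1 := rfl
  have r2 : Fin.rev (2 : Fin 3) = 0 := rfl
  rw [r0] at g0
  rw [r1] at g1
  rw [r2] at g2
  have v0 : ((0 : Fin 3) : ℕ) = 0 := rfl
  have v1 : ((1 : Fin 3) : ℕ) = 1 := rfl
  have v2 : ((2 : Fin 3) : ℕ) = 2 := rfl
  rw [v0, pow_zero, one_mul] at g0
  rw [v1, pow_one] at g1
  rw [v2] at g2
  rw [Bq.val_eq] at h ⊢
  generalize (f.at t s).hco 0 (inv (algebraMap k K p) X) = a0 at *
  generalize (f.at t s).hco 1 (inv (algebraMap k K p) X) = a1 at *
  generalize (f.at t s).hco 2 (inv (algebraMap k K p) X) = a2 at *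
  generalize (f.at s t).hco 0 X = b0 at *
  generalize (f.at s t).hco 1 X = b1 at *
  generalize (f.at s t).hco 2 X = b2 at *
  generalize fst (inv (algebraMap k K q) Y) = y1 at *
  generalize snd (inv (algebraMap k K q) Y) = y0 at *
  generalize algebraMap k K q = q' at *
  generalize algebraMap k K p = p' at *
  rw [← h4] at h
  have c1 : m ^ 2 * a1 = p' * b1 := mul_left_cancel₀ hq' (by linear_combination g1)
  have c2 : q' * (m ^ 2 * a2) = p' * b0 := mul_left_cancel₀ hq' (by linear_combination g2)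
  have h5 : (m ^ 2 * l ^ 2 * q') * (a2 * y1 ^ 2 + a1 * (y1 * y0) + a0 * y0 ^ 2) = 0 := by
    linear_combination (p' * q' ^ 2) * h + (q' * l ^ 2 * y0 ^ 2) * g0 +
      (q' * l ^ 2 * y1 * y0) * c1 + (l ^ 2 * y1 ^ 2) * c2 + (p' * q' * b1 * l * y0) * h3 +
      (p' * b0 * (l * y1 + q' * snd Y)) * h3
  have h6 : m ^ 2 * l ^ 2 * q' ≠ 0 := mul_ne_zero (mul_ne_zero (pow_ne_zero _ hm)
    (pow_ne_zero _ hl)) hq'
  exact (mul_eq_zero.1 h5).resolve_left h6

private theorem vlo_inv {K : Type} [Field K] [Algebra k K] (hK : IsCurve k K) (v : Place k K)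
    (hp : p ≠ 0) (X : Option K) : vlo v (inv (algebraMap k K p) X) = inv p (vlo v X) := by
  have hp' : algebraMap k K p ≠ 0 := fun h0 => hp ((map_eq_zero _).1 h0)
  have h0 : v.At (0 : K) 0 := Place.at_zero_iff.2 v.vanishes_zero
  cases X with
  | none => rw [inv_none, HGF.vlo_none, inv_none, HGF.vlo_at h0]
  | some g =>
    by_cases hg : g = 0
    · subst hg
      rw [inv_some_zero, HGF.vlo_none, HGF.vlo_at h0, inv_some_zero]
    · rw [inv_some_ne _ hg]
      by_cases hr : g ∈ v.ring
      · obtain ⟨c, hc⟩ := exists_at hK v hr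
        rw [HGF.vlo_at hc]
        by_cases hc0 : c = 0
        · subst hc0
          rw [inv_some_zero, HGF.vlo_some, HYG.vl_inv hK (div_ne_zero hp' hg), inv_div]
          have h1 := hc.mul (Place.at_const (v := v) p⁻¹)
          rw [zero_mul, map_inv₀] at h1
          rwa [div_eq_mul_inv]
        · rw [inv_some_ne p hc0]
          exact HGF.vlo_at ((Place.at_const (v := v) p).div hc hc0)
      · have h1 : vlo v (some g) = none := (HYG.vl_none_iff hK).2 hr
        rw [h1, inv_none]
        have h2 : v.At g⁻¹ 0 := (HYG.vl_inv hK hg).1 h1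
        have h3 := (Place.at_const (v := v) p).mul h2
        rw [mul_zero] at h3
        rw [div_eq_mul_inv]
        exact HGF.vlo_at h3

/-- the sum is a class function -/
theorem cf_dbl (hp : p ≠ 0) (hq : q ≠ 0)
    (hs : ∀ a b i j : Fin 3, p ^ (i : ℕ) * q ^ (j : ℕ) * f b a i j =
      p * q * f a b (Fin.rev i) (Fin.rev j)) (hF : f.IsCF F) : f.IsCF (dbl p q F) := by
  intro K _ _ hK s t X Y g hg hv
  have h1 := hF K hK s t X Y g hg hv
  have h2 := hF K hK t s _ _ g hg (val_swp hp hq hs hv)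
  have h3 : ((TInc.dv hK g).sum fun v a => a • GOC.dbl p q F (vlo v s) (vlo v t) (vlo v X)
      (vlo v Y)) = ((TInc.dv hK g).sum fun v a => a • F (vlo v s) (vlo v t) (vlo v X)
      (vlo v Y)) + ((TInc.dv hK g).sum fun v a => a • F (vlo v t) (vlo v s)
      (vlo v (inv (algebraMap k K p) X)) (vlo v (inv (algebraMap k K q) Y))) := by
    rw [← Finsupp.sum_add]
    refine Finsupp.sum_congr fun v _ => ?_
    rw [vlo_inv hK v hp, vlo_inv hK v hq, ← smul_add]
    rfl
  rw [h3, h1, h2, add_zero]

/-- the values of the sum at the two points with the same `s`, `t`, `X` -/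
theorem bar_dbl (hp : p ≠ 0) (hq : q ≠ 0)
    (hs : ∀ a b i j : Fin 3, p ^ (i : ℕ) * q ^ (j : ℕ) * f b a i j =
      p * q * f a b (Fin.rev i) (Fin.rev j)) (hb : ∀ s t : Option k, Bar (f.at s t) (F s t))
    (s t : Option k) : Bar (f.at s t) (dbl p q F s t) := by
  intro X Y Y' κ hκ e2 e1 e0
  have h1 := hb s t X Y Y' κ hκ e2 e1 e0
  obtain ⟨m, hm, m1, m2⟩ := inv_hom hp X
  obtain ⟨l, hl, l1, l2⟩ := inv_hom hq Y
  obtain ⟨l', hl', l1', l2'⟩ := inv_hom hq Y'
  have g0 := hco_swp (K := k) (s := s) (t := t) hs m1 m2 0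
  have g1 := hco_swp (K := k) (s := s) (t := t) hs m1 m2 1
  have g2 := hco_swp (K := k) (s := s) (t := t) hs m1 m2 2
  have r0 : Fin.rev (0 : Fin 3) = 2 := rfl
  have r1 : Fin.rev (1 : Fin 3) = 1 := rfl
  have r2 : Fin.rev (2 : Fin 3) = 0 := rfl
  rw [r0, e2] at g0
  rw [r1, e1] at g1
  rw [r2, e0] at g2
  have v0 : ((0 : Fin 3) : ℕ) = 0 := rfl
  have v1 : ((1 : Fin 3) : ℕ) = 1 := rfl
  have v2 : ((2 : Fin 3) : ℕ) = 2 := rfl
  rw [v0, pow_zero, one_mul] at g0
  rw [v1, pow_one] at g1
  rw [v2] at g2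
  simp only [Algebra.algebraMap_self, RingHom.id_apply] at g0 g1 g2
  have hne : q * m ^ 2 ≠ 0 := mul_ne_zero hq (pow_ne_zero _ hm)
  have h2 := hb t s (inv p X) (inv q Y) (inv q Y') (p * κ * l * l' / (q * m ^ 2))
    (div_ne_zero (mul_ne_zero (mul_ne_zero (mul_ne_zero hp hκ) hl) hl')
      (mul_ne_zero hq (pow_ne_zero _ hm))) ?_ ?_ ?_
  · unfold GOC.dbl
    rw [add_add_add_comm, h1, h2, add_zero]
  · rw [div_mul_eq_mul_div, eq_div_iff hne]
    have c2 := mul_left_cancel₀ hq (show q * (q * (m ^ 2 * (f.at t s).hco 2 (inv p X))) =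
      q * (p * (κ * (fst Y * fst Y'))) by linear_combination g2)
    rw [← l2, ← l2'] at c2
    linear_combination c2
  · rw [div_mul_eq_mul_div, ← neg_div, eq_div_iff hne]
    have c1 := mul_left_cancel₀ hq (show q * (m ^ 2 * (f.at t s).hco 1 (inv p X)) =
      q * (p * -(κ * (fst Y * snd Y' + snd Y * fst Y'))) by linear_combination g1)
    rw [← l2, ← l2'] at c1
    linear_combination q * c1 + (p * κ * l * snd (inv q Y)) * l1' +
      (p * κ * l' * snd (inv q Y')) * l1
  · rw [div_mul_eq_mul_div, eq_div_iff hne]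
    linear_combination q * g0 - (p * κ * l' * fst (inv q Y')) * l1 -
      (p * κ * q * snd Y) * l1'

/-- The conditions for `F` imply those for the sum. For `cf`: if `(s, t, X, Y)` is a point over `K`, so is
`(t, s, inv p X, inv q Y)` (`sym`; `onV_iff`/`val_iff` and `co_swp` or the definition), and
`vlo v (inv p X) = inv p (vlo v X)` (cases `X = none`, `X = some f` with `f = 0`, `f` with the value `0`,
`f` with a value `≠ 0`, `f` without value; `HYG.vl_inv`, `HYG.vl_none_iff`). For `bar`: the equation for `Y` over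
`(t, s, inv p X)` has the solutions `inv q Y`, `inv q Y'`. -/
theorem Dat.dbl (h : Dat f p q F) : Dat f p q (dbl p q F) := by
  refine ⟨h.p0, h.q0, h.sym, cf_dbl h.p0 h.q0 h.sym h.cf, ?_, bar_dbl h.p0 h.q0 h.sym h.bar⟩
  intro s t X Y hv hb
  have h1 := h.bdry s t X Y hv hb
  have h2 := val_swp (K := k) h.p0 h.q0 h.sym hv
  have h3 : F t s (inv p X) (inv q Y) = 0 := by
    refine h.bdry t s _ _ h2 ?_
    rcases hb with rfl | rfl | rfl | rfl
    · exact Or.inr (Or.inl (inv_none p))
    · exact Or.inl (inv_some_zero p)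
    · exact Or.inr (Or.inr (Or.inr (inv_none q)))
    · exact Or.inr (Or.inr (Or.inl (inv_some_zero q)))
  unfold GOC.dbl
  rw [h1, h3, add_zero]

end dbl

end Pool.Agent.GOC
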