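import Pool.Agent.GOC.Es

/-!
# The invariants of the quartic forms are forms in the symmetric functions of the two points
-/

set_option autoImplicit false

noncomputable section

namespace Pool.Agent.GOC

open Pool.Agent.ZCyc Pool.Agent.Dess Pool.Agent.GT Pool.Agent.TInc

variable {k : Type} [Field k]

/-! ### Monomials of bidegree `(n, m)` -/

private def mn (k : Type) [Field k] (n m : ℕ) : Set (MvPolynomial (Fin 4) k) :=
  {x | ∃ a b c e : ℕ, a + b = n ∧ c + e = m ∧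
    x = MvPolynomial.X 0 ^ a * MvPolynomial.X 1 ^ b *
      (MvPolynomial.X 2 ^ c * MvPolynomial.X 3 ^ e)}

private def M (k : Type) [Field k] (n m : ℕ) : Submodule k (MvPolynomial (Fin 4) k) :=
  Submodule.span k (mn k n m)

private theorem M_mul {n m n' m' : ℕ} {x y : MvPolynomial (Fin 4) k} (hx : x ∈ M k n m)
    (hy : y ∈ M k n' m') : x * y ∈ M k (n + n') (m + m') := by
  have h := Submodule.mul_mem_mul hx hy
  unfold M at h
  rw [Submodule.span_mul_span] at h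
  refine Submodule.span_mono ?_ h
  rintro _ ⟨_, ⟨a, b, c, e, h1, h2, rfl⟩, _, ⟨a', b', c', e', h1', h2', rfl⟩, rfl⟩
  refine ⟨a + a', b + b', c + c', e + e', by omega, by omega, ?_⟩
  simp only [pow_add]
  ring

private theorem M_mul' {n m n' m' N N' : ℕ} {x y : MvPolynomial (Fin 4) k} (hx : x ∈ M k n m)
    (hy : y ∈ M k n' m') (h : n + n' = N) (h' : m + m' = N') : x * y ∈ M k N N' := by
  subst h h'
  exact M_mul hx hy

private theorem M_num {n m : ℕ} (c : ℕ) {x : MvPolynomial (Fin 4) k} (hx : x ∈ M k n m) :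
    (c : MvPolynomial (Fin 4) k) * x ∈ M k n m := by
  rw [← nsmul_eq_mul]
  exact (M k n m).nsmul_mem hx c

private theorem M_ofNat {n m : ℕ} (c : ℕ) [c.AtLeastTwo] {x : MvPolynomial (Fin 4) k}
    (hx : x ∈ M k n m) : (OfNat.ofNat c : MvPolynomial (Fin 4) k) * x ∈ M k n m := by
  have h := M_num (OfNat.ofNat c) hx
  rwa [Nat.cast_ofNat] at h

private theorem M_alg {n m : ℕ} (c : k) {x : MvPolynomial (Fin 4) k} (hx : x ∈ M k n m) :
    algebraMap k (MvPolynomial (Fin 4) k) c * x ∈ M k n m := by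
  rw [← Algebra.smul_def]
  exact (M k n m).smul_mem c hx

private def S₀ (k : Type) [Field k] : Fin 2 → MvPolynomial (Fin 4) k :=
  ![MvPolynomial.X 0, MvPolynomial.X 1]

private def T₀ (k : Type) [Field k] : Fin 2 → MvPolynomial (Fin 4) k :=
  ![MvPolynomial.X 2, MvPolynomial.X 3]

private theorem M_mv (a b : Fin 3) : mv (S₀ k) a * mv (T₀ k) b ∈ M k 2 2 := by
  apply Submodule.subset_span
  refine ⟨a, 2 - a, b, 2 - b, by omega, by omega, ?_⟩
  rfl

private theorem M_vc (f : Cf k) (i j : Fin 3) : f.vc (S₀ k) (T₀ k) i j ∈ M k 2 2 := by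
  unfold Cf.vc
  refine Submodule.sum_mem _ fun a _ => Submodule.sum_mem _ fun b _ => ?_
  exact M_alg _ (M_mv a b)

private theorem vg_e0 {K : Type} [CommRing K] [Algebra k K] (f : Cf k) (S T : Fin 2 → K) :
    f.vg S T 0 = f.vc S T 0 1 ^ 2 - 4 * (f.vc S T 0 2 * f.vc S T 0 0) := rfl

private theorem vg_e1 {K : Type} [CommRing K] [Algebra k K] (f : Cf k) (S T : Fin 2 → K) :
    f.vg S T 1 = 2 * f.vc S T 0 1 * f.vc S T 1 1 -
      4 * (f.vc S T 0 2 * f.vc S T 1 0 + f.vc S T 1 2 * f.vc S T 0 0) := rfl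

private theorem vg_e2 {K : Type} [CommRing K] [Algebra k K] (f : Cf k) (S T : Fin 2 → K) :
    f.vg S T 2 = f.vc S T 1 1 ^ 2 + 2 * f.vc S T 0 1 * f.vc S T 2 1 -
      4 * (f.vc S T 0 2 * f.vc S T 2 0 + f.vc S T 1 2 * f.vc S T 1 0 +
        f.vc S T 2 2 * f.vc S T 0 0) := rfl

private theorem vg_e3 {K : Type} [CommRing K] [Algebra k K] (f : Cf k) (S T : Fin 2 → K) :
    f.vg S T 3 = 2 * f.vc S T 1 1 * f.vc S T 2 1 -
      4 * (f.vc S T 1 2 * f.vc S T 2 0 + f.vc S T 2 2 * f.vc S T 1 0) := rfl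

private theorem vg_e4 {K : Type} [CommRing K] [Algebra k K] (f : Cf k) (S T : Fin 2 → K) :
    f.vg S T 4 = f.vc S T 2 1 ^ 2 - 4 * (f.vc S T 2 2 * f.vc S T 2 0) := rfl

private theorem M_vg (f : Cf k) (i : Fin 5) : f.vg (S₀ k) (T₀ k) i ∈ M k 4 4 := by
  have h : ∀ i j i' j' : Fin 3, f.vc (S₀ k) (T₀ k) i j * f.vc (S₀ k) (T₀ k) i' j' ∈ M k 4 4 :=
    fun i j i' j' => M_mul' (M_vc f i j) (M_vc f i' j') (by norm_num) (by norm_num)
  have h4 : ∀ x ∈ M k 4 4, 4 * x ∈ M k 4 4 := fun x hx => M_ofNat 4 hx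
  have h2 : ∀ x ∈ M k 4 4, 2 * x ∈ M k 4 4 := fun x hx => M_ofNat 2 hx
  fin_cases i
  · have e := vg_e0 f (S₀ k) (T₀ k)
    rw [sq] at e
    exact e ▸ Submodule.sub_mem _ (h _ _ _ _) (h4 _ (h _ _ _ _))
  · have e := vg_e1 f (S₀ k) (T₀ k)
    rw [mul_assoc] at e
    exact e ▸ Submodule.sub_mem _ (h2 _ (h _ _ _ _))
      (h4 _ (Submodule.add_mem _ (h _ _ _ _) (h _ _ _ _)))
  · have e := vg_e2 f (S₀ k) (T₀ k)
    rw [mul_assoc, sq] at e
    exact e ▸ Submodule.sub_mem _ (Submodule.add_mem _ (h _ _ _ _) (h2 _ (h _ _ _ _)))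
      (h4 _ (Submodule.add_mem _ (Submodule.add_mem _ (h _ _ _ _) (h _ _ _ _)) (h _ _ _ _)))
  · have e := vg_e3 f (S₀ k) (T₀ k)
    rw [mul_assoc] at e
    exact e ▸ Submodule.sub_mem _ (h2 _ (h _ _ _ _))
      (h4 _ (Submodule.add_mem _ (h _ _ _ _) (h _ _ _ _)))
  · have e := vg_e4 f (S₀ k) (T₀ k)
    rw [sq] at e
    exact e ▸ Submodule.sub_mem _ (h _ _ _ _) (h4 _ (h _ _ _ _))

private theorem M_Iq (f : Cf k) : Iq (f.vg (S₀ k) (T₀ k)) ∈ M k 8 8 := by
  have h : ∀ i j : Fin 5, f.vg (S₀ k) (T₀ k) i * f.vg (S₀ k) (T₀ k) j ∈ M k 8 8 :=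
    fun i j => M_mul' (M_vg f i) (M_vg f j) (by norm_num) (by norm_num)
  unfold Iq
  rw [mul_assoc, mul_assoc, sq]
  exact Submodule.add_mem _ (Submodule.sub_mem _ (M_ofNat 12 (h _ _)) (M_ofNat 3 (h _ _))) (h _ _)

private theorem Jq_eq {K : Type} [CommRing K] (g : Fin 5 → K) : Jq g =
    72 * (g 4 * g 2 * g 0) + 9 * (g 3 * g 2 * g 1) - 27 * (g 4 * g 1 * g 1) -
      27 * (g 0 * g 3 * g 3) - 2 * (g 2 * g 2 * g 2) := by
  unfold Jq
  ring

private theorem M_Jq (f : Cf k) : Jq (f.vg (S₀ k) (T₀ k)) ∈ M k 12 12 := by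
  have h : ∀ i j l : Fin 5, f.vg (S₀ k) (T₀ k) i * f.vg (S₀ k) (T₀ k) j *
      f.vg (S₀ k) (T₀ k) l ∈ M k 12 12 :=
    fun i j l => M_mul' (M_mul' (M_vg f i) (M_vg f j) (N := 8) (N' := 8) (by norm_num)
      (by norm_num)) (M_vg f l) (by norm_num) (by norm_num)
  rw [Jq_eq]
  exact Submodule.sub_mem _ (Submodule.sub_mem _ (Submodule.sub_mem _
    (Submodule.add_mem _ (M_ofNat 72 (h _ _ _)) (M_ofNat 9 (h _ _ _))) (M_ofNat 27 (h _ _ _)))
      (M_ofNat 27 (h _ _ _))) (M_ofNat 2 (h _ _ _))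

/-! ### Symmetric forms -/

/-- the power sums of `S 1 * T 0`, `S 0 * T 1` -/
private def pw (k : Type) [Field k] : ℕ → MvPolynomial (Fin 3) k
  | 0 => MvPolynomial.C 2
  | 1 => MvPolynomial.X 1
  | m + 2 => MvPolynomial.X 1 * pw k (m + 1) - MvPolynomial.X 0 * MvPolynomial.X 2 * pw k m

private theorem pw_hom : ∀ m : ℕ, (pw k m).IsHomogeneous m ∧ (pw k (m + 1)).IsHomogeneous (m + 1)
  | 0 => ⟨MvPolynomial.isHomogeneous_C _ _, MvPolynomial.isHomogeneous_X _ _⟩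
  | m + 1 => by
    obtain ⟨h1, h2⟩ := pw_hom m
    refine ⟨h2, ?_⟩
    show (MvPolynomial.X 1 * pw k (m + 1) - MvPolynomial.X 0 * MvPolynomial.X 2 * pw k m :
      MvPolynomial (Fin 3) k).IsHomogeneous (m + 1 + 1)
    refine MvPolynomial.IsHomogeneous.sub ?_ ?_
    · have := (MvPolynomial.isHomogeneous_X k (1 : Fin 3)).mul h2
      rwa [show 1 + (m + 1) = m + 1 + 1 by omega] at this
    · have := ((MvPolynomial.isHomogeneous_X k (0 : Fin 3)).mul
        (MvPolynomial.isHomogeneous_X k (2 : Fin 3))).mul h1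
      rwa [show 1 + 1 + m = m + 1 + 1 by omega] at this

private theorem pw_val {K : Type} [CommRing K] [Algebra k K] (S T : Fin 2 → K) : ∀ m : ℕ,
    MvPolynomial.aeval (es S T) (pw k m) = (S 1 * T 0) ^ m + (S 0 * T 1) ^ m ∧
    MvPolynomial.aeval (es S T) (pw k (m + 1)) =
      (S 1 * T 0) ^ (m + 1) + (S 0 * T 1) ^ (m + 1)
  | 0 => by
    constructor
    · show MvPolynomial.aeval (es S T) (MvPolynomial.C (2 : k)) = _
      rw [MvPolynomial.aeval_C, pow_zero, pow_zero, map_ofNat]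
      norm_num
    · show MvPolynomial.aeval (es S T) (MvPolynomial.X 1) = _
      rw [MvPolynomial.aeval_X]
      simp only [es, Matrix.cons_val]
      ring
  | m + 1 => by
    obtain ⟨h1, h2⟩ := pw_val S T m
    refine ⟨h2, ?_⟩
    show MvPolynomial.aeval (es S T)
      (MvPolynomial.X 1 * pw k (m + 1) - MvPolynomial.X 0 * MvPolynomial.X 2 * pw k m) = _
    rw [map_sub, map_mul, map_mul, map_mul, h1, h2]
    simp only [MvPolynomial.aeval_X, es, Matrix.cons_val]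
    ring

/-- the exchange of the two points -/
private def sw (k : Type) [Field k] : MvPolynomial (Fin 4) k →ₐ[k] MvPolynomial (Fin 4) k :=
  MvPolynomial.aeval ![MvPolynomial.X 2, MvPolynomial.X 3, MvPolynomial.X 0, MvPolynomial.X 1]

private theorem mono_sym {n a b c e : ℕ} (h1 : a + b = n) (h2 : c + e = n) (h : a ≤ c) :
    ∃ P : MvPolynomial (Fin 3) k, P.IsHomogeneous n ∧
      MvPolynomial.aeval (es (S₀ k) (T₀ k)) P =
        MvPolynomial.X 0 ^ a * MvPolynomial.X 1 ^ b *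
          (MvPolynomial.X 2 ^ c * MvPolynomial.X 3 ^ e) +
        MvPolynomial.X 2 ^ a * MvPolynomial.X 3 ^ b *
          (MvPolynomial.X 0 ^ c * MvPolynomial.X 1 ^ e) := by
  obtain ⟨m, rfl⟩ := Nat.exists_eq_add_of_le h
  have hb : b = e + m := by omega
  subst hb
  refine ⟨MvPolynomial.X 2 ^ a * MvPolynomial.X 0 ^ e * pw k m, ?_, ?_⟩
  · have := (((MvPolynomial.isHomogeneous_X k (2 : Fin 3)).pow a).mul
        ((MvPolynomial.isHomogeneous_X k (0 : Fin 3)).pow e)).mul (pw_hom (k := k) m).1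
    rwa [show 1 * a + 1 * e + m = n by omega] at this
  · rw [map_mul, map_mul, map_pow, map_pow, (pw_val (k := k) (S₀ k) (T₀ k) m).1]
    simp only [MvPolynomial.aeval_X, es, S₀, T₀, Matrix.cons_val]
    simp only [pow_add, mul_pow]
    ring

private theorem M_sym {n : ℕ} {x : MvPolynomial (Fin 4) k} (hx : x ∈ M k n n) :
    ∃ P : MvPolynomial (Fin 3) k, P.IsHomogeneous n ∧
      MvPolynomial.aeval (es (S₀ k) (T₀ k)) P = x + sw k x := by
  unfold M at hx
  induction hx using Submodule.span_induction with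
  | mem x h =>
    obtain ⟨a, b, c, e, h1, h2, rfl⟩ := h
    have hs : sw k (MvPolynomial.X 0 ^ a * MvPolynomial.X 1 ^ b *
          (MvPolynomial.X 2 ^ c * MvPolynomial.X 3 ^ e)) =
        MvPolynomial.X 2 ^ a * MvPolynomial.X 3 ^ b *
          (MvPolynomial.X 0 ^ c * MvPolynomial.X 1 ^ e) := by
      unfold sw
      simp only [map_mul, map_pow, MvPolynomial.aeval_X, Matrix.cons_val]
    rw [hs]
    rcases le_total a c with h | h
    · exact mono_sym h1 h2 h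
    · obtain ⟨P, h3, h4⟩ := mono_sym (k := k) h2 h1 h
      refine ⟨P, h3, ?_⟩
      rw [h4]
      ring
  | zero => exact ⟨0, MvPolynomial.isHomogeneous_zero _ _ _, by simp⟩
  | add x y _ _ hx hy =>
    obtain ⟨P, h1, h2⟩ := hx
    obtain ⟨Q, h3, h4⟩ := hy
    refine ⟨P + Q, h1.add h3, ?_⟩
    rw [map_add, map_add, h2, h4]
    ring
  | smul c x _ hx =>
    obtain ⟨P, h1, h2⟩ := hx
    refine ⟨MvPolynomial.C c * P, ?_, ?_⟩
    · have := (MvPolynomial.isHomogeneous_C (Fin 3) c).mul h1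
      rwa [zero_add] at this
    · rw [map_mul, h2, MvPolynomial.aeval_C, map_smul, Algebra.smul_def, Algebra.smul_def]
      ring

private theorem M_inv [CharZero k] {n : ℕ} {x : MvPolynomial (Fin 4) k} (hx : x ∈ M k n n)
    (hs : sw k x = x) :
    ∃ P : MvPolynomial (Fin 3) k, P.IsHomogeneous n ∧
      MvPolynomial.aeval (es (S₀ k) (T₀ k)) P = x := by
  obtain ⟨P, h1, h2⟩ := M_sym hx
  refine ⟨MvPolynomial.C (2⁻¹ : k) * P, ?_, ?_⟩
  · have := (MvPolynomial.isHomogeneous_C (Fin 3) (2⁻¹ : k)).mul h1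
    rwa [zero_add] at this
  · rw [map_mul, h2, MvPolynomial.aeval_C, hs, ← two_mul, ← mul_assoc]
    have h3 : algebraMap k (MvPolynomial (Fin 4) k) 2⁻¹ * 2 = 1 := by
      rw [← map_ofNat (algebraMap k (MvPolynomial (Fin 4) k)) 2, ← map_mul,
        inv_mul_cancel₀ two_ne_zero, map_one]
    rw [h3, one_mul]

/-! ### Change of the ring and exchange of the points -/

private theorem vg_nat {R K : Type} [CommRing R] [Algebra k R] [CommRing K] [Algebra k K]
    (ψ : R →ₐ[k] K) (f : Cf k) (S T : Fin 2 → R) (i : Fin 5) :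
    ψ (f.vg S T i) = f.vg (fun j => ψ (S j)) (fun j => ψ (T j)) i := by
  have h : ∀ i j, ψ (f.vc S T i j) = f.vc (fun j => ψ (S j)) (fun j => ψ (T j)) i j := by
    intro i j
    unfold Cf.vc mv
    simp only [map_sum, map_mul, map_pow, AlgHom.commutes]
  unfold Cf.vg dsc Cf.vq
  fin_cases i <;>
    simp only [Fin.zero_eta, Fin.mk_one, Fin.reduceFinMk, Matrix.cons_val, map_sub, map_add,
      map_mul, map_pow, map_ofNat, h]

private theorem Iq_nat {R K : Type} [CommRing R] [Algebra k R] [CommRing K] [Algebra k K]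
    (ψ : R →ₐ[k] K) (f : Cf k) (S T : Fin 2 → R) :
    ψ (Iq (f.vg S T)) = Iq (f.vg (fun j => ψ (S j)) (fun j => ψ (T j))) := by
  unfold Iq
  simp only [map_sub, map_add, map_mul, map_pow, map_ofNat, vg_nat]

private theorem Jq_nat {R K : Type} [CommRing R] [Algebra k R] [CommRing K] [Algebra k K]
    (ψ : R →ₐ[k] K) (f : Cf k) (S T : Fin 2 → R) :
    ψ (Jq (f.vg S T)) = Jq (f.vg (fun j => ψ (S j)) (fun j => ψ (T j))) := by
  unfold Jq
  simp only [map_sub, map_add, map_mul, map_pow, map_ofNat, vg_nat]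

private theorem vc_swap {K : Type} [CommRing K] [Algebra k K] (f : Cf k) {p q : k}
    (hs : ∀ a b i j : Fin 3, p ^ (i : ℕ) * q ^ (j : ℕ) * f b a i j =
      p * q * f a b (Fin.rev i) (Fin.rev j)) (S T : Fin 2 → K) (i j : Fin 3) :
    algebraMap k K p ^ (i : ℕ) * algebraMap k K q ^ (j : ℕ) * f.vc T S i j =
      algebraMap k K p * algebraMap k K q * f.vc S T (Fin.rev i) (Fin.rev j) := by
  unfold Cf.vc
  rw [Finset.sum_comm, Finset.mul_sum, Finset.mul_sum]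
  refine Finset.sum_congr rfl fun a _ => ?_
  rw [Finset.mul_sum, Finset.mul_sum]
  refine Finset.sum_congr rfl fun b _ => ?_
  have h := congrArg (algebraMap k K) (hs a b i j)
  simp only [map_mul, map_pow] at h
  linear_combination (mv S a * mv T b) * h

private theorem vg_swap {K : Type} [CommRing K] [Algebra k K] (f : Cf k) {p q : k} (hp : p ≠ 0)
    (hq : q ≠ 0) (hs : ∀ a b i j : Fin 3, p ^ (i : ℕ) * q ^ (j : ℕ) * f b a i j =
      p * q * f a b (Fin.rev i) (Fin.rev j)) (S T : Fin 2 → K) :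
    f.vg T S 0 = algebraMap k K p ^ 2 * f.vg S T 4 ∧ f.vg T S 1 = algebraMap k K p * f.vg S T 3 ∧
      f.vg T S 2 = f.vg S T 2 ∧ f.vg T S 3 = algebraMap k K p⁻¹ * f.vg S T 1 ∧
      f.vg T S 4 = algebraMap k K p⁻¹ ^ 2 * f.vg S T 0 := by
  have P1 : algebraMap k K p * algebraMap k K p⁻¹ = 1 := by
    rw [← map_mul, mul_inv_cancel₀ hp, map_one]
  have Q1 : algebraMap k K q * algebraMap k K q⁻¹ = 1 := by
    rw [← map_mul, mul_inv_cancel₀ hq, map_one]
  generalize hP : algebraMap k K p = P at *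
  generalize hQ : algebraMap k K q = Q at *
  generalize algebraMap k K p⁻¹ = Pi at *
  generalize algebraMap k K q⁻¹ = Qi at *
  have h : ∀ i j : Fin 3, P ^ (i : ℕ) * Q ^ (j : ℕ) * f.vc T S i j =
      P * Q * f.vc S T (Fin.rev i) (Fin.rev j) := by
    intro i j
    rw [← hP, ← hQ]
    exact vc_swap f hs S T i j
  have h00 : f.vc T S 0 0 = P * Q * f.vc S T 2 2 := by
    have h1 : P ^ 0 * Q ^ 0 * f.vc T S 0 0 = P * Q * f.vc S T 2 2 := h 0 0
    linear_combination h1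
  have h01 : f.vc T S 0 1 = P * f.vc S T 2 1 := by
    have h1 : P ^ 0 * Q ^ 1 * f.vc T S 0 1 = P * Q * f.vc S T 2 1 := h 0 1
    linear_combination Qi * h1 + (P * f.vc S T 2 1 - f.vc T S 0 1) * Q1
  have h02 : f.vc T S 0 2 = P * Qi * f.vc S T 2 0 := by
    have h1 : P ^ 0 * Q ^ 2 * f.vc T S 0 2 = P * Q * f.vc S T 2 0 := h 0 2
    linear_combination Qi ^ 2 * h1 +
      (P * Qi * f.vc S T 2 0 - (Q * Qi + 1) * f.vc T S 0 2) * Q1
  have h10 : f.vc T S 1 0 = Q * f.vc S T 1 2 := by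
    have h1 : P ^ 1 * Q ^ 0 * f.vc T S 1 0 = P * Q * f.vc S T 1 2 := h 1 0
    linear_combination Pi * h1 + (Q * f.vc S T 1 2 - f.vc T S 1 0) * P1
  have h11 : f.vc T S 1 1 = f.vc S T 1 1 := by
    have h1 : P ^ 1 * Q ^ 1 * f.vc T S 1 1 = P * Q * f.vc S T 1 1 := h 1 1
    linear_combination Pi * Qi * h1 +
      (f.vc S T 1 1 - f.vc T S 1 1) * (Q * Qi * P1 + Q1)
  have h12 : f.vc T S 1 2 = Qi * f.vc S T 1 0 := by
    have h1 : P ^ 1 * Q ^ 2 * f.vc T S 1 2 = P * Q * f.vc S T 1 0 := h 1 2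
    linear_combination Pi * Qi ^ 2 * h1 + Qi * f.vc S T 1 0 * (Q * Qi * P1 + Q1) -
      f.vc T S 1 2 * (Q ^ 2 * Qi ^ 2 * P1 + (Q * Qi + 1) * Q1)
  have h20 : f.vc T S 2 0 = Pi * Q * f.vc S T 0 2 := by
    have h1 : P ^ 2 * Q ^ 0 * f.vc T S 2 0 = P * Q * f.vc S T 0 2 := h 2 0
    linear_combination Pi ^ 2 * h1 +
      (Pi * Q * f.vc S T 0 2 - (P * Pi + 1) * f.vc T S 2 0) * P1
  have h21 : f.vc T S 2 1 = Pi * f.vc S T 0 1 := by
    have h1 : P ^ 2 * Q ^ 1 * f.vc T S 2 1 = P * Q * f.vc S T 0 1 := h 2 1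
    linear_combination Pi ^ 2 * Qi * h1 + Pi * f.vc S T 0 1 * (P * Pi * Q1 + P1) -
      f.vc T S 2 1 * (P ^ 2 * Pi ^ 2 * Q1 + (P * Pi + 1) * P1)
  have h22 : f.vc T S 2 2 = Pi * Qi * f.vc S T 0 0 := by
    have h1 : P ^ 2 * Q ^ 2 * f.vc T S 2 2 = P * Q * f.vc S T 0 0 := h 2 2
    linear_combination Pi ^ 2 * Qi ^ 2 * h1 + Pi * Qi * f.vc S T 0 0 * (P * Pi * Q1 + P1) -
      f.vc T S 2 2 * (P ^ 2 * Pi ^ 2 * (Q * Qi + 1) * Q1 + (P * Pi + 1) * P1)
  refine ⟨?_, ?_, ?_, ?_, ?_⟩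
  · rw [vg_e0, vg_e4, h00, h01, h02]
    linear_combination -4 * P ^ 2 * f.vc S T 2 0 * f.vc S T 2 2 * Q1
  · rw [vg_e1, vg_e3, h00, h01, h02, h10, h11, h12]
    linear_combination -4 * P * (f.vc S T 2 0 * f.vc S T 1 2 + f.vc S T 1 0 * f.vc S T 2 2) * Q1
  · rw [vg_e2, vg_e2, h00, h01, h02, h10, h11, h12, h20, h21, h22]
    linear_combination 2 * f.vc S T 0 1 * f.vc S T 2 1 * P1 -
      4 * (f.vc S T 2 0 * f.vc S T 0 2 + f.vc S T 0 0 * f.vc S T 2 2) * (P * Pi * Q1 + P1) -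
      4 * f.vc S T 1 0 * f.vc S T 1 2 * Q1
  · rw [vg_e3, vg_e1, h10, h11, h12, h20, h21, h22]
    linear_combination -4 * Pi * (f.vc S T 1 0 * f.vc S T 0 2 + f.vc S T 0 0 * f.vc S T 1 2) * Q1
  · rw [vg_e4, vg_e0, h20, h21, h22]
    linear_combination -4 * Pi ^ 2 * f.vc S T 0 0 * f.vc S T 0 2 * Q1

private theorem inv_swap {K : Type} [CommRing K] [Algebra k K] (f : Cf k) {p q : k} (hp : p ≠ 0)
    (hq : q ≠ 0) (hs : ∀ a b i j : Fin 3, p ^ (i : ℕ) * q ^ (j : ℕ) * f b a i j =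
      p * q * f a b (Fin.rev i) (Fin.rev j)) (S T : Fin 2 → K) :
    Iq (f.vg T S) = Iq (f.vg S T) ∧ Jq (f.vg T S) = Jq (f.vg S T) := by
  obtain ⟨h0, h1, h2, h3, h4⟩ := vg_swap f hp hq hs S T
  have P1 : algebraMap k K p * algebraMap k K p⁻¹ = 1 := by
    rw [← map_mul, mul_inv_cancel₀ hp, map_one]
  unfold Iq Jq
  rw [h0, h1, h2, h3, h4]
  generalize algebraMap k K p = P at P1
  generalize algebraMap k K p⁻¹ = Pi at P1
  generalize f.vg S T 0 = g0
  generalize f.vg S T 1 = g1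
  generalize f.vg S T 2 = g2
  generalize f.vg S T 3 = g3
  generalize f.vg S T 4 = g4
  constructor
  · linear_combination (12 * g0 * g4 * (P * Pi + 1) - 3 * g1 * g3) * P1
  · linear_combination (72 * g0 * g2 * g4 * (P * Pi + 1) + 9 * g1 * g2 * g3 -
      27 * (g0 * g3 ^ 2 + g4 * g1 ^ 2) * (P * Pi + 1)) * P1

private theorem sw_S₀ : (fun j => sw k (S₀ k j)) = T₀ k := by
  funext j
  fin_cases j <;> simp [sw, S₀, T₀]

private theorem sw_T₀ : (fun j => sw k (T₀ k j)) = S₀ k := by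
  funext j
  fin_cases j <;> simp [sw, S₀, T₀]

/-- The forms `I` and `J`, if they are symmetric. -/
theorem exists_sym_gen [CharZero k] (f : Cf k)
    (hinv : ∀ (K : Type) [CommRing K] [Algebra k K] (S T : Fin 2 → K),
      Iq (f.vg T S) = Iq (f.vg S T) ∧ Jq (f.vg T S) = Jq (f.vg S T)) :
    ∃ P Q : MvPolynomial (Fin 3) k, P.IsHomogeneous 8 ∧ Q.IsHomogeneous 12 ∧
      ∀ (K : Type) [CommRing K] [Algebra k K] (S T : Fin 2 → K),
        Iq (f.vg S T) = MvPolynomial.aeval (es S T) P ∧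
        Jq (f.vg S T) = MvPolynomial.aeval (es S T) Q := by
  obtain ⟨P, hP, eP⟩ := M_inv (M_Iq f) (by
    rw [Iq_nat, sw_S₀, sw_T₀]
    exact (hinv _ _ _).1)
  obtain ⟨Q, hQ, eQ⟩ := M_inv (M_Jq f) (by
    rw [Jq_nat, sw_S₀, sw_T₀]
    exact (hinv _ _ _).2)
  refine ⟨P, Q, hP, hQ, ?_⟩
  intro K _ _ S T
  let ψ : MvPolynomial (Fin 4) k →ₐ[k] K := MvPolynomial.aeval ![S 0, S 1, T 0, T 1]
  have hS : (fun j => ψ (S₀ k j)) = S := by
    funext j
    fin_cases j <;> simp [ψ, S₀]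
  have hT : (fun j => ψ (T₀ k j)) = T := by
    funext j
    fin_cases j <;> simp [ψ, T₀]
  have he : (fun j => ψ (es (S₀ k) (T₀ k) j)) = es S T := by
    rw [← hS, ← hT]
    funext j
    fin_cases j <;> simp [es]
  have hc : ∀ R : MvPolynomial (Fin 3) k, ψ (MvPolynomial.aeval (es (S₀ k) (T₀ k)) R) =
      MvPolynomial.aeval (es S T) R := by
    intro R
    rw [← he, ← MvPolynomial.comp_aeval]
    rfl
  constructor
  · have h := congrArg ψ eP
    rw [Iq_nat, hS, hT, hc] at h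
    exact h.symm
  · have h := congrArg ψ eQ
    rw [Jq_nat, hS, hT, hc] at h
    exact h.symm

/-- The forms `I` and `J` of bidegree `(8, 8)`, `(12, 12)` in `(S, T)` are symmetric, hence forms of
degree `8` and `12` in `es S T`. Proof. (1) General lemma: let `φ : MvPolynomial (Fin 4) k` (with
the variables `S 0, S 1, T 0, T 1`) have only monomials `d` with `d 0 + d 1 = d 2 + d 3 = n`, and
`rename` by the permutation `(0 2) (1 3)` fixes `φ`. Then `φ = aeval (es ![X 0, X 1] ![X 2, X 3]) P`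
for a homogeneous `P` of degree `n`: `2 φ` is the sum over the monomials of `coeff d φ` times
(monomial of `d` + monomial of the permuted `d`), and for `a + b = c + e = n` the polynomial
`S0 ^ a S1 ^ b T0 ^ c T1 ^ e + T0 ^ a T1 ^ b S0 ^ c S1 ^ e`, say `a ≤ c` (otherwise exchange), equals
`(S0 T0) ^ a (S1 T1) ^ e ((S1 T0) ^ (c - a) + (S0 T1) ^ (c - a))`, and the power sums `p_m` of
`α = S1 T0`, `β = S0 T1` are forms of degree `m` in `α + β = es 1`, `α β = es 0 * es 2`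
(`p_m = (α + β) p_(m - 1) - α β p_(m - 2)`, `p_0 = 2`). (2) Apply it to `Iq (f.vg S T)` for
`S = ![X 0, X 1]`, `T = ![X 2, X 3]` over `K = MvPolynomial (Fin 4) k`; the degrees follow from
`MvPolynomial.IsWeightedHomogeneous` with the weights `(1, 0), (1, 0), (0, 1), (0, 1)` in `ℕ × ℕ`:
`f.vc S T i j` has the weight `(2, 2)`, `f.vg S T i` has the weight `(4, 4)`. (3) Symmetry: by `hs`,
`f.vc T S i j` is `p ^ (1 - i) q ^ (1 - j)` times `f.vc S T (rev i) (rev j)`, so that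
`p ^ 2 * f.vg T S 4 = f.vg S T 0`, `p * f.vg T S 3 = f.vg S T 1`, `f.vg T S 2 = f.vg S T 2`,
`f.vg T S 1 = p * f.vg S T 3`, `f.vg T S 0 = p ^ 2 * f.vg S T 4` (or with `p⁻¹`; check), and `Iq`, `Jq` are the
same. (4) The identity over `MvPolynomial (Fin 4) k` gives the identity over all `K` by
`MvPolynomial.aeval ![S 0, S 1, T 0, T 1]`. -/
theorem exists_sym [CharZero k] (f : Cf k) {p q : k} (hp : p ≠ 0) (hq : q ≠ 0)
    (hs : ∀ a b i j : Fin 3, p ^ (i : ℕ) * q ^ (j : ℕ) * f b a i j =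
      p * q * f a b (Fin.rev i) (Fin.rev j)) :
    ∃ P Q : MvPolynomial (Fin 3) k, P.IsHomogeneous 8 ∧ Q.IsHomogeneous 12 ∧
      ∀ (K : Type) [CommRing K] [Algebra k K] (S T : Fin 2 → K),
        Iq (f.vg S T) = MvPolynomial.aeval (es S T) P ∧
        Jq (f.vg S T) = MvPolynomial.aeval (es S T) Q := by
  exact exists_sym_gen f fun _ _ _ S T => inv_swap f hp hq hs S T

end Pool.Agent.GOC
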