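import Pool.Agent.GOC.Img
import Pool.Agent.GOC.Sng
import Pool.Agent.GOC.Crv
import Pool.Agent.GOC.Sym
import Pool.Agent.GOC.SwpB
import Pool.Agent.GOC.Deg

/-!
# The exchange theorem
-/

set_option autoImplicit false
set_option linter.unusedSectionVars false

noncomputable section

namespace Pool.Agent.GOC

open Pool.Agent.ZCyc Pool.Agent.Dess Pool.Agent.GT Pool.Agent.TInc
open Pool.Agent.VFP (Om tt)
open Pool.Agent.HGF (fst snd vlo)

variable {k : Type} [Field k] [IsAlgClosed k] [CharZero k] {W : Type} [AddCommGroup W] [Module ℚ W]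
  {f : Cf k} {F : Option k → Option k → Option k → Option k → W} {p q : k}

/-- A class function which is invariant under the exchange is zero. -/
theorem inv_zero (h : DatV f F) (hp : p ≠ 0) (hq : q ≠ 0)
    (hsym : ∀ a b i j : Fin 3, p ^ (i : ℕ) * q ^ (j : ℕ) * f b a i j =
      p * q * f a b (Fin.rev i) (Fin.rev j))
    (hF : ∀ s t X Y, F t s (inv p X) (inv q Y) = F s t X Y)
    {S T X Y : Fin 2 → k} (hS : S ≠ 0) (hT : T ≠ 0) (hX : X ≠ 0) (hY : Y ≠ 0)
    (hV : f.OnV S T X Y) : FV F S T X Y = 0 := by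
  obtain ⟨y, hy, k1⟩ := hV.exists_y hY
  by_cases hy0 : y = 0
  · rw [hy0] at k1
    exact zero_of_y h hS hT hX k1
  by_cases hD : Dq (f.vg S T) = 0
  · exact sing h hS hT hX hY hV hD
  by_cases hTq : Tq (f.vg S T) X = 0
  · exact tors h hS hT hX hD k1 hy hy0 hTq
  obtain ⟨P, Q, hP, hQ, hPQ⟩ := exists_sym f hp hq hsym
  obtain ⟨x₀, hx₀⟩ : ∃ x₀, x₀ = 3 * Hq (f.vg S T) X / (4 * y ^ 2) := ⟨_, rfl⟩
  obtain ⟨w₀, hw₀⟩ : ∃ w₀, w₀ = 27 * Tq (f.vg S T) X / (8 * y ^ 3) := ⟨_, rfl⟩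
  have hw : w₀ ≠ 0 := by
    rw [hw₀]
    exact div_ne_zero (mul_ne_zero (by norm_num) hTq)
      (mul_ne_zero (by norm_num) (pow_ne_zero 3 hy0))
  have i1 : Img (f.vg S T) X y x₀ w₀ := by
    refine ⟨hy, ?_, ?_⟩
    · rw [hx₀]
      field_simp
    · rw [hw₀]
      field_simp
  obtain ⟨hI, hJ⟩ := hPQ k S T
  have heq : x₀ ^ 3 - 27 * MvPolynomial.aeval (es S T) P * x₀ -
      27 * MvPolynomial.aeval (es S T) Q = w₀ ^ 2 := by
    rw [← hI, ← hJ]
    have hs := syz (f.vg S T) X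
    rw [← hy] at hs
    have e1 : Hq (f.vg S T) X = 4 * x₀ * y ^ 2 / 3 := by
      rw [← i1.one]
      field_simp
    have e2 : Tq (f.vg S T) X = 8 * w₀ * y ^ 3 / 27 := by
      rw [← i1.two]
      field_simp
    rw [e1, e2] at hs
    field_simp at hs
    linear_combination -hs / 1728
  have hD' : 4 * MvPolynomial.aeval (es S T) P ^ 3 - MvPolynomial.aeval (es S T) Q ^ 2 ≠ 0 := by
    rw [← hI, ← hJ]
    exact hD
  obtain ⟨E, x, γ, c₀, c₁, E₁, hE1, hDE1, hcur, hv0, hv1⟩ :=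
    exists_curve hP hQ (es_ne hS hT) hD' hw heq
  obtain ⟨V₀, hV₀⟩ := ZCyc.exists_place (k := k) VFP.tt_transc c₀
  obtain ⟨a1, a2, a3⟩ := hv0 V₀ hV₀
  have hz : V₀.At (0 : Om k) (0 : k) := by
    have h3 := Place.at_const (v := V₀) (0 : k)
    rwa [map_zero] at h3
  have hγ : γ ≠ 0 := by
    rintro rfl
    exact hw (a3.unique hz)
  have hE0 : E ≠ 0 := by
    rintro rfl
    apply es_ne hS hT
    funext i
    exact (a1 i).unique hz
  obtain ⟨S', T', hST⟩ := exists_es E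
  have hS' : S' ≠ 0 := by
    rintro rfl
    apply hE0
    rw [← hST]
    funext i
    fin_cases i <;> simp [es]
  have hT' : T' ≠ 0 := by
    rintro rfl
    apply hE0
    rw [← hST]
    funext i
    fin_cases i <;> simp [es]
  obtain ⟨hI', hJ'⟩ := hPQ (Om k) S' T'
  rw [hST] at hI' hJ'
  have hDom : Dq (f.vg S' T') ≠ 0 := by
    intro h0
    apply hD'
    have e1 := ((at_num 4).mul ((at_aeval P a1).pow 3)).sub ((at_aeval Q a1).pow 2)
    unfold Dq at h0
    rw [hI', hJ'] at h0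
    rw [h0] at e1
    exact e1.unique hz
  obtain ⟨X', y', Y', hX', hy', kK, m1, m2⟩ := exists_pnt f hDom hγ (by
    rw [hI', hJ']
    exact hcur)
  have i2 : Img (f.vg S' T') X' y' x γ := ⟨hy', m1, m2⟩
  have hb := bridge (n := 1) (c₀ := c₀) (c₁ := c₁) (C₀ := FV F S T X Y) (C₁ := 0) h.cf
    (S := fun _ => S') (T := fun _ => T') (X := fun _ => X')
    (Y := fun _ => Y') (fun _ => hS') (fun _ => hT') (fun _ => hX')
    (fun _ => kK.ne) (fun _ => kK.onV) ?_ ?_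
  · exact hb
  · intro v hv
    obtain ⟨b1, b2, b3⟩ := hv0 v hv
    obtain ⟨a, s, s1⟩ := exists_sp v hS'
    obtain ⟨b, t, t1⟩ := exists_sp v hT'
    obtain ⟨d, x', x1⟩ := exists_sp v hX'
    obtain ⟨e, w, y₁, w1, u1, -, k2⟩ := lim s1 t1 x1 hy' kK
    rw [Fin.sum_univ_one, s1.vlo, t1.vlo, x1.vlo, w1.vlo]
    show FV F s t x' w = _
    have g1 := at_es s1.sp t1.sp
    rw [es_smul, hST] at g1
    have g2 : VA v (fun i => 1 * E i) (es S T) := by
      intro i
      show v.At (1 * E i) _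
      rw [one_mul]
      exact b1 i
    obtain ⟨c, hc0, hc, hcE⟩ := ratio g1 g2 (es_ne s1.z0 t1.z0) (es_ne hS hT)
    rw [div_one] at hc
    have g3 := img_lim s1.sp t1.sp x1.sp u1 hc b2 b3 i2
    have hcmn : ∀ {μ ν : k} {A B : Fin 2 → k}, A ≠ 0 → B ≠ 0 → es A B = es S T →
        s = (fun i => μ * A i) → t = (fun i => ν * B i) → c = μ * ν := by
      intro μ ν A B hA hB hAB h1 h2
      rw [h1, h2, es_smul, hAB] at hcE
      obtain ⟨i, hi⟩ : ∃ i, es S T i ≠ 0 := by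
        by_contra h5
        push Not at h5
        exact es_ne hS hT (funext h5)
      exact (mul_right_cancel₀ hi (congrFun hcE i)).symm
    rcases es_unique s1.z0 t1.z0 hS hT hcE with ⟨μ, ν, h1, h2⟩ | ⟨μ, ν, h1, h2⟩
    · obtain ⟨k3, i3⟩ := ker_scale s1.z0 t1.z0 h1 h2 (hcmn hS hT rfl h1 h2) k2 g3
      rw [img_eq h hS hT hX x1.z0 hD k1 k3 hw i1 i3]
      exact FV_congr (c := 1) (d := 1) s1.z0 t1.z0 x1.z0 k2.ne h1 h2 (by simp) (by simp)
    · obtain ⟨k3, i3⟩ := ker_scale s1.z0 t1.z0 h1 h2 (hcmn hT hS (es_swap S T) h1 h2) k2 g3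
      obtain ⟨j1, j2, j3, -, -⟩ := quart_swp hp hq hsym T S x'
      have k4 := ker_swp hp hq hsym k3
      have hpa : algebraMap k k p = p := rfl
      have hqa : algebraMap k k q = q := rfl
      rw [hpa] at j1 j2 j3
      rw [hpa, hqa] at k4
      have i4 : Img (f.vg S T) (swp p x') (-(p * (y₁ / c ^ 2))) x₀ w₀ := by
        refine ⟨?_, ?_, ?_⟩
        · rw [j1, ← i3.sq]
          ring
        · rw [j2]
          linear_combination p ^ 2 * i3.one
        · rw [j3]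
          linear_combination (-p ^ 3) * i3.two
      rw [img_eq h hS hT hX (swp_ne hp x1.z0) hD k1 k4 hw i1 i4]
      have e1 : FV F S T (swp p x') (swp q w) = FV F T S x' w := by
        unfold FV
        rw [po_swp hp x1.z0, po_swp hq k2.ne]
        exact hF _ _ _ _
      rw [e1]
      exact FV_congr (c := 1) (d := 1) s1.z0 t1.z0 x1.z0 k2.ne h1 h2 (by simp) (by simp)
  · intro v hv
    obtain ⟨e', he'⟩ := hv1 v hv
    obtain ⟨a, s, s1⟩ := exists_sp v hS'
    obtain ⟨b, t, t1⟩ := exists_sp v hT'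
    obtain ⟨d, x', x1⟩ := exists_sp v hX'
    obtain ⟨e, w, y₁, w1, u1, -, k2⟩ := lim s1 t1 x1 hy' kK
    rw [Fin.sum_univ_one, s1.vlo, t1.vlo, x1.vlo, w1.vlo]
    show FV F s t x' w = _
    apply sing h s1.z0 t1.z0 x1.z0 k2.ne k2.onV
    have g1 := at_es s1.sp t1.sp
    rw [es_smul, hST] at g1
    obtain ⟨c, -, -, hcE⟩ := ratio g1 he' (es_ne s1.z0 t1.z0) hE1
    obtain ⟨hI2, hJ2⟩ := hPQ k s t
    unfold Dq
    rw [hI2, hJ2, hcE, aeval_smul hP, aeval_smul hQ]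
    linear_combination c ^ 24 * hDE1

/-- The exchange theorem for forms `f ≠ 0`, without a condition on the boundary. -/
theorem core_ne (hf : f ≠ 0) (hp : p ≠ 0) (hq : q ≠ 0)
    (hsym : ∀ a b i j : Fin 3, p ^ (i : ℕ) * q ^ (j : ℕ) * f b a i j =
      p * q * f a b (Fin.rev i) (Fin.rev j)) (hcf : f.IsCF F)
    (hb : ∀ s t : Option k, Bar (f.at s t) (F s t)) : Concl f p q F := by
  intro s t X Y hV
  have h1 := inv_zero (datV_of_ne hf (cf_dbl hp hq hsym hcf) (bar_dbl hp hq hsym hb)) hp hq hsym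
    (dbl_swap hp hq) (vo_ne s) (vo_ne t) (vo_ne X) (vo_ne Y) ((val_iff s t X Y).1 hV)
  unfold FV at h1
  rw [po_vo, po_vo, po_vo, po_vo] at h1
  exact h1

/-- **The exchange theorem.** -/
theorem core (h : Dat f p q F) : Concl f p q F := by
  intro s t X Y hV
  have h1 := inv_zero h.dbl.toV h.p0 h.q0 h.sym (dbl_swap h.p0 h.q0) (vo_ne s) (vo_ne t) (vo_ne X) (vo_ne Y)
    ((val_iff s t X Y).1 hV)
  unfold FV at h1
  rw [po_vo, po_vo, po_vo, po_vo] at h1
  exact h1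

end Pool.Agent.GOC
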