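import Pool.Agent.GOC.LmE
import Pool.Agent.GOC.Crv

/-!
# Two points with the same image for the two projections
-/

set_option autoImplicit false
set_option linter.unusedSectionVars false

noncomputable section

namespace Pool.Agent.GOC

open Pool.Agent.ZCyc Pool.Agent.Dess Pool.Agent.GT Pool.Agent.TInc
open Pool.Agent.VFP (Om tt)
open Pool.Agent.HGF (fst snd vlo)

section other

variable {k : Type} [Field k] [IsAlgClosed k] [CharZero k]

theorem pl_hcf3 {K : Type} [CommRing K] (g : Fin 5 → K) (x y : Fin 2 → K) :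
    dt x y ^ 2 * pl (hcf g) x y 3 = 4 * (pl g x y 3 * pl g x y 2 - 6 * pl g x y 4 * pl g x y 1) := by
  simp only [pl, hcf, dt, Gq, Matrix.cons_val]
  ring

/-- Another point with the same value of `3 H / (4 G)`. -/
theorem exists_other {g : Fin 5 → k} {X : Fin 2 → k} {y x₀ w₀ : k} (hX : X ≠ 0) (hy : y ≠ 0)
    (hw : w₀ ≠ 0) (i : Img g X y x₀ w₀) :
    ∃ X' : Fin 2 → k, dt X X' ≠ 0 ∧ 3 * Hq g X' = 4 * x₀ * Gq g X' := by
  obtain ⟨U, hU⟩ := exists_dt hX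
  obtain ⟨Q, hQ⟩ : ∃ Q : Fin 5 → k, Q = fun i => 3 * hcf g i - 4 * x₀ * g i := ⟨_, rfl⟩
  have hGQ : ∀ x, Gq Q x = 3 * Hq g x - 4 * x₀ * Gq g x := by
    intro x
    rw [hQ]
    simp only [Gq, Hq, hcf, Matrix.cons_val]
    ring
  obtain ⟨P, hP⟩ : ∃ P, P = pl Q X U := ⟨_, rfl⟩
  have hP4 : P 4 = 0 := by
    rw [hP, pl4, hGQ]
    linear_combination i.one + 4 * x₀ * i.sq
  have hP3 : P 3 = 3 * pl (hcf g) X U 3 - 4 * x₀ * pl g X U 3 := by
    rw [hP, hQ]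
    simp only [pl, Matrix.cons_val]
    ring
  have h1 := pl_hcf3 g X U
  have h2 := Hq_left g X U
  have h3 := Tq_left g X U
  rw [hU] at h1 h2 h3
  have h4 : pl g X U 4 = y ^ 2 := by
    rw [pl4, i.sq]
  rw [h4] at h1 h2 h3
  have hP3' : P 3 ≠ 0 := by
    intro h0
    have hT : Tq g X ≠ 0 := by
      intro h5
      have h6 := i.two
      rw [h5, mul_zero] at h6
      have h7 : 8 * w₀ * y ^ 3 ≠ 0 :=
        mul_ne_zero (mul_ne_zero (by norm_num) hw) (pow_ne_zero 3 hy)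
      exact h7 h6.symm
    apply hT
    apply (mul_eq_zero.1 (?_ : 9 * Tq g X = 0)).resolve_left (by norm_num)
    rw [hP3] at h0
    have h5 := i.one
    linear_combination 9 * h3 - y ^ 2 * h0 + 3 * y ^ 2 * h1 + pl g X U 3 * h5 -
      3 * pl g X U 3 * h2
  obtain ⟨r, hr⟩ : ∃ r : k, P 3 * r ^ 3 + P 2 * r ^ 2 + P 1 * r + P 0 = 0 := by
    obtain ⟨r, hr⟩ := IsAlgClosed.exists_root
      (Polynomial.C (P 3) * Polynomial.X ^ 3 + Polynomial.C (P 2) * Polynomial.X ^ 2 +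
        Polynomial.C (P 1) * Polynomial.X + Polynomial.C (P 0))
      (by rw [Polynomial.degree_cubic hP3']; norm_num)
    refine ⟨r, ?_⟩
    simpa [Polynomial.IsRoot] using hr
  refine ⟨fun i => r * X i + 1 * U i, ?_, ?_⟩
  · have h5 : dt X (fun i => r * X i + 1 * U i) = dt X U := by
      unfold dt
      ring
    rw [h5, hU]
    exact one_ne_zero
  · have h5 : Gq Q (fun i => r * X i + 1 * U i) = 0 := by
      rw [Gq_basis, ← hP]
      simp only [Gq, Matrix.cons_val]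
      rw [hP4]
      linear_combination hr
    rw [hGQ] at h5
    exact sub_eq_zero.1 h5

end other

variable {k : Type} [Field k] [IsAlgClosed k] [CharZero k] {W : Type} [AddCommGroup W] [Module ℚ W]
  {f : Cf k} {F : Option k → Option k → Option k → Option k → W}

/-- two different points with the same coordinate `X` -/
theorem bar_two (h : DatV f F) {S T X Y Y' : Fin 2 → k} {y : k} (hS : S ≠ 0) (hT : T ≠ 0)
    (hX : X ≠ 0) (hy : y ≠ 0) (hsq : y ^ 2 = Gq (f.vg S T) X) (k1 : f.Ker S T X y Y)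
    (hY' : Y' ≠ 0) (hV : f.OnV S T X Y') (hd : dt Y Y' ≠ 0) :
    FV F S T X Y + FV F S T X Y' = 0 := by
  obtain ⟨y', hy', k2⟩ := hV.exists_y hY'
  have h1 : (y' - y) * (y' + y) = 0 := by
    linear_combination hy' - hsq
  rcases mul_eq_zero.1 h1 with h2 | h2
  · exfalso
    rw [sub_eq_zero.1 h2] at k2
    obtain ⟨c, hc⟩ := k1.unique hy k2
    apply hd
    rw [hc]
    unfold dt
    ring
  · rw [eq_neg_of_add_eq_zero_left h2] at k2
    exact bar' h hS hT hX hy k1 k2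

theorem onV_sym (hs : ∀ a b i j : Fin 3, f a b i j = f b a j i) {S T X Y : Fin 2 → k} :
    f.OnV S T X Y ↔ f.OnV T S Y X := by
  have h1 : ∀ j, f.co T S Y j = Qv (fun i => f.vc S T j i) Y := by
    intro j
    rw [co_eq, vc_sym hs]
    rfl
  have h2 : ∀ j, f.co S T X j = Qv (fun i => f.vc S T i j) X := fun j => rfl
  unfold Cf.OnV
  rw [h1, h1, h1, h2, h2, h2]
  have e : Qv (fun i => f.vc S T i 2) X * Y 0 ^ 2 + Qv (fun i => f.vc S T i 1) X * (Y 0 * Y 1) +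
      Qv (fun i => f.vc S T i 0) X * Y 1 ^ 2 = Qv (fun i => f.vc S T 2 i) Y * X 0 ^ 2 +
      Qv (fun i => f.vc S T 1 i) Y * (X 0 * X 1) + Qv (fun i => f.vc S T 0 i) Y * X 1 ^ 2 := by
    simp only [Qv]
    ring
  rw [e]

/-- **Lemma B, different points.** -/
theorem lmB1 (h : DatV f F) (h' : DatV f fun s t X Y => F t s Y X)
    (hs : ∀ a b i j : Fin 3, f a b i j = f b a j i) {S T X₁ X₂ Y₁ Y₂ : Fin 2 → k}
    {y₁ y₂ x₀ w₀ : k} (hS : S ≠ 0) (hT : T ≠ 0) (hX1 : X₁ ≠ 0) (hY2 : Y₂ ≠ 0)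
    (hne : dt X₁ X₂ ≠ 0 ∨ dt Y₁ Y₂ ≠ 0)
    (hD : Dq (f.vg S T) ≠ 0) (hw : w₀ ≠ 0) (k1 : f.Ker S T X₁ y₁ Y₁)
    (i1 : Img (f.vg S T) X₁ y₁ x₀ w₀) (k2 : f.Ker T S Y₂ y₂ X₂)
    (i2 : Img (f.vg T S) Y₂ y₂ x₀ w₀) : FV F S T X₁ Y₁ + FV F S T X₂ Y₂ = 0 := by
  have hD' : Dq (f.vg T S) ≠ 0 := by
    have e1 : f.vg T S = dY (tr (f.vc S T)) := by
      rw [← vc_sym hs]
      rfl
    rw [e1, Dq_tr]
    exact hD
  have hy1 := img_ne hD hX1 i1
  have hy2 := img_ne hD' hY2 i2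
  by_cases hX : dt X₁ X₂ = 0
  · -- the same coordinate `X`
    have hY : dt Y₁ Y₂ ≠ 0 := hne.resolve_left (fun h0 => h0 hX)
    obtain ⟨c, hc⟩ := dt_zero hX1 hX
    have hc0 := smul_ne k2.ne hc
    have hV : f.OnV S T X₁ Y₂ := by
      have h1 := (onV_sym hs).2 k2.onV
      rw [hc] at h1
      have h2 := (onV_smul (f := f) (S := S) (T := T) (X := X₁) (Y := Y₂) (c := 1) (d := 1)
        (r := c) (e := 1) one_ne_zero one_ne_zero hc0 one_ne_zero).1 (by simpa using h1)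
      exact h2
    have h3 := bar_two h hS hT hX1 hy1 i1.sq k1 hY2 hV hY
    have h4 : FV F S T X₂ Y₂ = FV F S T X₁ Y₂ :=
      FV_congr (a := 1) (b := 1) (c := c) (d := 1) hS hT k2.ne hY2 (by simp) (by simp) hc (by simp)
    rw [h4]
    exact h3
  by_cases hY : dt Y₁ Y₂ = 0
  · -- the same coordinate `Y`
    have hY21 : dt Y₂ Y₁ = 0 := by
      unfold dt at hY ⊢
      linear_combination -hY
    obtain ⟨c, hc⟩ := dt_zero hY2 hY21
    have hc0 := smul_ne k1.ne hc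
    have hV : f.OnV T S Y₂ X₁ := by
      have h1 := (onV_sym hs).1 k1.onV
      rw [hc] at h1
      have h2 := (onV_smul (f := f) (S := T) (T := S) (X := Y₂) (Y := X₁) (c := 1) (d := 1)
        (r := c) (e := 1) one_ne_zero one_ne_zero hc0 one_ne_zero).1 (by simpa using h1)
      exact h2
    have hX' : dt X₂ X₁ ≠ 0 := by
      intro h0
      apply hX
      unfold dt at h0 ⊢
      linear_combination -h0
    have h3 := bar_two h' hT hS hY2 hy2 i2.sq k2 hX1 hV hX'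
    have h4 : FV F S T X₁ Y₁ = FV F S T X₁ Y₂ :=
      FV_congr (a := 1) (b := 1) (c := 1) (d := c) hS hT hX1 k1.ne (by simp) (by simp) (by simp) hc
    rw [h4, add_comm]
    exact h3
  exact lmB h h' hs hS hT hX hY hD hw k1 i1 k2 i2

/-- **Lemma B.** -/
theorem lmB2 (h : DatV f F) (h' : DatV f fun s t X Y => F t s Y X)
    (hs : ∀ a b i j : Fin 3, f a b i j = f b a j i) {S T X₁ X₂ Y₁ Y₂ : Fin 2 → k}
    {y₁ y₂ x₀ w₀ : k} (hS : S ≠ 0) (hT : T ≠ 0) (hX1 : X₁ ≠ 0) (hY2 : Y₂ ≠ 0)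
    (hD : Dq (f.vg S T) ≠ 0) (hw : w₀ ≠ 0)
    (hsy : x₀ ^ 3 - 27 * Iq (f.vg S T) * x₀ - 27 * Jq (f.vg S T) = w₀ ^ 2)
    (k1 : f.Ker S T X₁ y₁ Y₁)
    (i1 : Img (f.vg S T) X₁ y₁ x₀ w₀) (k2 : f.Ker T S Y₂ y₂ X₂)
    (i2 : Img (f.vg T S) Y₂ y₂ x₀ w₀) : FV F S T X₁ Y₁ + FV F S T X₂ Y₂ = 0 := by
  by_cases hne : dt X₁ X₂ ≠ 0 ∨ dt Y₁ Y₂ ≠ 0
  · exact lmB1 h h' hs hS hT hX1 hY2 hne hD hw k1 i1 k2 i2
  push Not at hne
  have hy1 := img_ne hD hX1 i1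
  obtain ⟨X₃, hd, h3⟩ := exists_other hX1 hy1 hw i1
  have hX3 : X₃ ≠ 0 := by
    rintro rfl
    apply hd
    simp [dt]
  obtain ⟨y₃, Y₃, a1, a2, a3, a4⟩ := pnt_of f hD hX3 hw hsy h3
  have i3 : Img (f.vg S T) X₃ y₃ x₀ w₀ := ⟨a1, a3, a4⟩
  rw [img_eq h hS hT hX1 hX3 hD k1 a2 hw i1 i3]
  refine lmB1 h h' hs hS hT hX3 hY2 (Or.inl ?_) hD hw a2 i3 k2 i2
  obtain ⟨c, hc⟩ := dt_zero hX1 hne.1
  have hc0 := smul_ne k2.ne hc
  rw [hc]
  intro h0
  apply hd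
  apply (mul_eq_zero.1 (?_ : c * dt X₁ X₃ = 0)).resolve_left hc0
  unfold dt at h0 ⊢
  linear_combination -h0

end Pool.Agent.GOC
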