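import Pool.Agent.GOC.Defs2
import Pool.Agent.GOC.LmF
import Pool.Agent.GOC.Sng
import Pool.Agent.GOC.Sym

/-!
# The second exchange theorem
-/

set_option autoImplicit false
set_option linter.unusedSectionVars false

noncomputable section

namespace Pool.Agent.GOC

open Pool.Agent.ZCyc Pool.Agent.Dess Pool.Agent.GT Pool.Agent.TInc
open Pool.Agent.VFP (Om tt)
open Pool.Agent.HGF (fst snd vlo)

variable {k : Type} [Field k] [IsAlgClosed k] [CharZero k] {W : Type} [AddCommGroup W] [Module ℚ W]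
  {f : Cf k} {F : Option k → Option k → Option k → Option k → W}

/-- the invariants are symmetric -/
theorem exists_sym2 (hs : ∀ a b i j : Fin 3, f a b i j = f b a j i) :
    ∃ P Q : MvPolynomial (Fin 3) k, P.IsHomogeneous 8 ∧ Q.IsHomogeneous 12 ∧
      ∀ (K : Type) [CommRing K] [Algebra k K] (S T : Fin 2 → K),
        Iq (f.vg S T) = MvPolynomial.aeval (es S T) P ∧
        Jq (f.vg S T) = MvPolynomial.aeval (es S T) Q := by
  apply exists_sym_gen f
  intro K _ _ S T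
  have h1 : f.vg S T = dY (f.vc S T) := rfl
  have h2 : f.vg T S = dY (tr (f.vc S T)) := by
    rw [← vc_sym hs]
    rfl
  rw [h1, h2]
  exact ⟨Iq_tr _, Jq_tr _⟩

/-- A class function which changes its sign under the exchange is zero. -/
theorem anti_zero (h : DatV f F) (h' : DatV f fun s t X Y => F t s Y X)
    (hF : ∀ s t X Y, F t s Y X = -F s t X Y) (hs : ∀ a b i j : Fin 3, f a b i j = f b a j i)
    {S T X Y : Fin 2 → k} (hS : S ≠ 0) (hT : T ≠ 0) (hX : X ≠ 0) (hY : Y ≠ 0)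
    (hV : f.OnV S T X Y) : FV F S T X Y = 0 := by
  obtain ⟨y, hy, k1⟩ := hV.exists_y hY
  by_cases hy0 : y = 0
  · rw [hy0] at k1
    exact zero_of_y h hS hT hX k1
  by_cases hD : Dq (f.vg S T) = 0
  · exact sing h hS hT hX hY hV hD
  by_cases hTq : Tq (f.vg S T) X = 0
  · exact tors h hS hT hX hD k1 hy hy0 hTq
  obtain ⟨P, Q, hP, hQ, hPQ⟩ := exists_sym2 hs
  obtain ⟨x₀, hx₀⟩ : ∃ x₀, x₀ = 3 * Hq (f.vg S T) X / (4 * y ^ 2) := ⟨_, rfl⟩
  obtain ⟨w₀, hw₀⟩ : ∃ w₀, w₀ = 27 * Tq (f.vg S T) X / (8 * y ^ 3) := ⟨_, rfl⟩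
  have hw : w₀ ≠ 0 := by
    rw [hw₀]
    exact div_ne_zero (mul_ne_zero (by norm_num) hTq)
      (mul_ne_zero (by norm_num) (pow_ne_zero 3 hy0))
  have i1 : Img (f.vg S T) X y x₀ w₀ := by
    refine ⟨hy, ?_, ?_⟩
    · rw [hx₀]
      field_simp
    · rw [hw₀]
      field_simp
  obtain ⟨hI, hJ⟩ := hPQ k S T
  have heq' : x₀ ^ 3 - 27 * Iq (f.vg S T) * x₀ - 27 * Jq (f.vg S T) = w₀ ^ 2 := by
    have hs := syz (f.vg S T) X
    rw [← hy] at hs
    have e1 : Hq (f.vg S T) X = 4 * x₀ * y ^ 2 / 3 := by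
      rw [← i1.one]
      field_simp
    have e2 : Tq (f.vg S T) X = 8 * w₀ * y ^ 3 / 27 := by
      rw [← i1.two]
      field_simp
    rw [e1, e2] at hs
    field_simp at hs
    linear_combination -hs / 1728
  have heq : x₀ ^ 3 - 27 * MvPolynomial.aeval (es S T) P * x₀ -
      27 * MvPolynomial.aeval (es S T) Q = w₀ ^ 2 := by
    rw [← hI, ← hJ]
    exact heq'
  have hD' : 4 * MvPolynomial.aeval (es S T) P ^ 3 - MvPolynomial.aeval (es S T) Q ^ 2 ≠ 0 := by
    rw [← hI, ← hJ]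
    exact hD
  obtain ⟨E, x, γ, c₀, c₁, E₁, hE1, hDE1, hcur, hv0, hv1⟩ :=
    exists_curve hP hQ (es_ne hS hT) hD' hw heq
  obtain ⟨V₀, hV₀⟩ := ZCyc.exists_place (k := k) VFP.tt_transc c₀
  obtain ⟨a1, a2, a3⟩ := hv0 V₀ hV₀
  have hz : V₀.At (0 : Om k) (0 : k) := by
    have h3 := Place.at_const (v := V₀) (0 : k)
    rwa [map_zero] at h3
  have hγ : γ ≠ 0 := by
    rintro rfl
    exact hw (a3.unique hz)
  have hE0 : E ≠ 0 := by
    rintro rfl
    apply es_ne hS hT
    funext i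
    exact (a1 i).unique hz
  obtain ⟨S', T', hST⟩ := exists_es E
  have hS' : S' ≠ 0 := by
    rintro rfl
    apply hE0
    rw [← hST]
    funext i
    fin_cases i <;> simp [es]
  have hT' : T' ≠ 0 := by
    rintro rfl
    apply hE0
    rw [← hST]
    funext i
    fin_cases i <;> simp [es]
  obtain ⟨hI', hJ'⟩ := hPQ (Om k) S' T'
  rw [hST] at hI' hJ'
  have hDom : Dq (f.vg S' T') ≠ 0 := by
    intro h0
    apply hD'
    have e1 := ((at_num 4).mul ((at_aeval P a1).pow 3)).sub ((at_aeval Q a1).pow 2)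
    unfold Dq at h0
    rw [hI', hJ'] at h0
    rw [h0] at e1
    exact e1.unique hz
  obtain ⟨X', y', Y', hX', hy', kK, m1, m2⟩ := exists_pnt f hDom hγ (by
    rw [hI', hJ']
    exact hcur)
  have i2 : Img (f.vg S' T') X' y' x γ := ⟨hy', m1, m2⟩
  refine bridge (n := 1) (c₀ := c₀) (c₁ := c₁) (C₀ := FV F S T X Y) (C₁ := 0) h.cf
    (S := fun _ => S') (T := fun _ => T') (X := fun _ => X')
    (Y := fun _ => Y') (fun _ => hS') (fun _ => hT') (fun _ => hX')
    (fun _ => kK.ne) (fun _ => kK.onV) ?_ ?_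
  · intro v hv
    obtain ⟨b1, b2, b3⟩ := hv0 v hv
    obtain ⟨a, s, s1⟩ := exists_sp v hS'
    obtain ⟨b, t, t1⟩ := exists_sp v hT'
    obtain ⟨d, x', x1⟩ := exists_sp v hX'
    obtain ⟨e, w, y₁, w1, u1, -, k2⟩ := lim s1 t1 x1 hy' kK
    rw [Fin.sum_univ_one, s1.vlo, t1.vlo, x1.vlo, w1.vlo]
    show FV F s t x' w = _
    have g1 := at_es s1.sp t1.sp
    rw [es_smul, hST] at g1
    have g2 : VA v (fun i => 1 * E i) (es S T) := by
      intro i
      show v.At (1 * E i) _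
      rw [one_mul]
      exact b1 i
    obtain ⟨c, hc0, hc, hcE⟩ := ratio g1 g2 (es_ne s1.z0 t1.z0) (es_ne hS hT)
    rw [div_one] at hc
    have g3 := img_lim s1.sp t1.sp x1.sp u1 hc b2 b3 i2
    have hcmn : ∀ {μ ν : k} {A B : Fin 2 → k}, A ≠ 0 → B ≠ 0 → es A B = es S T →
        s = (fun i => μ * A i) → t = (fun i => ν * B i) → c = μ * ν := by
      intro μ ν A B hA hB hAB h1 h2
      rw [h1, h2, es_smul, hAB] at hcE
      obtain ⟨i, hi⟩ : ∃ i, es S T i ≠ 0 := by
        by_contra h5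
        push Not at h5
        exact es_ne hS hT (funext h5)
      exact (mul_right_cancel₀ hi (congrFun hcE i)).symm
    rcases es_unique s1.z0 t1.z0 hS hT hcE with ⟨μ, ν, h1, h2⟩ | ⟨μ, ν, h1, h2⟩
    · obtain ⟨k3, i3⟩ := ker_scale s1.z0 t1.z0 h1 h2 (hcmn hS hT rfl h1 h2) k2 g3
      rw [img_eq h hS hT hX x1.z0 hD k1 k3 hw i1 i3]
      exact FV_congr (c := 1) (d := 1) s1.z0 t1.z0 x1.z0 k2.ne h1 h2 (by simp) (by simp)
    · obtain ⟨k3, i3⟩ := ker_scale s1.z0 t1.z0 h1 h2 (hcmn hT hS (es_swap S T) h1 h2) k2 g3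
      have h5 := lmB2 h h' hs hS hT hX x1.z0 hD hw heq' k1 i1 k3 i3
      have h6 : FV F T S x' w = -FV F S T w x' := hF _ _ _ _
      have h7 : FV F s t x' w = FV F T S x' w :=
        FV_congr (c := 1) (d := 1) s1.z0 t1.z0 x1.z0 k2.ne h1 h2 (by simp) (by simp)
      rw [h7, h6]
      exact (eq_neg_of_add_eq_zero_left h5).symm
  · intro v hv
    obtain ⟨e', he'⟩ := hv1 v hv
    obtain ⟨a, s, s1⟩ := exists_sp v hS'
    obtain ⟨b, t, t1⟩ := exists_sp v hT'
    obtain ⟨d, x', x1⟩ := exists_sp v hX'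
    obtain ⟨e, w, y₁, w1, u1, -, k2⟩ := lim s1 t1 x1 hy' kK
    rw [Fin.sum_univ_one, s1.vlo, t1.vlo, x1.vlo, w1.vlo]
    show FV F s t x' w = _
    apply sing h s1.z0 t1.z0 x1.z0 k2.ne k2.onV
    have g1 := at_es s1.sp t1.sp
    rw [es_smul, hST] at g1
    obtain ⟨c, -, -, hcE⟩ := ratio g1 he' (es_ne s1.z0 t1.z0) hE1
    obtain ⟨hI2, hJ2⟩ := hPQ k s t
    unfold Dq
    rw [hI2, hJ2, hcE, aeval_smul hP, aeval_smul hQ]
    linear_combination c ^ 24 * hDE1

/-! ### The difference of a class function and its image -/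

theorem at_sym (hs : ∀ a b i j : Fin 3, f a b i j = f b a j i) {K : Type} [Field K] [Algebra k K]
    (s t : Option K) (i j : Fin 3) : f.at t s i j = f.at s t j i := by
  unfold Cf.at
  rw [Finset.sum_comm]
  refine Finset.sum_congr rfl fun a _ => Finset.sum_congr rfl fun b _ => ?_
  rw [hs b a i j]
  ring

theorem val_sym (hs : ∀ a b i j : Fin 3, f a b i j = f b a j i) {K : Type} [Field K] [Algebra k K]
    (s t X Y : Option K) : (f.at t s).val Y X = (f.at s t).val X Y := by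
  unfold Bq.val
  rw [Finset.sum_comm]
  refine Finset.sum_congr rfl fun a _ => Finset.sum_congr rfl fun b _ => ?_
  rw [at_sym hs s t b a]
  ring

/-- the difference of a function and its image -/
def dif (F : Option k → Option k → Option k → Option k → W) :
    Option k → Option k → Option k → Option k → W :=
  fun s t X Y => F s t X Y - F t s Y X

theorem cf_swap2 (hs : ∀ a b i j : Fin 3, f a b i j = f b a j i) (hF : f.IsCF F) :
    f.IsCF fun s t X Y => F t s Y X := by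
  intro K _ _ hK s t X Y g hg hV
  exact hF K hK t s Y X g hg (by rw [val_sym hs]; exact hV)

theorem cf_dif (hs : ∀ a b i j : Fin 3, f a b i j = f b a j i) (hF : f.IsCF F) :
    f.IsCF (dif F) := by
  intro K _ _ hK s t X Y g hg hV
  have h1 := hF K hK s t X Y g hg hV
  have h2 := cf_swap2 hs hF K hK s t X Y g hg hV
  unfold dif
  simp only [Finsupp.sum, smul_sub, Finset.sum_sub_distrib] at h1 h2 ⊢
  rw [h1, h2, sub_zero]

theorem bar_dif (h : Dat2 f F) (s t : Option k) : Bar (f.at s t) (dif F s t) := by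
  intro X Y Y' κ hκ h2 h1 h0
  have e1 := h.barY s t X Y Y' κ hκ h2 h1 h0
  have hb : (fun i j => f.at t s j i) = f.at s t := by
    funext i j
    exact at_sym h.sym s t j i
  have h3 := h.barX t s
  rw [hb] at h3
  have e2 := h3 X Y Y' κ hκ h2 h1 h0
  unfold dif
  have e3 : F s t X Y - F t s Y X + (F s t X Y' - F t s Y' X) =
      (F s t X Y + F s t X Y') - (F t s Y X + F t s Y' X) := by abel
  rw [e3, e1]
  have e4 : F t s Y X + F t s Y' X = 0 := e2
  rw [e4, sub_zero]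

theorem dif_swap (s t X Y : Option k) : dif F t s Y X = -dif F s t X Y := by
  unfold dif
  abel

theorem cf_neg (hF : f.IsCF F) : f.IsCF fun s t X Y => -F s t X Y := by
  intro K _ _ hK s t X Y g hg hV
  have h1 := hF K hK s t X Y g hg hV
  simp only [Finsupp.sum, smul_neg, Finset.sum_neg_distrib] at h1 ⊢
  rw [h1, neg_zero]

/-- a class function on the product of four lines is constant -/
theorem const_zero (hf : f = 0) (hF : f.IsCF F) {S T X Y S' T' X' Y' : Fin 2 → k} (hS : S ≠ 0)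
    (hT : T ≠ 0) (hX : X ≠ 0) (hY : Y ≠ 0) (hS' : S' ≠ 0) (hT' : T' ≠ 0) (hX' : X' ≠ 0)
    (hY' : Y' ≠ 0) : FV F S T X Y = FV F S' T' X' Y' := by
  have hV : ∀ A B C D : Fin 2 → Om k, f.OnV A B C D := by
    intro A B C D
    rw [hf]
    simp [Cf.OnV, Cf.co, Cf.vq, Cf.vc, Qv]
  refine bridge (n := 1) (c₀ := 0) (c₁ := 1) hF
    (S := fun _ => lin S S') (T := fun _ => lin T T') (X := fun _ => lin X X')
    (Y := fun _ => lin Y Y') (fun _ => lin_ne hS) (fun _ => lin_ne hT) (fun _ => lin_ne hX)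
    (fun _ => lin_ne hY) (fun _ => hV _ _ _ _) ?_ ?_
  · intro v hv
    rw [Fin.sum_univ_one, (sp_lin0 hS hv).vlo, (sp_lin0 hT hv).vlo, (sp_lin0 hX hv).vlo,
      (sp_lin0 hY hv).vlo]
    rfl
  · intro v hv
    rw [Fin.sum_univ_one, (sp_lin1 hS' hv).vlo, (sp_lin1 hT' hv).vlo, (sp_lin1 hX' hv).vlo,
      (sp_lin1 hY' hv).vlo]
    rfl

/-- **The second exchange theorem.** -/
theorem core2 (h : Dat2 f F) : Concl2 f F := by
  intro s t X Y hV
  by_cases hf : f = 0
  · have h1 := const_zero hf h.cf (vo_ne s) (vo_ne t) (vo_ne X) (vo_ne Y) (vo_ne t) (vo_ne s)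
      (vo_ne Y) (vo_ne X)
    unfold FV at h1
    rwa [po_vo, po_vo, po_vo, po_vo] at h1
  · have d1 : DatV f (dif F) := datV_of_ne hf (cf_dif h.sym h.cf) (bar_dif h)
    have d2 : DatV f fun s t X Y => dif F t s Y X := by
      have e1 : (fun s t X Y => dif F t s Y X) = fun s t X Y => -dif F s t X Y := by
        funext s t X Y
        exact dif_swap s t X Y
      rw [e1]
      refine datV_of_ne hf (cf_neg (cf_dif h.sym h.cf)) fun s t => ?_
      intro X Y Y' κ hκ h2 h1 h0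
      rw [← neg_add, bar_dif h s t X Y Y' κ hκ h2 h1 h0, neg_zero]
    have h1 := anti_zero d1 d2 dif_swap h.sym (vo_ne s) (vo_ne t) (vo_ne X) (vo_ne Y)
      ((val_iff s t X Y).1 hV)
    unfold FV at h1
    rw [po_vo, po_vo, po_vo, po_vo] at h1
    exact sub_eq_zero.1 h1

end Pool.Agent.GOC
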