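import Pool.Agent.GOC.Spc

/-!
# Unordered pairs of points of the projective line
-/

set_option autoImplicit false

noncomputable section

namespace Pool.Agent.GOC

open Polynomial Pool.Agent.ZCyc Pool.Agent.Dess Pool.Agent.GT Pool.Agent.TInc

/-- the elementary symmetric forms of two points, homogeneous coordinates of the pair -/
def es {K : Type} [CommRing K] (S T : Fin 2 → K) : Fin 3 → K :=
  ![S 1 * T 1, S 0 * T 1 + S 1 * T 0, S 0 * T 0]

section ring

variable {K : Type} [CommRing K]

theorem es_swap (S T : Fin 2 → K) : es T S = es S T := by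
  funext i
  fin_cases i <;> simp [es] <;> ring

theorem es_smul (c d : K) (S T : Fin 2 → K) :
    es (fun i => c * S i) (fun i => d * T i) = fun i => c * d * es S T i := by
  funext i
  fin_cases i <;> simp [es] <;> ring

end ring

section field

variable {K : Type} [Field K]

theorem vec_ne {x : Fin 2 → K} (h : x ≠ 0) : x 0 ≠ 0 ∨ x 1 ≠ 0 := by
  by_contra h1
  push Not at h1
  exact h (vec_ext h1.1 h1.2)

theorem es_inj {S W : Fin 2 → K} (hS : S ≠ 0) (h : es S W = 0) : W = 0 := by
  have h0 : S 1 * W 1 = 0 := congrFun h 0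
  have h1 : S 0 * W 1 + S 1 * W 0 = 0 := congrFun h 1
  have h2 : S 0 * W 0 = 0 := congrFun h 2
  rcases vec_ne hS with h3 | h3
  · have h4 : W 0 = 0 := (mul_eq_zero.1 h2).resolve_left h3
    rw [h4, mul_zero, add_zero] at h1
    exact vec_ext h4 ((mul_eq_zero.1 h1).resolve_left h3)
  · have h4 : W 1 = 0 := (mul_eq_zero.1 h0).resolve_left h3
    rw [h4, mul_zero, zero_add] at h1
    exact vec_ext ((mul_eq_zero.1 h1).resolve_left h3) h4

theorem es_ne {S T : Fin 2 → K} (hS : S ≠ 0) (hT : T ≠ 0) : es S T ≠ 0 :=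
  fun h => hT (es_inj hS h)

theorem exists_es [IsAlgClosed K] (e : Fin 3 → K) : ∃ S T : Fin 2 → K, es S T = e := by
  by_cases h0 : e 0 = 0
  · refine ⟨![1, 0], ![e 2, e 1], ?_⟩
    funext i
    fin_cases i <;> simp [es, h0]
  · obtain ⟨s, hs⟩ := IsAlgClosed.exists_root (C (e 0) * X ^ 2 + C (-e 1) * X + C (e 2) : K[X])
      (by rw [Polynomial.degree_quadratic h0]; norm_num)
    simp only [Polynomial.IsRoot, eval_add, eval_mul, eval_C, eval_pow, eval_X] at hs
    refine ⟨![s, 1], ![e 1 - e 0 * s, e 0], ?_⟩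
    funext i
    fin_cases i
    · simp [es]
    · simp [es]
      ring
    · simp [es]
      linear_combination -hs

/-- a pair of points is determined by its coordinates -/
theorem es_unique {S T S' T' : Fin 2 → K} {c : K} (hS : S ≠ 0) (hT : T ≠ 0) (hS' : S' ≠ 0)
    (hT' : T' ≠ 0) (h : es S T = fun i => c * es S' T' i) :
    (∃ μ ν : K, S = (fun i => μ * S' i) ∧ T = fun i => ν * T' i) ∨
      ∃ μ ν : K, S = (fun i => μ * T' i) ∧ T = fun i => ν * S' i := by
  have h0 : S 1 * T 1 = c * (S' 1 * T' 1) := congrFun h 0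
  have h1 : S 0 * T 1 + S 1 * T 0 = c * (S' 0 * T' 1 + S' 1 * T' 0) := congrFun h 1
  have h2 : S 0 * T 0 = c * (S' 0 * T' 0) := congrFun h 2
  have hc : c ≠ 0 := by
    rintro rfl
    apply es_ne hS hT
    rw [h]
    funext i
    simp
  have hd : dt S' S * dt T' S = 0 := by
    apply (mul_eq_zero.1 (?_ : c * _ = (0 : K))).resolve_left hc
    unfold dt
    linear_combination (-(S 0) ^ 2) * h0 + S 0 * S 1 * h1 - S 1 ^ 2 * h2
  have key : ∀ (A B : Fin 2 → K), A ≠ 0 → es S T = (fun i => c * es A B i) → dt A S = 0 →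
      ∃ μ ν : K, S = (fun i => μ * A i) ∧ T = fun i => ν * B i := by
    intro A B hA hAB hdt
    obtain ⟨μ, hμ⟩ := dt_zero hA hdt
    have hμ0 : μ ≠ 0 := by
      rintro rfl
      apply hS
      rw [hμ]
      funext i
      simp
    refine ⟨μ, c / μ, hμ, ?_⟩
    have h3 : es A (fun i => μ * T i - c * B i) = 0 := by
      have e0 : S 1 * T 1 = c * (A 1 * B 1) := congrFun hAB 0
      have e1 : S 0 * T 1 + S 1 * T 0 = c * (A 0 * B 1 + A 1 * B 0) := congrFun hAB 1
      have e2 : S 0 * T 0 = c * (A 0 * B 0) := congrFun hAB 2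
      rw [hμ] at e0 e1 e2
      funext i
      fin_cases i
      · show A 1 * (μ * T 1 - c * B 1) = 0
        linear_combination e0
      · show A 0 * (μ * T 1 - c * B 1) + A 1 * (μ * T 0 - c * B 0) = 0
        linear_combination e1
      · show A 0 * (μ * T 0 - c * B 0) = 0
        linear_combination e2
    have h4 := es_inj hA h3
    funext i
    have h5 : μ * T i - c * B i = 0 := congrFun h4 i
    field_simp
    linear_combination h5
  rcases mul_eq_zero.1 hd with h3 | h3
  · exact Or.inl (key S' T' hS' h h3)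
  · right
    apply key T' S' hT' _ h3
    rw [es_swap S' T']
    exact h

end field

theorem at_es {k : Type} [Field k] {K : Type} [Field K] [Algebra k K] {v : Place k K}
    {S T : Fin 2 → K} {s t : Fin 2 → k} (hS : VA v S s) (hT : VA v T t) :
    VA v (es S T) (es s t) := by
  intro i
  fin_cases i
  · exact (hS 1).mul (hT 1)
  · exact ((hS 0).mul (hT 1)).add ((hS 1).mul (hT 0))
  · exact (hS 0).mul (hT 0)

/-- factorisation of quadratic forms -/
theorem exists_pr {K : Type} [Field K] [IsAlgClosed K] (q : Fin 3 → K) :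
    ∃ u v : Fin 2 → K, pr u v = q := by
  obtain ⟨u, v, h⟩ := exists_es ![q 2, -q 1, q 0]
  refine ⟨u, v, ?_⟩
  have h0 : u 1 * v 1 = q 2 := congrFun h 0
  have h1 : u 0 * v 1 + u 1 * v 0 = -q 1 := congrFun h 1
  have h2 : u 0 * v 0 = q 0 := congrFun h 2
  funext i
  fin_cases i
  · exact h2
  · show -(u 1 * v 0 + u 0 * v 1) = q 1
    linear_combination -h1
  · exact h0

/-- uniqueness of the factorisation -/
theorem pr_unique {K : Type} [Field K] {S T S' T' : Fin 2 → K} {c : K} (hS : S ≠ 0) (hT : T ≠ 0)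
    (hS' : S' ≠ 0) (hT' : T' ≠ 0) (h : pr S T = fun i => c * pr S' T' i) :
    (∃ μ ν : K, S = (fun i => μ * S' i) ∧ T = fun i => ν * T' i) ∨
      ∃ μ ν : K, S = (fun i => μ * T' i) ∧ T = fun i => ν * S' i := by
  apply es_unique (c := c) hS hT hS' hT'
  have h0 : S 0 * T 0 = c * (S' 0 * T' 0) := congrFun h 0
  have h1 : -(S 1 * T 0 + S 0 * T 1) = c * -(S' 1 * T' 0 + S' 0 * T' 1) := congrFun h 1
  have h2 : S 1 * T 1 = c * (S' 1 * T' 1) := congrFun h 2
  funext i
  fin_cases i
  · exact h2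
  · show S 0 * T 1 + S 1 * T 0 = c * (S' 0 * T' 1 + S' 1 * T' 0)
    linear_combination -h1
  · exact h0

end Pool.Agent.GOC
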