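import Pool.Agent.GOC.Brg

/-!
# The points with the same coordinate `X`
-/

set_option autoImplicit false
set_option linter.unusedSectionVars false

noncomputable section

namespace Pool.Agent.GOC

open Pool.Agent.ZCyc Pool.Agent.Dess Pool.Agent.GT Pool.Agent.TInc
open Pool.Agent.VFP (Om tt)
open Pool.Agent.HGF (fst snd vlo)

variable {k : Type} [Field k] [IsAlgClosed k] [CharZero k] {W : Type} [AddCommGroup W] [Module ℚ W]
  {f : Cf k} {F : Option k → Option k → Option k → Option k → W} {p q : k}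

section const

variable {K : Type} [Field K] [Algebra k K]

/-- a vector with constant coordinates -/
def cst (K : Type) [Field K] [Algebra k K] {n : ℕ} (x : Fin n → k) : Fin n → K :=
  fun i => algebraMap k K (x i)

theorem at_cst {n : ℕ} {v : Place k K} (x : Fin n → k) : VA v (cst K x) x :=
  fun i => Place.at_const (x i)

theorem cst_ne {n : ℕ} {x : Fin n → k} (hx : x ≠ 0) : cst K x ≠ 0 := by
  intro h
  apply hx
  funext i
  have h1 : algebraMap k K (x i) = 0 := congrFun h i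
  exact (map_eq_zero _).1 h1

theorem sp_cst {n : ℕ} {v : Place k K} {x : Fin n → k} (hx : x ≠ 0) : Sp v 1 (cst K x) x :=
  ⟨one_ne_zero, hx, fun i => by
    show v.At (1 * cst K x i) (x i)
    rw [one_mul]
    exact at_cst x i⟩

theorem vc_cst (S T : Fin 2 → k) (i j : Fin 3) :
    f.vc (cst K S) (cst K T) i j = algebraMap k K (f.vc S T i j) := by
  unfold Cf.vc mv cst
  simp only [map_sum, map_mul, map_pow]
  rfl

theorem vq_cst (S T : Fin 2 → k) (j : Fin 3) :
    f.vq (cst K S) (cst K T) j = cst K (f.vq S T j) := by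
  funext i
  exact vc_cst S T i j

theorem vg_cst (S T : Fin 2 → k) : f.vg (cst K S) (cst K T) = cst K (f.vg S T) := by
  unfold Cf.vg
  rw [vq_cst, vq_cst, vq_cst]
  funext i
  fin_cases i <;> simp [dsc, cst, map_ofNat]

theorem Qq_cst (q : Fin 3 → k) (x : Fin 2 → k) :
    Qv (cst K q) (cst K x) = algebraMap k K (Qv q x) := by
  simp [Qv, cst]

theorem co_cst (S T X : Fin 2 → k) (j : Fin 3) :
    f.co (cst K S) (cst K T) (cst K X) j = algebraMap k K (f.co S T X j) := by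
  unfold Cf.co
  rw [vq_cst, Qq_cst]

end const

/-- multiplication of the value at a point by constants, version with equations -/
theorem FV_congr {S T X Y S' T' X' Y' : Fin 2 → k} {a b c d : k} (hS : S ≠ 0) (hT : T ≠ 0)
    (hX : X ≠ 0) (hY : Y ≠ 0) (h1 : S = fun i => a * S' i) (h2 : T = fun i => b * T' i)
    (h3 : X = fun i => c * X' i) (h4 : Y = fun i => d * Y' i) : FV F S T X Y = FV F S' T' X' Y' := by
  have key : ∀ {z z' : Fin 2 → k} {r : k}, z ≠ 0 → z = (fun i => r * z' i) → r ≠ 0 := by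
    rintro z z' r hz h rfl
    apply hz
    rw [h]
    funext i
    simp
  rw [h1, h2, h3, h4]
  exact FV_smul (key hS h1) (key hT h2) (key hX h3) (key hY h4)

/-- The data are zero on the boundary. -/
theorem bdry' (h : Dat f p q F) {S T X Y : Fin 2 → k} (hS : S ≠ 0) (hT : T ≠ 0) (hX : X ≠ 0)
    (hY : Y ≠ 0) (hV : f.OnV S T X Y) (hb : X 0 = 0 ∨ X 1 = 0 ∨ Y 0 = 0 ∨ Y 1 = 0) :
    FV F S T X Y = 0 := by
  apply h.bdry _ _ _ _ ((onV_iff hS hT hX hY).2 hV)
  by_cases h1 : X 1 = 0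
  · exact Or.inl (po_eq_none.2 h1)
  by_cases h2 : Y 1 = 0
  · exact Or.inr (Or.inr (Or.inl (po_eq_none.2 h2)))
  rcases hb with h3 | h3 | h3 | h3
  · exact Or.inr (Or.inl (po_eq_zero.2 ⟨h1, h3⟩))
  · exact absurd h3 h1
  · exact Or.inr (Or.inr (Or.inr (po_eq_zero.2 ⟨h2, h3⟩)))
  · exact absurd h3 h2

/-- The data which are used on the fibres: a class function on the hypersurface `f = 0` which is zero
on the vertical lines (where the equation for `Y` is zero), and whose values at the two points with the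
same `s`, `t`, `X` have the sum zero. -/
structure DatV {k : Type} [Field k] [IsAlgClosed k] [CharZero k] (f : Cf k) {W : Type}
    [AddCommGroup W] [Module ℚ W] (F : Option k → Option k → Option k → Option k → W) : Prop where
  cf : f.IsCF F
  vert : ∀ s t X Y, (∀ j, (f.at s t).hco j X = 0) → F s t X Y = 0
  bar : ∀ s t : Option k, Bar (f.at s t) (F s t)

theorem bar_gen0 (hb : ∀ s t : Option k, Bar (f.at s t) (F s t)) {S T X Y Y' : Fin 2 → k} {κ : k}
    (hS : S ≠ 0) (hT : T ≠ 0)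
    (hX : X ≠ 0) (hY : Y ≠ 0) (hY' : Y' ≠ 0) (hκ : κ ≠ 0) (h2 : f.co S T X 2 = κ * (Y 1 * Y' 1))
    (h1 : f.co S T X 1 = -(κ * (Y 0 * Y' 1 + Y 1 * Y' 0))) (h0 : f.co S T X 0 = κ * (Y 0 * Y' 0)) :
    FV F S T X Y + FV F S T X Y' = 0 := by
  obtain ⟨a, ha, e1⟩ := exists_vo hS
  obtain ⟨b, hb0, e2⟩ := exists_vo hT
  obtain ⟨c, hc, e3⟩ := exists_vo hX
  obtain ⟨d, hd, e4⟩ := exists_vo hY
  obtain ⟨e, he, e5⟩ := exists_vo hY'
  have hco : ∀ j, f.co S T X j = (a * b) ^ 2 * c ^ 2 * f.co (vo (po S)) (vo (po T)) (vo (po X)) j := by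
    intro j
    conv_lhs => rw [e1, e2, e3]
    exact f.co_smul a b c _ _ _ j
  have hn : (a * b) ^ 2 * c ^ 2 ≠ 0 :=
    mul_ne_zero (pow_ne_zero 2 (mul_ne_zero ha hb0)) (pow_ne_zero 2 hc)
  have hY0 : ∀ i, Y i = d * vo (po Y) i := congrFun e4
  have hY1 : ∀ i, Y' i = e * vo (po Y') i := congrFun e5
  apply hb (po S) (po T) (po X) (po Y) (po Y') (κ * (d * e) / ((a * b) ^ 2 * c ^ 2))
    (div_ne_zero (mul_ne_zero hκ (mul_ne_zero hd he)) hn)
  · rw [hco, hY0, hY1] at h2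
    rw [hco_eq, div_mul_eq_mul_div, eq_div_iff hn]
    have v1 : ∀ x : Option k, vo x 1 = snd x := fun _ => rfl
    rw [v1, v1] at h2
    linear_combination h2
  · rw [hco, hY0, hY1, hY0 1, hY1 0] at h1
    have v0 : ∀ x : Option k, vo x 0 = fst x := fun _ => rfl
    have v1 : ∀ x : Option k, vo x 1 = snd x := fun _ => rfl
    rw [v1, v1, v0, v0] at h1
    rw [hco_eq, div_mul_eq_mul_div, ← neg_div, eq_div_iff hn]
    linear_combination h1
  · rw [hco, hY0, hY1] at h0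
    have v0 : ∀ x : Option k, vo x 0 = fst x := fun _ => rfl
    rw [v0, v0] at h0
    rw [hco_eq, div_mul_eq_mul_div, eq_div_iff hn]
    linear_combination h0

theorem bar_gen (h : DatV f F) {S T X Y Y' : Fin 2 → k} {κ : k} (hS : S ≠ 0) (hT : T ≠ 0)
    (hX : X ≠ 0) (hY : Y ≠ 0) (hY' : Y' ≠ 0) (hκ : κ ≠ 0) (h2 : f.co S T X 2 = κ * (Y 1 * Y' 1))
    (h1 : f.co S T X 1 = -(κ * (Y 0 * Y' 1 + Y 1 * Y' 0))) (h0 : f.co S T X 0 = κ * (Y 0 * Y' 0)) :
    FV F S T X Y + FV F S T X Y' = 0 :=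
  bar_gen0 h.bar hS hT hX hY hY' hκ h2 h1 h0

/-- the coefficients of the equation for `Y` in terms of the two solutions -/
theorem coeffs {S T X Y Y' : Fin 2 → k} {y : k} (k1 : f.Ker S T X y Y)
    (k2 : f.Ker S T X (-y) Y') : ∃ κ : k, f.co S T X 2 = κ * (Y 1 * Y' 1) ∧
      f.co S T X 1 = -(κ * (Y 0 * Y' 1 + Y 1 * Y' 0)) ∧ f.co S T X 0 = κ * (Y 0 * Y' 0) ∧
      (κ = 0 → y = 0) := by
  have t2 : (2 : k) ≠ 0 := two_ne_zero
  have a1 := k1.one
  have a2 := k1.two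
  have b1 := k2.one
  have b2 := k2.two
  obtain ⟨A, hA⟩ : ∃ A, A = f.co S T X 2 := ⟨_, rfl⟩
  obtain ⟨B, hB⟩ : ∃ B, B = f.co S T X 1 := ⟨_, rfl⟩
  obtain ⟨C, hC⟩ : ∃ C, C = f.co S T X 0 := ⟨_, rfl⟩
  rw [← hA, ← hB] at a1 b1
  rw [← hB, ← hC] at a2 b2
  rw [← hA, ← hB, ← hC]
  obtain ⟨u, hu⟩ := exists_dt k1.ne
  obtain ⟨u', hu'⟩ := exists_dt k2.ne
  unfold dt at hu hu'
  obtain ⟨P, hP⟩ : ∃ P, P = 2 * A * u 0 + (B - y) * u 1 := ⟨_, rfl⟩
  obtain ⟨R, hR⟩ : ∃ R, R = (B + y) * u 0 + 2 * C * u 1 := ⟨_, rfl⟩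
  have p0 : 2 * A = -(Y 1 * P) := by
    rw [hP]
    linear_combination (-(2 * A)) * hu + u 1 * a1
  have p1 : B - y = Y 0 * P := by
    rw [hP]
    linear_combination (-(B - y)) * hu - u 0 * a1
  have r0 : B + y = -(Y 1 * R) := by
    rw [hR]
    linear_combination (-(B + y)) * hu + u 1 * a2
  have r1 : 2 * C = Y 0 * R := by
    rw [hR]
    linear_combination (-(2 * C)) * hu - u 0 * a2
  have hPR : P * Y' 0 + R * Y' 1 = 0 := by
    rw [hP, hR]
    linear_combination u 0 * b1 + u 1 * b2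
  obtain ⟨κ, hκ⟩ : ∃ κ, 2 * κ = P * u' 0 + R * u' 1 :=
    ⟨(P * u' 0 + R * u' 1) / 2, mul_div_cancel₀ _ t2⟩
  have q0 : P = -(Y' 1 * (2 * κ)) := by
    rw [hκ]
    linear_combination (-P) * hu' + u' 1 * hPR
  have q1 : R = Y' 0 * (2 * κ) := by
    rw [hκ]
    linear_combination (-R) * hu' - u' 0 * hPR
  rw [q0] at p0 p1
  rw [q1] at r0 r1
  refine ⟨κ, ?_, ?_, ?_, ?_⟩
  · apply mul_left_cancel₀ t2
    rw [p0]
    ring
  · apply mul_left_cancel₀ t2
    linear_combination p1 + r0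
  · apply mul_left_cancel₀ t2
    rw [r1]
    ring
  · intro h0
    rw [h0] at p1 r0
    apply (mul_eq_zero.1 (?_ : 2 * y = 0)).resolve_left t2
    linear_combination r0 - p1

/-- the two points with the square roots `y` and `-y` -/
theorem bar' (h : DatV f F) {S T X Y Y' : Fin 2 → k} {y : k} (hS : S ≠ 0) (hT : T ≠ 0)
    (hX : X ≠ 0) (hy : y ≠ 0) (k1 : f.Ker S T X y Y) (k2 : f.Ker S T X (-y) Y') :
    FV F S T X Y + FV F S T X Y' = 0 := by
  obtain ⟨κ, e2, e1, e0, h0⟩ := coeffs k1 k2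
  exact bar_gen h hS hT hX k1.ne k2.ne (fun h1 => hy (h0 h1)) e2 e1 e0

/-- the points on vertical lines -/
theorem vert_of_bdry (h : Dat f p q F) {S T X Y : Fin 2 → k} (hS : S ≠ 0) (hT : T ≠ 0) (hX : X ≠ 0)
    (hY : Y ≠ 0) (hc : ∀ j, f.co S T X j = 0) : FV F S T X Y = 0 := by
  have hV : ∀ {K : Type} [Field K] [Algebra k K] (Z : Fin 2 → K),
      f.OnV (cst K S) (cst K T) (cst K X) Z := by
    intro K _ _ Z
    unfold Cf.OnV
    rw [co_cst, co_cst, co_cst, hc, hc, hc, map_zero]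
    ring
  have hV' : ∀ Z : Fin 2 → k, f.OnV S T X Z := by
    intro Z
    unfold Cf.OnV
    rw [hc, hc, hc]
    ring
  by_cases h0 : Y 0 = 0
  · exact bdry' h hS hT hX hY (hV' Y) (Or.inr (Or.inr (Or.inl h0)))
  -- the path from `Y` to `(0, 1)`
  let Z : Fin 2 → Om k := fun i => (1 - tt k) * algebraMap k (Om k) (Y i) +
    tt k * algebraMap k (Om k) ((![0, 1] : Fin 2 → k) i)
  have hat : ∀ (v : Place k (Om k)) (c : k), v.At (tt k) c →
      VA v Z fun i => (1 - c) * Y i + c * (![0, 1] : Fin 2 → k) i := fun v c hv i =>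
    ((at_one.sub hv).mul (Place.at_const _)).add (hv.mul (Place.at_const _))
  have hZ : Z ≠ 0 := by
    intro hz
    have h1 := congrFun hz 0
    simp only [Z, Matrix.cons_val, map_zero, mul_zero, add_zero, Pi.zero_apply, mul_eq_zero,
      map_eq_zero] at h1
    rcases h1 with h1 | h1
    · exact VFP.tt_ne (1 : k) (by rw [map_one]; linear_combination -h1)
    · exact h0 h1
  have hb := bridge (n := 1) (c₀ := 0) (c₁ := 1) (C₀ := FV F S T X Y) (C₁ := 0) h.cf
    (S := fun _ => cst (Om k) S) (T := fun _ => cst (Om k) T) (X := fun _ => cst (Om k) X)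
    (Y := fun _ => Z) (fun _ => cst_ne hS) (fun _ => cst_ne hT) (fun _ => cst_ne hX)
    (fun _ => hZ) (fun _ => hV Z) ?_ ?_
  · exact hb
  · intro v hv
    have h1 := hat v 0 hv
    have h2 : Sp v 1 Z Y := ⟨one_ne_zero, hY, fun i => by
      have h3 := h1 i
      simp only [sub_zero, one_mul, zero_mul, add_zero] at h3
      simpa using h3⟩
    rw [Fin.sum_univ_one, (sp_cst hS).vlo, (sp_cst hT).vlo, (sp_cst hX).vlo, h2.vlo]
    rfl
  · intro v hv
    have h1 := hat v 1 hv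
    have h01 : (![0, 1] : Fin 2 → k) ≠ 0 := by
      intro hz
      have := congrFun hz 1
      simp at this
    have h2 : Sp v 1 Z ![0, 1] := ⟨one_ne_zero, h01, fun i => by
      have h3 := h1 i
      simp only [sub_self, zero_mul, one_mul, zero_add] at h3
      simpa using h3⟩
    rw [Fin.sum_univ_one, (sp_cst hS).vlo, (sp_cst hT).vlo, (sp_cst hX).vlo, h2.vlo]
    exact bdry' h hS hT hX h01 (hV' _) (Or.inr (Or.inr (Or.inl (by simp))))

/-- the data on the fibres -/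
theorem Dat.toV (h : Dat f p q F) : DatV f F := by
  refine ⟨h.cf, fun s t X Y hc => ?_, h.bar⟩
  have h1 := vert_of_bdry h (vo_ne s) (vo_ne t) (vo_ne X) (vo_ne Y) (fun j => by
    rw [← hco_eq]
    exact hc j)
  unfold FV at h1
  rwa [po_vo, po_vo, po_vo, po_vo] at h1

/-- the points on vertical lines -/
theorem zero_of_vert (h : DatV f F) {S T X Y : Fin 2 → k} (hS : S ≠ 0) (hT : T ≠ 0) (hX : X ≠ 0)
    (hc : ∀ j, f.co S T X j = 0) : FV F S T X Y = 0 := by
  obtain ⟨a, ha, e1⟩ := exists_vo hS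
  obtain ⟨b, hb, e2⟩ := exists_vo hT
  obtain ⟨c, hc0, e3⟩ := exists_vo hX
  apply h.vert
  intro j
  have h1 : f.co S T X j = (a * b) ^ 2 * c ^ 2 * f.co (vo (po S)) (vo (po T)) (vo (po X)) j := by
    conv_lhs => rw [e1, e2, e3]
    exact f.co_smul a b c _ _ _ j
  rw [hc j, ← hco_eq] at h1
  exact (mul_eq_zero.1 h1.symm).resolve_left
    (mul_ne_zero (pow_ne_zero 2 (mul_ne_zero ha hb)) (pow_ne_zero 2 hc0))

/-- the points with `y = 0` -/
theorem zero_of_y (h : DatV f F) {S T X Y : Fin 2 → k} (hS : S ≠ 0) (hT : T ≠ 0) (hX : X ≠ 0)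
    (k1 : f.Ker S T X 0 Y) : FV F S T X Y = 0 := by
  by_cases hc : ∀ j, f.co S T X j = 0
  · exact zero_of_vert h hS hT hX hc
  obtain ⟨κ, e2, e1, e0, -⟩ := coeffs k1 (neg_zero (G := k) ▸ k1)
  have hκ0 : κ ≠ 0 := by
    intro h0
    apply hc
    intro j
    rw [h0] at e0 e1 e2
    fin_cases j
    · show f.co S T X 0 = 0
      rw [e0]
      ring
    · show f.co S T X 1 = 0
      rw [e1]
      ring
    · show f.co S T X 2 = 0
      rw [e2]
      ring
  have h3 := bar_gen h hS hT hX k1.ne k1.ne hκ0 e2 e1 e0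
  have h4 : (2 : ℚ) • FV F S T X Y = 0 := by
    rw [two_smul]
    exact h3
  exact (smul_eq_zero.1 h4).resolve_left two_ne_zero

end Pool.Agent.GOC
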