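import Pool.Agent.GOC.Deg

/-!
# Forms of degree (2, 2) in bases
-/

set_option autoImplicit false
set_option linter.unusedSectionVars false

noncomputable section

namespace Pool.Agent.GOC

open Pool.Agent.ZCyc Pool.Agent.Dess Pool.Agent.GT Pool.Agent.TInc
open Pool.Agent.VFP (Om tt)
open Pool.Agent.HGF (fst snd vlo)

section ring

variable {K : Type} [CommRing K]

/-- the coefficients of a quadratic form in the basis `x`, `y`: `q (l x + m y) = ∑ b_i l ^ i m ^ (2 - i)` -/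
def bs (x y : Fin 2 → K) (q : Fin 3 → K) : Fin 3 → K :=
  ![Qv q y, 2 * q 2 * x 0 * y 0 + q 1 * (x 0 * y 1 + x 1 * y 0) + 2 * q 0 * x 1 * y 1, Qv q x]

/-- the linear combination -/
def lc (x y u : Fin 2 → K) : Fin 2 → K := fun i => u 0 * x i + u 1 * y i

theorem Qq_lc (x y u : Fin 2 → K) (q : Fin 3 → K) : Qv q (lc x y u) = Qv (bs x y q) u := by
  simp only [Qv, lc, bs, Matrix.cons_val]
  ring

/-- the coefficients of a form of degree `(2, 2)` in bases -/
def cc (e : Fin 3 → Fin 3 → K) (x y x' y' : Fin 2 → K) (i j : Fin 3) : K :=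
  bs x y (fun i' => bs x' y' (e i') j) i

/-- the transposed form -/
def tr (e : Fin 3 → Fin 3 → K) : Fin 3 → Fin 3 → K := fun i j => e j i

theorem cc_tr (e : Fin 3 → Fin 3 → K) (x y x' y' : Fin 2 → K) (i j : Fin 3) :
    cc (tr e) x' y' x y i j = cc e x y x' y' j i := by
  fin_cases i <;> fin_cases j <;> simp [cc, tr, bs, Qv] <;> ring

/-- the discriminant with respect to `Y` -/
def dY (e : Fin 3 → Fin 3 → K) : Fin 5 → K :=
  dsc (fun i => e i 2) (fun i => e i 1) (fun i => e i 0)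

theorem dsc_bs (x y : Fin 2 → K) (q₂ q₁ q₀ : Fin 3 → K) :
    dsc (bs x y q₂) (bs x y q₁) (bs x y q₀) = pl (dsc q₂ q₁ q₀) x y := by
  funext i
  fin_cases i <;> simp [dsc, bs, pl, Qv, Gq] <;> ring

theorem dY_bs (x' y' : Fin 2 → K) (e : Fin 3 → Fin 3 → K) :
    dY (fun i j => bs x' y' (e i) j) = fun i => dt x' y' ^ 2 * dY e i := by
  funext i
  fin_cases i <;> simp [dY, dsc, bs, Qv, dt] <;> ring

/-- the discriminant in bases -/
theorem dY_cc (e : Fin 3 → Fin 3 → K) (x y x' y' : Fin 2 → K) :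
    dY (cc e x y x' y') = fun i => dt x' y' ^ 2 * pl (dY e) x y i := by
  have h1 : dY (cc e x y x' y') = pl (dY (fun i j => bs x' y' (e i) j)) x y := by
    unfold dY cc
    rw [← dsc_bs]
  rw [h1, dY_bs]
  funext i
  fin_cases i <;> simp [pl, Gq] <;> ring

/-- the invariants of the transposed form -/
theorem Iq_tr (e : Fin 3 → Fin 3 → K) : Iq (dY (tr e)) = Iq (dY e) := by
  simp only [Iq, dY, tr, dsc, Matrix.cons_val]
  ring

theorem Jq_tr (e : Fin 3 → Fin 3 → K) : Jq (dY (tr e)) = Jq (dY e) := by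
  simp only [Jq, dY, tr, dsc, Matrix.cons_val]
  ring

theorem Dq_tr (e : Fin 3 → Fin 3 → K) : Dq (dY (tr e)) = Dq (dY e) := by
  unfold Dq
  rw [Iq_tr, Jq_tr]

/-- the value of a form of degree `(2, 2)` -/
def V2 (e : Fin 3 → Fin 3 → K) (X Y : Fin 2 → K) : K :=
  Qv (fun i => e i 2) X * Y 0 ^ 2 + Qv (fun i => e i 1) X * (Y 0 * Y 1) +
    Qv (fun i => e i 0) X * Y 1 ^ 2

theorem V2_lc (e : Fin 3 → Fin 3 → K) (x y x' y' u w : Fin 2 → K) :
    V2 e (lc x y u) (lc x' y' w) = V2 (cc e x y x' y') u w := by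
  simp only [V2, Qv, lc, cc, bs, Matrix.cons_val]
  ring

end ring

end Pool.Agent.GOC
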