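import Pool.Agent.GOC.Es

/-!
# Comparison of two values of the parameter
-/

set_option autoImplicit false

noncomputable section

namespace Pool.Agent.GOC

open Pool.Agent.ZCyc Pool.Agent.Dess Pool.Agent.GT Pool.Agent.TInc
open Pool.Agent.VFP (Om tt)
open Pool.Agent.HGF (fst snd vlo)

variable {k : Type} [Field k] [IsAlgClosed k] [CharZero k] {W : Type} [AddCommGroup W] [Module ℚ W]
  {f : Cf k} {F : Option k → Option k → Option k → Option k → W}

/-- the value of `F` at a point given by homogeneous coordinates -/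
def FV (F : Option k → Option k → Option k → Option k → W) (S T X Y : Fin 2 → k) : W :=
  F (po S) (po T) (po X) (po Y)

theorem FV_smul {S T X Y : Fin 2 → k} {a b c d : k} (ha : a ≠ 0) (hb : b ≠ 0) (hc : c ≠ 0)
    (hd : d ≠ 0) : FV F (fun i => a * S i) (fun i => b * T i) (fun i => c * X i)
      (fun i => d * Y i) = FV F S T X Y := by
  unfold FV
  rw [po_mul ha, po_mul hb, po_mul hc, po_mul hd]

theorem at_map {K' : Type} [Field K'] [Algebra k K'] {K : Type} [Field K] [Algebra k K]
    (φ : K' →ₐ[k] K) (s t : Option K') (i j : Fin 3) :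
    (f.at (s.map φ) (t.map φ)) i j = φ ((f.at s t) i j) := by
  have hm : ∀ (x : Option K') (i : Fin 3), mon (x.map φ) i = φ (mon x i) := by
    intro x i
    unfold mon
    rw [HGF.fst_map, HGF.snd_map, map_mul, map_pow, map_pow]
  unfold Cf.at
  simp only [map_sum, map_mul, hm, AlgHom.commutes]

theorem val_map {K' : Type} [Field K'] [Algebra k K'] {K : Type} [Field K] [Algebra k K]
    (φ : K' →ₐ[k] K) (s t X Y : Option K') :
    (f.at (s.map φ) (t.map φ)).val (X.map φ) (Y.map φ) = φ ((f.at s t).val X Y) := by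
  have hm : ∀ (x : Option K') (i : Fin 3), mon (x.map φ) i = φ (mon x i) := by
    intro x i
    unfold mon
    rw [HGF.fst_map, HGF.snd_map, map_mul, map_pow, map_pow]
  unfold Bq.val
  simp only [map_sum, map_mul, hm, at_map]

/-- **Comparison.** The sum of the values of `F` at finitely many points over `Om k` is a function
on the set of the places of `Om k`. If it has the constant value `C₀` at all places over `c₀`, and
the value `C₁` at all places over `c₁`, then `C₀ = C₁`. -/
theorem bridge (hF : f.IsCF F) {n : ℕ} {S T X Y : Fin n → Fin 2 → Om k} (hS : ∀ j, S j ≠ 0)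
    (hT : ∀ j, T j ≠ 0) (hX : ∀ j, X j ≠ 0) (hY : ∀ j, Y j ≠ 0)
    (hV : ∀ j, f.OnV (S j) (T j) (X j) (Y j)) {c₀ c₁ : k} {C₀ C₁ : W}
    (h₀ : ∀ v : Place k (Om k), v.At (tt k) c₀ → ∑ j, F (vlo v (po (S j))) (vlo v (po (T j)))
      (vlo v (po (X j))) (vlo v (po (Y j))) = C₀)
    (h₁ : ∀ v : Place k (Om k), v.At (tt k) c₁ → ∑ j, F (vlo v (po (S j))) (vlo v (po (T j)))
      (vlo v (po (X j))) (vlo v (po (Y j))) = C₁) : C₀ = C₁ := by
  classical
  let co : Option (Om k) → Finset (Om k) := fun x => x.toFinset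
  let Γ : Finset (Om k) := Finset.univ.biUnion fun j : Fin n =>
    co (po (S j)) ∪ co (po (T j)) ∪ (co (po (X j)) ∪ co (po (Y j)))
  obtain ⟨K, hK, hΓ, htt⟩ := ARS.exists_fld Γ
  have hl : ∀ x : Option (Om k), co x ⊆ Γ → ∃ x' : Option K, x'.map K.val = x := by
    intro x hx
    apply ARS.lift_opt
    intro g hg
    exact hΓ (hx (Option.mem_toFinset.2 hg))
  have hsub : ∀ j, co (po (S j)) ∪ co (po (T j)) ∪ (co (po (X j)) ∪ co (po (Y j))) ⊆ Γ := by
    intro j
    exact Finset.subset_biUnion_of_mem (fun j => co (po (S j)) ∪ co (po (T j)) ∪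
      (co (po (X j)) ∪ co (po (Y j)))) (Finset.mem_univ j)
  choose s hs using fun j => hl (po (S j))
    ((Finset.subset_union_left.trans Finset.subset_union_left).trans (hsub j))
  choose t ht using fun j => hl (po (T j))
    ((Finset.subset_union_right.trans Finset.subset_union_left).trans (hsub j))
  choose x hx using fun j => hl (po (X j))
    ((Finset.subset_union_left.trans Finset.subset_union_right).trans (hsub j))
  choose y hy using fun j => hl (po (Y j))
    ((Finset.subset_union_right.trans Finset.subset_union_right).trans (hsub j))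
  have hW : ∀ (n : ℕ) (x : W), n ≠ 0 → n • x = 0 → x = 0 := by
    intro n x hn h
    have h1 : (n : ℚ) • x = 0 := by
      rw [Nat.cast_smul_eq_nsmul]
      exact h
    exact (smul_eq_zero.1 h1).resolve_left (by exact_mod_cast hn)
  refine ARS.bridge_core hW hK htt
    (fun v => ∑ j, F (vlo v (po (S j))) (vlo v (po (T j))) (vlo v (po (X j))) (vlo v (po (Y j))))
    (fun v => ∑ j, F (vlo v (s j)) (vlo v (t j)) (vlo v (x j)) (vlo v (y j))) ?_ ?_ h₀ h₁
  · intro V c hc
    refine Finset.sum_congr rfl fun j _ => ?_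
    rw [← hs, ← ht, ← hx, ← hy, HGF.vlo_alg hc, HGF.vlo_alg hc, HGF.vlo_alg hc, HGF.vlo_alg hc]
  · intro g hg
    have h1 : ∀ j, ((TInc.dv hK g).sum fun v a => a •
        F (vlo v (s j)) (vlo v (t j)) (vlo v (x j)) (vlo v (y j))) = 0 := by
      intro j
      apply hF K hK (s j) (t j) (x j) (y j) g hg
      have h2 := (onV_iff (hS j) (hT j) (hX j) (hY j)).2 (hV j)
      rw [← hs, ← ht, ← hx, ← hy, val_map] at h2
      exact (map_eq_zero K.val).1 h2
    simp only [Finsupp.sum, Finset.smul_sum] at h1 ⊢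
    rw [Finset.sum_comm]
    exact Finset.sum_eq_zero fun j _ => h1 j

end Pool.Agent.GOC
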