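import Mathlib

/-!
# Covariants of binary quartic forms

`G` is a binary quartic form with the coefficients `g 0, …, g 4`, `H` its Hessian covariant, `T` its
sextic covariant, `I`, `J` are the invariants, `4 I ³ - J ²` is the discriminant (up to a factor).
-/

set_option autoImplicit false

namespace Pool.Agent.GOC

variable {K : Type*} [CommRing K]

/-- the value of the quartic form -/
def Gq (g : Fin 5 → K) (x : Fin 2 → K) : K :=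
  g 4 * x 0 ^ 4 + g 3 * x 0 ^ 3 * x 1 + g 2 * x 0 ^ 2 * x 1 ^ 2 + g 1 * x 0 * x 1 ^ 3 + g 0 * x 1 ^ 4

/-- the value of the Hessian covariant -/
def Hq (g : Fin 5 → K) (x : Fin 2 → K) : K :=
  (3 * g 3 ^ 2 - 8 * g 4 * g 2) * x 0 ^ 4 + 4 * (g 3 * g 2 - 6 * g 4 * g 1) * x 0 ^ 3 * x 1 +
    2 * (2 * g 2 ^ 2 - 24 * g 4 * g 0 - 3 * g 3 * g 1) * x 0 ^ 2 * x 1 ^ 2 +
    4 * (g 2 * g 1 - 6 * g 3 * g 0) * x 0 * x 1 ^ 3 + (3 * g 1 ^ 2 - 8 * g 2 * g 0) * x 1 ^ 4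

/-- the value of the sextic covariant -/
def Tq (g : Fin 5 → K) (x : Fin 2 → K) : K :=
  (g 3 ^ 3 + 8 * g 4 ^ 2 * g 1 - 4 * g 4 * g 3 * g 2) * x 0 ^ 6 +
    2 * (16 * g 4 ^ 2 * g 0 + 2 * g 4 * g 3 * g 1 - 4 * g 4 * g 2 ^ 2 + g 3 ^ 2 * g 2) *
      x 0 ^ 5 * x 1 +
    5 * (8 * g 4 * g 3 * g 0 + g 3 ^ 2 * g 1 - 4 * g 4 * g 2 * g 1) * x 0 ^ 4 * x 1 ^ 2 +
    20 * (g 3 ^ 2 * g 0 - g 4 * g 1 ^ 2) * x 0 ^ 3 * x 1 ^ 3 -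
    5 * (8 * g 4 * g 1 * g 0 + g 3 * g 1 ^ 2 - 4 * g 3 * g 2 * g 0) * x 0 ^ 2 * x 1 ^ 4 -
    2 * (16 * g 4 * g 0 ^ 2 + 2 * g 3 * g 1 * g 0 - 4 * g 2 ^ 2 * g 0 + g 2 * g 1 ^ 2) *
      x 0 * x 1 ^ 5 -
    (g 1 ^ 3 + 8 * g 3 * g 0 ^ 2 - 4 * g 2 * g 1 * g 0) * x 1 ^ 6

/-- the invariant of degree `2` -/
def Iq (g : Fin 5 → K) : K := 12 * g 4 * g 0 - 3 * g 3 * g 1 + g 2 ^ 2

/-- the invariant of degree `3` -/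
def Jq (g : Fin 5 → K) : K :=
  72 * g 4 * g 2 * g 0 + 9 * g 3 * g 2 * g 1 - 27 * g 4 * g 1 ^ 2 - 27 * g 0 * g 3 ^ 2 -
    2 * g 2 ^ 3

/-- the discriminant -/
def Dq (g : Fin 5 → K) : K := 4 * Iq g ^ 3 - Jq g ^ 2

/-- the syzygy -/
theorem syz (g : Fin 5 → K) (x : Fin 2 → K) :
    27 * Tq g x ^ 2 =
      Hq g x ^ 3 - 48 * Iq g * Gq g x ^ 2 * Hq g x - 64 * Jq g * Gq g x ^ 3 := by
  unfold Tq Hq Gq Iq Jq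
  ring

/-- the determinant of two vectors -/
def dt (x y : Fin 2 → K) : K := x 0 * y 1 - x 1 * y 0

/-- the coefficients of the form in the basis `x`, `y`: `G (l x + m y) = ∑ p_i l ^ i m ^ (4 - i)` -/
def pl (g : Fin 5 → K) (x y : Fin 2 → K) : Fin 5 → K :=
  ![Gq g y,
    4 * g 4 * x 0 * y 0 ^ 3 + g 3 * (3 * x 0 * y 0 ^ 2 * y 1 + y 0 ^ 3 * x 1) +
      g 2 * (2 * x 0 * y 0 * y 1 ^ 2 + 2 * y 0 ^ 2 * x 1 * y 1) +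
      g 1 * (x 0 * y 1 ^ 3 + 3 * y 0 * x 1 * y 1 ^ 2) + 4 * g 0 * x 1 * y 1 ^ 3,
    6 * g 4 * x 0 ^ 2 * y 0 ^ 2 + g 3 * (3 * x 0 ^ 2 * y 0 * y 1 + 3 * x 0 * y 0 ^ 2 * x 1) +
      g 2 * (x 0 ^ 2 * y 1 ^ 2 + 4 * x 0 * y 0 * x 1 * y 1 + y 0 ^ 2 * x 1 ^ 2) +
      g 1 * (3 * x 0 * x 1 * y 1 ^ 2 + 3 * y 0 * x 1 ^ 2 * y 1) + 6 * g 0 * x 1 ^ 2 * y 1 ^ 2,
    4 * g 4 * x 0 ^ 3 * y 0 + g 3 * (3 * x 0 ^ 2 * y 0 * x 1 + x 0 ^ 3 * y 1) +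
      g 2 * (2 * x 0 * y 0 * x 1 ^ 2 + 2 * x 0 ^ 2 * x 1 * y 1) +
      g 1 * (y 0 * x 1 ^ 3 + 3 * x 0 * x 1 ^ 2 * y 1) + 4 * g 0 * x 1 ^ 3 * y 1,
    Gq g x]

theorem pl0 (g : Fin 5 → K) (x y : Fin 2 → K) : pl g x y 0 = Gq g y := rfl

theorem pl4 (g : Fin 5 → K) (x y : Fin 2 → K) : pl g x y 4 = Gq g x := rfl

theorem Gq_basis (g : Fin 5 → K) (x y : Fin 2 → K) (l m : K) :
    Gq g (fun i => l * x i + m * y i) = Gq (pl g x y) ![l, m] := by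
  simp only [Gq, pl, Matrix.cons_val]
  ring

theorem Hq_left (g : Fin 5 → K) (x y : Fin 2 → K) :
    dt x y ^ 2 * Hq g x = 3 * pl g x y 3 ^ 2 - 8 * pl g x y 4 * pl g x y 2 := by
  simp only [Gq, Hq, dt, pl, Matrix.cons_val]
  ring

theorem Hq_right (g : Fin 5 → K) (x y : Fin 2 → K) :
    dt x y ^ 2 * Hq g y = 3 * pl g x y 1 ^ 2 - 8 * pl g x y 2 * pl g x y 0 := by
  simp only [Gq, Hq, dt, pl, Matrix.cons_val]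
  ring

theorem Tq_left (g : Fin 5 → K) (x y : Fin 2 → K) :
    dt x y ^ 3 * Tq g x = pl g x y 3 ^ 3 + 8 * pl g x y 4 ^ 2 * pl g x y 1 -
      4 * pl g x y 4 * pl g x y 3 * pl g x y 2 := by
  simp only [Gq, Tq, dt, pl, Matrix.cons_val]
  ring

theorem Tq_right (g : Fin 5 → K) (x y : Fin 2 → K) :
    dt x y ^ 3 * Tq g y = -(pl g x y 1 ^ 3 + 8 * pl g x y 3 * pl g x y 0 ^ 2 -
      4 * pl g x y 2 * pl g x y 1 * pl g x y 0) := by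
  simp only [Gq, Tq, dt, pl, Matrix.cons_val]
  ring

theorem Iq_basis (g : Fin 5 → K) (x y : Fin 2 → K) : Iq (pl g x y) = dt x y ^ 4 * Iq g := by
  simp only [Gq, Iq, dt, pl, Matrix.cons_val]
  ring

theorem Jq_basis (g : Fin 5 → K) (x y : Fin 2 → K) : Jq (pl g x y) = dt x y ^ 6 * Jq g := by
  simp only [Gq, Jq, dt, pl, Matrix.cons_val]
  ring

theorem Dq_basis (g : Fin 5 → K) (x y : Fin 2 → K) : Dq (pl g x y) = dt x y ^ 12 * Dq g := by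
  unfold Dq
  rw [Iq_basis, Jq_basis]
  ring

end Pool.Agent.GOC
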