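import Pool.Agent.ARS.MovG

/-!
# Class functions on curves of degree (2, 2) and hypersurfaces of degree (2, 2, 2, 2): definitions

A point of the projective line over a field `K` is an element of `Option K` (`none` is the point at
infinity), with the homogeneous coordinates `HGF.fst`, `HGF.snd`. A form of degree `(2, 2)` has 9
coefficients (`Bq`), a form of degree `(2, 2, 2, 2)` has 81 coefficients (`Cf`).
-/

set_option autoImplicit false

noncomputable section

namespace Pool.Agent.GOC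

open Pool.Agent.ZCyc Pool.Agent.Dess Pool.Agent.GT Pool.Agent.TInc
open Pool.Agent.HGF (fst snd vlo)

/-! ### Binary quartic forms -/

/-- the coefficients of a binary quartic form `a X⁴ + b X³ + c X² + d X + e` -/
@[ext]
structure Qr (K : Type) where
  /-- the coefficient of `X⁴` -/
  a : K
  /-- the coefficient of `X³` -/
  b : K
  /-- the coefficient of `X²` -/
  c : K
  /-- the coefficient of `X` -/
  d : K
  /-- the constant coefficient -/
  e : K

section Quartic

variable {K : Type} [CommRing K] (g : Qr K)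

/-- the value of the quartic form at `(x, 1)` -/
def Qr.ev (x : K) : K := g.a * x ^ 4 + g.b * x ^ 3 + g.c * x ^ 2 + g.d * x + g.e

/-- the invariant of degree 2 -/
def Qr.I : K := 12 * g.a * g.e - 3 * g.b * g.d + g.c ^ 2

/-- the invariant of degree 3 -/
def Qr.J : K := 72 * g.a * g.c * g.e + 9 * g.b * g.c * g.d - 27 * g.a * g.d ^ 2 -
  27 * g.e * g.b ^ 2 - 2 * g.c ^ 3

/-- the discriminant (multiplied by 27) -/
def Qr.disc : K := 4 * g.I ^ 3 - g.J ^ 2

/-- the covariant of degree 4 (a multiple of the Hessian) -/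
def Qr.h (x : K) : K := (3 * g.b ^ 2 - 8 * g.a * g.c) * x ^ 4 +
  4 * (g.b * g.c - 6 * g.a * g.d) * x ^ 3 +
  2 * (2 * g.c ^ 2 - 24 * g.a * g.e - 3 * g.b * g.d) * x ^ 2 +
  4 * (g.c * g.d - 6 * g.b * g.e) * x + (3 * g.d ^ 2 - 8 * g.c * g.e)

/-- the covariant of degree 6 -/
def Qr.t (x : K) : K := (g.b ^ 3 + 8 * g.a ^ 2 * g.d - 4 * g.a * g.b * g.c) * x ^ 6 +
  2 * (16 * g.a ^ 2 * g.e + 2 * g.a * g.b * g.d - 4 * g.a * g.c ^ 2 + g.b ^ 2 * g.c) * x ^ 5 +
  5 * (8 * g.a * g.b * g.e + g.b ^ 2 * g.d - 4 * g.a * g.c * g.d) * x ^ 4 +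
  20 * (g.b ^ 2 * g.e - g.a * g.d ^ 2) * x ^ 3 -
  5 * (8 * g.a * g.d * g.e + g.b * g.d ^ 2 - 4 * g.b * g.c * g.e) * x ^ 2 -
  2 * (16 * g.a * g.e ^ 2 + 2 * g.b * g.d * g.e - 4 * g.c ^ 2 * g.e + g.c * g.d ^ 2) * x -
  (g.d ^ 3 + 8 * g.b * g.e ^ 2 - 4 * g.c * g.d * g.e)

/-- the image of a quartic form -/
def Qr.map {L : Type} (φ : K → L) : Qr L := ⟨φ g.a, φ g.b, φ g.c, φ g.d, φ g.e⟩

/-- the syzygy: `(h / g, t / y ^ 3)`, `y ^ 2 = g`, lies on the curve `27 w² = x³ - 48 I x - 64 J` -/
theorem Qr.syz (x : K) : 27 * g.t x ^ 2 =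
    g.h x ^ 3 - 48 * g.I * g.ev x ^ 2 * g.h x - 64 * g.J * g.ev x ^ 3 := by
  unfold Qr.t Qr.h Qr.I Qr.J Qr.ev
  ring

end Quartic

/-! ### Forms of degree (2, 2) -/

/-- a form of degree `(2, 2)`; `e i j` is the coefficient of `X ^ i * Y ^ j` -/
abbrev Bq (K : Type) : Type := Fin 3 → Fin 3 → K

/-- the monomials `x ^ i` of degree 2 in the homogeneous coordinates of `x` -/
def mon {K : Type} [Field K] (x : Option K) (i : Fin 3) : K :=
  fst x ^ (i : ℕ) * snd x ^ (2 - (i : ℕ))

section BiquadraticRing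

variable {K : Type} [CommRing K] (e : Bq K)

/-- the coefficient of `Y ^ j` at the point `x` -/
def Bq.co (j : Fin 3) (x : K) : K := e 2 j * x ^ 2 + e 1 j * x + e 0 j

/-- the discriminant of the form as a quadratic form in `Y`: `(co 1)² - 4 (co 2) (co 0)` -/
def Bq.G : Qr K where
  a := e 2 1 ^ 2 - 4 * (e 2 2 * e 2 0)
  b := 2 * e 2 1 * e 1 1 - 4 * (e 2 2 * e 1 0 + e 1 2 * e 2 0)
  c := e 1 1 ^ 2 + 2 * e 2 1 * e 0 1 - 4 * (e 2 2 * e 0 0 + e 1 2 * e 1 0 + e 0 2 * e 2 0)
  d := 2 * e 1 1 * e 0 1 - 4 * (e 1 2 * e 0 0 + e 0 2 * e 1 0)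
  e := e 0 1 ^ 2 - 4 * (e 0 2 * e 0 0)

theorem Bq.ev_G (x : K) : e.G.ev x = e.co 1 x ^ 2 - 4 * (e.co 2 x * e.co 0 x) := by
  unfold Bq.G Qr.ev Bq.co
  ring

end BiquadraticRing

section Biquadratic

variable {K : Type} [Field K] (e : Bq K)

/-- the value of a form of degree `(2, 2)` -/
def Bq.val (X Y : Option K) : K := ∑ i, ∑ j, e i j * (mon X i * mon Y j)

/-- the coefficient of `Y ^ j` at the point `X` -/
def Bq.hco (j : Fin 3) (X : Option K) : K := ∑ i, e i j * mon X i

theorem Bq.hco_some (j : Fin 3) (x : K) : e.hco j (some x) = e.co j x := by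
  unfold Bq.hco Bq.co mon
  simp only [Fin.sum_univ_three, HGF.fst_some, HGF.snd_some]
  simp
  ring

theorem Bq.val_eq (X Y : Option K) : e.val X Y =
    e.hco 2 X * fst Y ^ 2 + e.hco 1 X * (fst Y * snd Y) + e.hco 0 X * snd Y ^ 2 := by
  unfold Bq.val Bq.hco mon
  simp only [Fin.sum_univ_three]
  simp
  ring

theorem Bq.val_some (x y : K) :
    e.val (some x) (some y) = e.co 2 x * y ^ 2 + e.co 1 x * y + e.co 0 x := by
  unfold Bq.val Bq.co mon
  simp only [Fin.sum_univ_three, HGF.fst_some, HGF.snd_some]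
  simp
  ring

/-- for a point `(x, y)` of the curve `2 (co 2) y + co 1` is a square root of `G` -/
theorem Bq.sq_of_val {x y : K} (h : e.val (some x) (some y) = 0) :
    (2 * e.co 2 x * y + e.co 1 x) ^ 2 = e.G.ev x := by
  rw [Bq.val_some] at h
  rw [Bq.ev_G]
  linear_combination 4 * e.co 2 x * h

end Biquadratic

/-- `F` is a class function on the curve `e = 0` of degree `(2, 2)` -/
def Bq.IsCF {k : Type} [Field k] [IsAlgClosed k] [CharZero k] (e : Bq k) {W : Type} [AddCommGroup W]
    (F : Option k → Option k → W) : Prop :=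
  ∀ (K : Type) [Field K] [Algebra k K] (hK : IsCurve k K) (X Y : Option K) (g : K), g ≠ 0 →
    Bq.val (fun i j => algebraMap k K (e i j)) X Y = 0 →
    ((TInc.dv hK g).sum fun v a => a • F (vlo v X) (vlo v Y)) = 0

/-! ### Forms of degree (2, 2, 2, 2) -/

/-- a form of degree `(2, 2, 2, 2)`; `f i j i' j'` is the coefficient of `s ^ i t ^ j X ^ i' Y ^ j'` -/
abbrev Cf (k : Type) : Type := Fin 3 → Fin 3 → Bq k

/-- the form of degree `(2, 2)` over the point `(s, t)` -/
def Cf.at {k : Type} [Field k] (f : Cf k) {K : Type} [Field K] [Algebra k K] (s t : Option K) :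
    Bq K := fun i j => ∑ a, ∑ b, algebraMap k K (f a b i j) * (mon s a * mon t b)

/-- the form of degree `(2, 2)` over the finite point `(s, t)`, over a ring -/
def Cf.atR {k : Type} [Field k] (f : Cf k) {R : Type} [CommRing R] [Algebra k R] (s t : R) : Bq R :=
  fun i j => ∑ a : Fin 3, ∑ b : Fin 3, algebraMap k R (f a b i j) * (s ^ (a : ℕ) * t ^ (b : ℕ))

theorem Cf.at_some {k : Type} [Field k] (f : Cf k) {K : Type} [Field K] [Algebra k K] (s t : K) :
    f.at (some s) (some t) = f.atR s t := by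
  funext i j
  unfold Cf.at Cf.atR mon
  simp only [HGF.fst_some, HGF.snd_some, one_pow, mul_one]

/-- `F` is a class function on the hypersurface `f = 0` of degree `(2, 2, 2, 2)` -/
def Cf.IsCF {k : Type} [Field k] [IsAlgClosed k] [CharZero k] (f : Cf k) {W : Type}
    [AddCommGroup W] (F : Option k → Option k → Option k → Option k → W) : Prop :=
  ∀ (K : Type) [Field K] [Algebra k K] (hK : IsCurve k K) (s t X Y : Option K) (g : K), g ≠ 0 →
    (f.at s t).val X Y = 0 →
    ((TInc.dv hK g).sum fun v a => a • F (vlo v s) (vlo v t) (vlo v X) (vlo v Y)) = 0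

/-- the point `p / x` -/
def inv {K : Type} [Field K] (p : K) (x : Option K) : Option K := by
  classical
  exact match x with
    | none => some 0
    | some f => if f = 0 then none else some (p / f)

/-- The values of `F` at the two points `(X, Y)`, `(X, Y')` of the curve `e = 0` with the same coordinate
`X` have the sum zero. (The quadratic form in `Y` over `X` is not zero and has the zeros `Y`, `Y'`;
`Y = Y'` is allowed.) -/
def Bar {k : Type} [Field k] (e : Bq k) {W : Type} [AddCommGroup W] (F : Option k → Option k → W) :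
    Prop :=
  ∀ (X Y Y' : Option k) (κ : k), κ ≠ 0 → e.hco 2 X = κ * (snd Y * snd Y') →
    e.hco 1 X = -(κ * (fst Y * snd Y' + snd Y * fst Y')) → e.hco 0 X = κ * (fst Y * fst Y') →
    F X Y + F X Y' = 0

/-- The data of the theorem: a form `f` of degree `(2, 2, 2, 2)` which is invariant under
`(s, t, X, Y) ↦ (t, s, p / X, q / Y)`, and a class function on the hypersurface `f = 0` which is zero
for `X = 0, ∞` and `Y = 0, ∞`, and whose values at the two points with the same `s`, `t`, `X` have the sum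
zero. -/
structure Dat {k : Type} [Field k] [IsAlgClosed k] [CharZero k] (f : Cf k) (p q : k) {W : Type}
    [AddCommGroup W] [Module ℚ W] (F : Option k → Option k → Option k → Option k → W) : Prop where
  p0 : p ≠ 0
  q0 : q ≠ 0
  sym : ∀ a b i j : Fin 3, p ^ (i : ℕ) * q ^ (j : ℕ) * f b a i j = p * q * f a b (Fin.rev i) (Fin.rev j)
  cf : f.IsCF F
  bdry : ∀ s t X Y, (f.at s t).val X Y = 0 →
    (X = none ∨ X = some 0 ∨ Y = none ∨ Y = some 0) → F s t X Y = 0
  bar : ∀ s t : Option k, Bar (f.at s t) (F s t)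

/-- THEOREM (file `Core`): the sum of the values at a point and at its image is zero. -/
def Concl {k : Type} [Field k] (f : Cf k) (p q : k) {W : Type} [AddCommGroup W]
    (F : Option k → Option k → Option k → Option k → W) : Prop :=
  ∀ s t X Y, (f.at s t).val X Y = 0 → F s t X Y + F t s (inv p X) (inv q Y) = 0

end Pool.Agent.GOC
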