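import Pool.Agent.GOC.Defs

/-!
# The second theorem on hypersurfaces of degree (2, 2, 2, 2): definitions
-/

set_option autoImplicit false

noncomputable section

namespace Pool.Agent.GOC

/-- The data of the second theorem: a form `f` of degree `(2, 2, 2, 2)` which is invariant under
`(s, t, X, Y) ↦ (t, s, Y, X)`, and a class function on the hypersurface `f = 0` whose values at the two
points with the same `s`, `t`, `X` have the sum zero, and also at the two points with the same `s`, `t`,
`Y`. -/
structure Dat2 {k : Type} [Field k] [IsAlgClosed k] [CharZero k] (f : Cf k) {W : Type}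
    [AddCommGroup W] [Module ℚ W] (F : Option k → Option k → Option k → Option k → W) : Prop where
  sym : ∀ a b i j : Fin 3, f a b i j = f b a j i
  cf : f.IsCF F
  barY : ∀ s t : Option k, Bar (f.at s t) (F s t)
  barX : ∀ s t : Option k, Bar (fun i j => f.at s t j i) fun Y X => F s t X Y

/-- THEOREM (file `Core2`): the values at a point and at its image are equal. -/
def Concl2 {k : Type} [Field k] (f : Cf k) {W : Type}
    (F : Option k → Option k → Option k → Option k → W) : Prop :=
  ∀ s t X Y, (f.at s t).val X Y = 0 → F s t X Y = F t s Y X

end Pool.Agent.GOC
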