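import Pool.Agent.GOC.BarV

/-!
# Homogeneous polynomials on a line
-/

set_option autoImplicit false
set_option linter.unusedSectionVars false

noncomputable section

namespace Pool.Agent.GOC

open Pool.Agent.ZCyc Pool.Agent.Dess Pool.Agent.GT Pool.Agent.TInc

variable {k : Type} [Field k]

theorem aeval_sum {R : Type} [CommRing R] [Algebra k R] (P : MvPolynomial (Fin 3) k)
    (e : Fin 3 → R) : MvPolynomial.aeval e P =
      ∑ d ∈ P.support, algebraMap k R (P.coeff d) * (e 0 ^ d 0 * e 1 ^ d 1 * e 2 ^ d 2) := by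
  rw [MvPolynomial.aeval_def, MvPolynomial.eval₂_eq']
  refine Finset.sum_congr rfl fun d _ => ?_
  rw [Fin.prod_univ_three]

theorem hom_deg {P : MvPolynomial (Fin 3) k} {n : ℕ} (hP : P.IsHomogeneous n) {d : Fin 3 →₀ ℕ}
    (hd : d ∈ P.support) : d 0 + d 1 + d 2 = n := by
  have h := hP (MvPolynomial.mem_support_iff.1 hd)
  rw [Finsupp.weight_apply, Finsupp.sum_fintype _ _ (by simp), Fin.sum_univ_three] at h
  simpa using h

/-- values -/
theorem at_aeval {K : Type} [Field K] [Algebra k K] {v : Place k K} (P : MvPolynomial (Fin 3) k)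
    {e : Fin 3 → K} {e' : Fin 3 → k} (h : VA v e e') :
    v.At (MvPolynomial.aeval e P) (MvPolynomial.aeval e' P) := by
  rw [aeval_sum, aeval_sum]
  refine Place.At.sum fun d _ => ?_
  exact (Place.at_const _).mul ((((h 0).pow _).mul ((h 1).pow _)).mul ((h 2).pow _))

/-- multiples -/
theorem aeval_smul {R : Type} [CommRing R] [Algebra k R] {P : MvPolynomial (Fin 3) k} {n : ℕ}
    (hP : P.IsHomogeneous n) (c : R) (e : Fin 3 → R) :
    MvPolynomial.aeval (fun i => c * e i) P = c ^ n * MvPolynomial.aeval e P := by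
  rw [aeval_sum, aeval_sum, Finset.mul_sum]
  refine Finset.sum_congr rfl fun d hd => ?_
  rw [← hom_deg hP hd]
  ring

/-- the leading coefficient on a line -/
theorem line_coeff {P : MvPolynomial (Fin 3) k} {n : ℕ} (hP : P.IsHomogeneous n)
    (E v : Fin 3 → k) :
    (MvPolynomial.aeval (fun i => Polynomial.C (E i) + Polynomial.C (v i) * Polynomial.X)
      P).natDegree ≤ n ∧
    (MvPolynomial.aeval (fun i => Polynomial.C (E i) + Polynomial.C (v i) * Polynomial.X)
      P).coeff n = MvPolynomial.aeval v P := by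
  have hl : ∀ i, (Polynomial.C (E i) + Polynomial.C (v i) * Polynomial.X).natDegree ≤ 1 := by
    intro i
    compute_degree
  have hc : ∀ i, (Polynomial.C (E i) + Polynomial.C (v i) * Polynomial.X).coeff 1 = v i := by
    intro i
    simp [Polynomial.coeff_C]
  have hp : ∀ i (m : ℕ), ((Polynomial.C (E i) + Polynomial.C (v i) * Polynomial.X) ^ m).natDegree ≤
      m := by
    intro i m
    refine Polynomial.natDegree_pow_le.trans ?_
    calc m * _ ≤ m * 1 := Nat.mul_le_mul_left _ (hl i)
      _ = m := mul_one m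
  have hpc : ∀ i (m : ℕ), ((Polynomial.C (E i) + Polynomial.C (v i) * Polynomial.X) ^ m).coeff m =
      v i ^ m := by
    intro i m
    have h := Polynomial.coeff_pow_of_natDegree_le (m := m) (hl i)
    rw [mul_one, hc] at h
    exact h
  rw [aeval_sum, aeval_sum]
  constructor
  · refine Polynomial.natDegree_sum_le_of_forall_le _ _ fun d hd => ?_
    rw [← hom_deg hP hd]
    refine (Polynomial.natDegree_C_mul_le _ _).trans ?_
    refine Polynomial.natDegree_mul_le.trans (Nat.add_le_add ?_ (hp 2 _))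
    exact Polynomial.natDegree_mul_le.trans (Nat.add_le_add (hp 0 _) (hp 1 _))
  · rw [Polynomial.finsetSum_coeff]
    refine Finset.sum_congr rfl fun d hd => ?_
    have e1 : algebraMap k (Polynomial k) (P.coeff d) = Polynomial.C (P.coeff d) := rfl
    have e2 : algebraMap k k (P.coeff d) = P.coeff d := rfl
    rw [e1, e2, Polynomial.coeff_C_mul, ← hom_deg hP hd]
    congr 1
    rw [Polynomial.coeff_mul_add_eq_of_natDegree_le
      (Polynomial.natDegree_mul_le.trans (Nat.add_le_add (hp 0 _) (hp 1 _))) (hp 2 _),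
      Polynomial.coeff_mul_add_eq_of_natDegree_le (hp 0 _) (hp 1 _), hpc, hpc, hpc]

/-- evaluation on a line -/
theorem line_aeval {R : Type} [CommRing R] [Algebra k R] (P : MvPolynomial (Fin 3) k)
    (E v : Fin 3 → k) (u : R) :
    Polynomial.aeval u (MvPolynomial.aeval
      (fun i => Polynomial.C (E i) + Polynomial.C (v i) * Polynomial.X) P) =
    MvPolynomial.aeval (fun i => algebraMap k R (E i) + algebraMap k R (v i) * u) P := by
  rw [aeval_sum, aeval_sum, map_sum]
  refine Finset.sum_congr rfl fun d _ => ?_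
  simp [Polynomial.aeval_C]

/-- a complement of a vector -/
theorem exists_compl {E : Fin 3 → k} (h : E ≠ 0) : ∃ v w : Fin 3 → k, ∀ a b c : k,
    (∀ i, a * v i + b * w i = c * E i) → a = 0 ∧ b = 0 := by
  obtain ⟨i, hi⟩ : ∃ i, E i ≠ 0 := by
    by_contra h1
    push Not at h1
    exact h (funext h1)
  fin_cases i
  · refine ⟨![0, 1, 0], ![0, 0, 1], fun a b c hc => ?_⟩
    have h0 := hc 0
    have h1 := hc 1
    have h2 := hc 2
    simp only [Matrix.cons_val, mul_zero, add_zero, zero_add, mul_one] at h0 h1 h2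
    have hc0 : c = 0 := (mul_eq_zero.1 h0.symm).resolve_right hi
    rw [hc0] at h1 h2
    exact ⟨by simpa using h1, by simpa using h2⟩
  · refine ⟨![1, 0, 0], ![0, 0, 1], fun a b c hc => ?_⟩
    have h0 := hc 0
    have h1 := hc 1
    have h2 := hc 2
    simp only [Matrix.cons_val, mul_zero, add_zero, zero_add, mul_one] at h0 h1 h2
    have hc0 : c = 0 := (mul_eq_zero.1 h1.symm).resolve_right hi
    rw [hc0] at h0 h2
    exact ⟨by simpa using h0, by simpa using h2⟩
  · refine ⟨![1, 0, 0], ![0, 1, 0], fun a b c hc => ?_⟩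
    have h0 := hc 0
    have h1 := hc 1
    have h2 := hc 2
    simp only [Matrix.cons_val, mul_zero, add_zero, zero_add, mul_one] at h0 h1 h2
    have hc0 : c = 0 := (mul_eq_zero.1 h2.symm).resolve_right hi
    rw [hc0] at h0 h1
    exact ⟨by simpa using h0, by simpa using h1⟩

/-- the coefficients of the Hessian covariant -/
def hcf {K : Type} [CommRing K] (g : Fin 5 → K) : Fin 5 → K :=
  ![3 * g 1 ^ 2 - 8 * g 2 * g 0, 4 * (g 2 * g 1 - 6 * g 3 * g 0),
    2 * (2 * g 2 ^ 2 - 24 * g 4 * g 0 - 3 * g 3 * g 1), 4 * (g 3 * g 2 - 6 * g 4 * g 1),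
    3 * g 3 ^ 2 - 8 * g 4 * g 2]

/-- a point with a given value of `3 H / (4 G)` -/
theorem exists_fibre {K : Type} [Field K] [IsAlgClosed K] (g : Fin 5 → K) (c : K) :
    ∃ x : Fin 2 → K, x ≠ 0 ∧ 3 * Hq g x = 4 * c * Gq g x := by
  obtain ⟨x, hx, h⟩ := exists_zero (fun i => 3 * hcf g i - 4 * c * g i)
  refine ⟨x, hx, ?_⟩
  have e : Gq (fun i => 3 * hcf g i - 4 * c * g i) x = 3 * Hq g x - 4 * c * Gq g x := by
    simp only [Gq, Hq, hcf, Matrix.cons_val]
    ring
  rw [e] at h
  linear_combination h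

/-- common zeros of `G` and `H` -/
theorem disc_of_zero {K : Type} [Field K] [CharZero K] {g : Fin 5 → K} {x : Fin 2 → K}
    (hx : x ≠ 0) (h : Gq g x = 0) (h' : Hq g x = 0) : Dq g = 0 := by
  obtain ⟨y, hy⟩ := exists_dt hx
  have h1 := Dq_basis g x y
  have h2 := Hq_left g x y
  rw [hy, one_pow, one_mul] at h1 h2
  rw [h', pl4, h] at h2
  have h3 : pl g x y 3 = 0 := by
    have h4 : 3 * pl g x y 3 ^ 2 = 0 := by linear_combination -h2
    have h5 := (mul_eq_zero.1 h4).resolve_left (by norm_num)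
    exact pow_eq_zero_iff two_ne_zero |>.1 h5
  rw [← h1]
  unfold Dq Iq Jq
  rw [h3, pl4, h]
  ring

end Pool.Agent.GOC
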