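import Pool.Agent.GOC.Two
import Pool.Agent.GOC.Hom

/-!
# The image of a point in the Jacobian
-/

set_option autoImplicit false
set_option linter.unusedSectionVars false

noncomputable section

namespace Pool.Agent.GOC

open Pool.Agent.ZCyc Pool.Agent.Dess Pool.Agent.GT Pool.Agent.TInc
open Pool.Agent.VFP (Om tt)
open Pool.Agent.HGF (fst snd vlo)

variable {k : Type} [Field k] [IsAlgClosed k] [CharZero k] {W : Type} [AddCommGroup W] [Module ℚ W]
  {f : Cf k} {F : Option k → Option k → Option k → Option k → W} {p q : k}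

/-- The relations of a point which define its image in the Jacobian. -/
structure Img {K : Type} [CommRing K] (g : Fin 5 → K) (X : Fin 2 → K) (y x w : K) : Prop where
  sq : y ^ 2 = Gq g X
  one : 3 * Hq g X = 4 * x * y ^ 2
  two : 27 * Tq g X = 8 * w * y ^ 3

/-- the values of the relations -/
theorem img_lim {K : Type} [Field K] [Algebra k K] {v : Place k K} {S T X : Fin 2 → K}
    {s t x : Fin 2 → k} {a b d y x' γ : K} {y₁ c x₀ w₀ : k} (hS : VA v (fun i => a * S i) s)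
    (hT : VA v (fun i => b * T i) t) (hX : VA v (fun i => d * X i) x)
    (hy : v.At ((a * b) ^ 2 * d ^ 2 * y) y₁) (hc : v.At (a * b) c) (hx : v.At x' x₀)
    (hγ : v.At γ w₀) (h : Img (f.vg S T) X y x' γ) :
    y₁ ^ 2 = Gq (f.vg s t) x ∧ 3 * Hq (f.vg s t) x = 4 * x₀ * c ^ 4 * y₁ ^ 2 ∧
      27 * Tq (f.vg s t) x = 8 * w₀ * c ^ 6 * y₁ ^ 3 := by
  have hg := at_vg (f := f) hS hT
  rw [Cf.vg_smul] at hg
  refine ⟨?_, ?_, ?_⟩
  · have h1 := at_Gq hg hX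
    rw [Gq_smul, Gq_mul, ← h.sq] at h1
    have h2 := hy.pow 2
    have h3 : ((a * b) ^ 2 * d ^ 2 * y) ^ 2 = d ^ 4 * ((a * b) ^ 4 * y ^ 2) := by ring
    rw [h3] at h2
    exact h2.unique h1
  · have h1 := (at_num 3).mul (at_Hq hg hX)
    rw [Hq_smul, Hq_mul] at h1
    have h2 := (((at_num 4).mul hx).mul (hc.pow 4)).mul (hy.pow 2)
    have h3 : 4 * x' * (a * b) ^ 4 * ((a * b) ^ 2 * d ^ 2 * y) ^ 2 =
        3 * (d ^ 4 * (((a * b) ^ 4) ^ 2 * Hq (f.vg S T) X)) := by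
      linear_combination (-(d ^ 4 * (a * b) ^ 8)) * h.one
    rw [h3] at h2
    exact h1.unique h2
  · have h1 := (at_num 27).mul (at_Tq hg hX)
    rw [Tq_smul, Tq_mul] at h1
    have h2 := (((at_num 8).mul hγ).mul (hc.pow 6)).mul (hy.pow 3)
    have h3 : 8 * γ * (a * b) ^ 6 * ((a * b) ^ 2 * d ^ 2 * y) ^ 3 =
        27 * (d ^ 6 * (((a * b) ^ 4) ^ 3 * Tq (f.vg S T) X)) := by
      linear_combination (-(d ^ 6 * (a * b) ^ 12)) * h.two
    rw [h3] at h2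
    exact h1.unique h2

/-- the square root is not zero -/
theorem img_ne {g : Fin 5 → k} {X : Fin 2 → k} {y x₀ w₀ : k} (hD : Dq g ≠ 0) (hX : X ≠ 0)
    (i : Img g X y x₀ w₀) : y ≠ 0 := by
  rintro rfl
  apply hD
  apply disc_of_zero hX
  · rw [← i.sq]
    ring
  · have h1 := i.one
    rw [zero_pow two_ne_zero, mul_zero] at h1
    exact (mul_eq_zero.1 h1).resolve_left (by norm_num)

/-- points with the same image -/
theorem img_eq (h : DatV f F) {S T X₁ X₂ Y₁ Y₂ : Fin 2 → k} {y₁ y₂ x₀ w₀ : k} (hS : S ≠ 0)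
    (hT : T ≠ 0) (hX₁ : X₁ ≠ 0) (hX₂ : X₂ ≠ 0) (hD : Dq (f.vg S T) ≠ 0)
    (k1 : f.Ker S T X₁ y₁ Y₁) (k2 : f.Ker S T X₂ y₂ Y₂) (hw : w₀ ≠ 0)
    (i1 : Img (f.vg S T) X₁ y₁ x₀ w₀) (i2 : Img (f.vg S T) X₂ y₂ x₀ w₀) :
    FV F S T X₁ Y₁ = FV F S T X₂ Y₂ := by
  have hy1 := img_ne hD hX₁ i1
  have hy2 := img_ne hD hX₂ i2
  have h3 : (3 : k) ≠ 0 := by norm_num
  have h27 : (27 : k) ≠ 0 := by norm_num
  apply two h hS hT hX₁ hX₂ hD k1 i1.sq k2 i2.sq hy1 hy2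
  · intro h0
    have h1 := i1.two
    rw [h0, mul_zero] at h1
    have h2 : 8 * w₀ * y₁ ^ 3 ≠ 0 :=
      mul_ne_zero (mul_ne_zero (by norm_num) hw) (pow_ne_zero 3 hy1)
    exact h2 h1.symm
  · apply mul_left_cancel₀ h3
    linear_combination y₂ ^ 2 * i1.one - y₁ ^ 2 * i2.one
  · apply mul_left_cancel₀ h27
    linear_combination y₂ ^ 3 * i1.two - y₁ ^ 3 * i2.two

/-- scaling of the coordinates `S`, `T` -/
theorem ker_scale {S T x w s t : Fin 2 → k} {μ ν c y₁ x₀ w₀ : k} (hs : s ≠ 0) (ht : t ≠ 0)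
    (es1 : s = fun i => μ * S i) (es2 : t = fun i => ν * T i) (hc : c = μ * ν)
    (k1 : f.Ker s t x y₁ w) (h : y₁ ^ 2 = Gq (f.vg s t) x ∧
      3 * Hq (f.vg s t) x = 4 * x₀ * c ^ 4 * y₁ ^ 2 ∧
      27 * Tq (f.vg s t) x = 8 * w₀ * c ^ 6 * y₁ ^ 3) :
    f.Ker S T x (y₁ / c ^ 2) w ∧ Img (f.vg S T) x (y₁ / c ^ 2) x₀ w₀ := by
  have hμ := smul_ne hs es1
  have hν := smul_ne ht es2
  have hc0 : c ≠ 0 := by
    rw [hc]
    exact mul_ne_zero hμ hν
  obtain ⟨h1, h2, h3⟩ := h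
  constructor
  · have k2 := k1.smul (c := μ⁻¹) (d := ν⁻¹) (r := 1) (e := 1) one_ne_zero
    have e1 : (fun i => μ⁻¹ * s i) = S := by
      rw [es1]
      funext i
      field_simp
    have e2 : (fun i => ν⁻¹ * t i) = T := by
      rw [es2]
      funext i
      field_simp
    have e3 : (μ⁻¹ * ν⁻¹) ^ 2 * 1 ^ 2 * y₁ = y₁ / c ^ 2 := by
      rw [hc]
      field_simp
    rw [e1, e2, e3] at k2
    simpa using k2
  · rw [es1, es2, Cf.vg_smul, ← hc] at h1 h2 h3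
    rw [Gq_mul] at h1
    rw [Hq_mul] at h2
    rw [Tq_mul] at h3
    refine ⟨?_, ?_, ?_⟩
    · rw [div_pow, h1]
      field_simp
    · rw [div_pow]
      field_simp
      apply mul_left_cancel₀ (pow_ne_zero 4 hc0)
      linear_combination h2
    · rw [div_pow]
      field_simp
      apply mul_left_cancel₀ (pow_ne_zero 6 hc0)
      linear_combination h3

end Pool.Agent.GOC
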