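import Pool.Agent.GOC.Bas

/-!
# Two points with the same image for the two projections: the equations
-/

set_option autoImplicit false
set_option linter.unusedSectionVars false

noncomputable section

namespace Pool.Agent.GOC

section

variable {K : Type} [Field K] [CharZero K]

/-- the algebraic part -/
theorem uv_eq {a c e m n u v α β ω : K} (hω : ω ≠ 0)
    (hα : α = 2 * e - 4 * u * a) (hβ : β = 2 * e - 4 * v * a)
    (hx : 3 * α ^ 2 - 8 * (e ^ 2 + 2 * v * n * m - 4 * a * c - 4 * u * m * n) =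
      3 * β ^ 2 - 8 * (e ^ 2 + 2 * n * u * m - 4 * a * c - 4 * m * v * n))
    (h1 : α ^ 3 + 8 * m * (2 * v * n * e - 4 * c * n) -
      4 * α * (e ^ 2 + 2 * v * n * m - 4 * a * c - 4 * u * m * n) = ω)
    (h2 : β ^ 3 + 8 * n * (2 * e * u * m - 4 * m * c) -
      4 * β * (e ^ 2 + 2 * n * u * m - 4 * a * c - 4 * m * v * n) = ω) : v = u := by
  subst hα hβ
  by_contra hne
  have hd : v - u ≠ 0 := sub_ne_zero.2 hne
  have hB : a * (2 * e - 4 * u * a + (2 * e - 4 * v * a)) - 4 * (m * n) = 0 := by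
    apply (mul_eq_zero.1 (?_ : 12 * (v - u) * _ = 0)).resolve_left
      (mul_ne_zero (by norm_num) hd)
    linear_combination hx
  apply hω
  apply (mul_eq_zero.1 (?_ : 2 * ω = 0)).resolve_left two_ne_zero
  linear_combination (-1) * h1 - h2 - (4 * e * (u + v) - 16 * c -
    2 * (v * (2 * e - 4 * u * a) + u * (2 * e - 4 * v * a)) +
    4 * (u * (2 * e - 4 * u * a) + v * (2 * e - 4 * v * a))) * hB

end

end Pool.Agent.GOC
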