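import Pool.Agent.GOC.BarV

/-!
# The pencil of a decomposition `G = Q ² + κ N ²`
-/

set_option autoImplicit false
set_option linter.unusedSectionVars false

noncomputable section

namespace Pool.Agent.GOC

open Pool.Agent.ZCyc Pool.Agent.Dess Pool.Agent.GT Pool.Agent.TInc
open Pool.Agent.VFP (Om tt)
open Pool.Agent.HGF (fst snd vlo)

variable {k : Type} [Field k] [IsAlgClosed k] [CharZero k] {W : Type} [AddCommGroup W] [Module ℚ W]
  {f : Cf k} {F : Option k → Option k → Option k → Option k → W} {p q : k}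

theorem smul_ne {z z' : Fin 2 → k} {r : k} (hz : z ≠ 0) (h : z = fun i => r * z' i) : r ≠ 0 := by
  rintro rfl
  apply hz
  rw [h]
  funext i
  simp

theorem pen_plus {S T X Y z w : Fin 2 → k} {Q : Fin 3 → k} {μ : k} (hS : S ≠ 0) (hT : T ≠ 0)
    (hz : z ≠ 0) (hQ : Qv Q X ≠ 0) (k1 : f.Ker S T X (Qv Q X) Y) (e : z = fun i => μ * X i)
    (k2 : f.Ker S T z (Qv Q z) w) : FV F S T z w = FV F S T X Y := by
  have hμ := smul_ne hz e
  have h1 := k1.smul (c := 1) (d := 1) (r := μ) (e := 1) one_ne_zero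
  simp only [one_mul, one_pow] at h1
  have e2 : Qv Q z = μ ^ 2 * Qv Q X := by
    rw [e, Qq_smul]
  rw [e2, e] at k2
  obtain ⟨c, hc⟩ := h1.unique (mul_ne_zero (pow_ne_zero 2 hμ) hQ) k2
  exact FV_congr (a := 1) (b := 1) hS hT hz k2.ne (by simp) (by simp) e hc

theorem pen_minus (h : DatV f F) {S T X Y z w : Fin 2 → k} {Q : Fin 3 → k} {μ : k} (hS : S ≠ 0)
    (hT : T ≠ 0) (hz : z ≠ 0) (hX : X ≠ 0) (hQ : Qv Q X ≠ 0) (k1 : f.Ker S T X (Qv Q X) Y)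
    (e : z = fun i => μ * X i) (k2 : f.Ker S T z (-Qv Q z) w) : FV F S T z w = -FV F S T X Y := by
  have hμ := smul_ne hz e
  have h1 := k1.smul (c := 1) (d := 1) (r := μ) (e := 1) one_ne_zero
  simp only [one_mul, one_pow] at h1
  have e2 : Qv Q z = μ ^ 2 * Qv Q X := by
    rw [e, Qq_smul]
  have k3 := k2
  rw [e2, e] at k3
  have h2 := bar' h hS hT (e ▸ hz) (mul_ne_zero (pow_ne_zero 2 hμ) hQ) h1 k3
  have h3 : FV F S T z w = FV F S T (fun i => μ * X i) w := by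
    rw [← e]
  have h4 : FV F S T (fun i => μ * X i) Y = FV F S T X Y := by
    refine FV_congr (a := 1) (b := 1) (c := μ) (d := 1) hS hT (e ▸ hz) k1.ne (by simp) (by simp)
      rfl (by simp)
  rw [h3, ← h4]
  exact eq_neg_of_add_eq_zero_right h2

theorem pr_ne {K : Type} [Field K] {u v : Fin 2 → K} (hu : u ≠ 0) (hv : v ≠ 0) : pr u v ≠ 0 := by
  intro h
  apply es_ne hu hv
  have h0 : u 0 * v 0 = 0 := congrFun h 0
  have h1 : -(u 1 * v 0 + u 0 * v 1) = 0 := congrFun h 1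
  have h2 : u 1 * v 1 = 0 := congrFun h 2
  funext i
  fin_cases i
  · exact h2
  · show u 0 * v 1 + u 1 * v 0 = 0
    linear_combination -h1
  · exact h0

theorem pr_smul {K : Type} [Field K] (a b : K) (u v : Fin 2 → K) :
    pr (fun i => a * u i) (fun i => b * v i) = fun i => a * b * pr u v i := by
  funext i
  fin_cases i <;> simp [pr] <;> ring

/-- **The pencil.** Let `G = Q ² + κ N ²` with `N = pr X₁ X₂`. The function `(y - Q) / N` has the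
zeros `(X_i, Q(X_i))` and the poles `(X_i, -Q(X_i))`. -/
theorem pen (h : DatV f F) {S T : Fin 2 → k} (hS : S ≠ 0) (hT : T ≠ 0) {Q : Fin 3 → k} {κ : k}
    (hκ : κ ≠ 0) {X₁ X₂ : Fin 2 → k} (hX₁ : X₁ ≠ 0) (hX₂ : X₂ ≠ 0)
    (hG : f.vg S T = sqs Q (pr X₁ X₂) κ) (h1 : Qv Q X₁ ≠ 0) (h2 : Qv Q X₂ ≠ 0)
    {Y₁ Y₂ : Fin 2 → k} (k1 : f.Ker S T X₁ (Qv Q X₁) Y₁) (k2 : f.Ker S T X₂ (Qv Q X₂) Y₂) :
    FV F S T X₁ Y₁ + FV F S T X₂ Y₂ = 0 := by
  obtain ⟨τ, hτ⟩ : ∃ τ, τ = tt k := ⟨_, rfl⟩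
  have hτ0 : τ ≠ 0 := by
    rw [hτ]
    have := VFP.tt_ne (0 : k)
    rwa [map_zero] at this
  have hτ1 : 1 - τ ≠ 0 := by
    rw [hτ]
    intro h0
    exact VFP.tt_ne (1 : k) (by rw [map_one]; linear_combination -h0)
  obtain ⟨N, hN⟩ : ∃ N, N = pr X₁ X₂ := ⟨_, rfl⟩
  rw [← hN] at hG
  have hN1 : Qv N X₁ = 0 := by
    rw [hN, Qq_pr, dt_self, zero_mul]
  obtain ⟨κ', hκ'⟩ : ∃ κ' : Om k, κ' = algebraMap k (Om k) κ := ⟨_, rfl⟩
  obtain ⟨Q', hQ'⟩ : ∃ Q' : Fin 3 → Om k, Q' = cst (Om k) Q := ⟨_, rfl⟩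
  obtain ⟨N', hN'⟩ : ∃ N' : Fin 3 → Om k, N' = cst (Om k) N := ⟨_, rfl⟩
  obtain ⟨R, hR⟩ : ∃ R : Fin 3 → Om k, R = fun i => (κ' * (1 - τ) ^ 2 - τ ^ 2) * N' i -
    2 * τ * (1 - τ) * Q' i := ⟨_, rfl⟩
  have hQR : ∀ Z, Qv R Z = (κ' * (1 - τ) ^ 2 - τ ^ 2) * Qv N' Z - 2 * τ * (1 - τ) * Qv Q' Z := by
    intro Z
    rw [hR]
    simp only [Qv]
    ring
  have hR0 : R ≠ 0 := by
    intro h0
    have e1 := hQR (cst (Om k) X₁)
    rw [h0, hN', hQ', Qq_cst, Qq_cst, hN1, map_zero, mul_zero, zero_sub] at e1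
    have e2 : Qv (0 : Fin 3 → Om k) (cst (Om k) X₁) = 0 := by simp [Qv]
    rw [e2] at e1
    have e3 : 2 * τ * (1 - τ) * algebraMap k (Om k) (Qv Q X₁) ≠ 0 := by
      refine mul_ne_zero (mul_ne_zero (mul_ne_zero two_ne_zero hτ0) hτ1) ?_
      rw [Ne, map_eq_zero]
      exact h1
    exact e3 (neg_eq_zero.1 e1.symm)
  obtain ⟨Z₁, Z₂, hZ⟩ := exists_pr R
  have hZ1 : Z₁ ≠ 0 := by
    rintro rfl
    apply hR0
    rw [← hZ]
    funext i
    fin_cases i <;> simp [pr]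
  have hZ2 : Z₂ ≠ 0 := by
    rintro rfl
    apply hR0
    rw [← hZ]
    funext i
    fin_cases i <;> simp [pr]
  have r1 : Qv R Z₁ = 0 := by rw [← hZ, Qq_pr, dt_self, zero_mul]
  have r2 : Qv R Z₂ = 0 := by rw [← hZ, Qq_pr, dt_self, mul_zero]
  obtain ⟨y, hy⟩ : ∃ y : (Fin 2 → Om k) → Om k, y = fun Z => Qv Q' Z + τ / (1 - τ) * Qv N' Z :=
    ⟨_, rfl⟩
  have hGq : ∀ Z : Fin 2 → Om k, Gq (f.vg (cst (Om k) S) (cst (Om k) T)) Z =
      Qv Q' Z ^ 2 + κ' * Qv N' Z ^ 2 := by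
    intro Z
    rw [vg_cst, hG, hQ', hN', hκ', ← Gq_sqs]
    congr 1
    funext i
    fin_cases i <;> simp [cst, sqs, map_ofNat]
  have hysq : ∀ Z, Qv R Z = 0 → y Z ^ 2 = Gq (f.vg (cst (Om k) S) (cst (Om k) T)) Z := by
    intro Z hZR
    rw [hQR] at hZR
    rw [hGq, hy]
    field_simp
    linear_combination (-Qv N' Z) * hZR
  obtain ⟨U₁, kU1⟩ := exists_ker (hysq Z₁ r1)
  obtain ⟨U₂, kU2⟩ := exists_ker (hysq Z₂ r2)
  have hQN : ∀ (Z : Fin 2 → Om k) (a : Om k), Qv Q' (fun i => a * Z i) = a ^ 2 * Qv Q' Z ∧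
      Qv N' (fun i => a * Z i) = a ^ 2 * Qv N' Z := fun Z a => ⟨Qq_smul _ _ _, Qq_smul _ _ _⟩
  -- the values
  have hval : ∀ (v : Place k (Om k)) (ε : k) (σ : k), σ ≠ 0 →
      VA v R (fun i => σ * N i) →
      (∀ Z a z, Qv R Z = 0 → VA v (fun i => a * Z i) z → v.At (a ^ 2 * y Z) (ε * Qv Q z)) →
      ∃ z₁ z₂ w₁ w₂ : Fin 2 → k, vlo v (po Z₁) = po z₁ ∧ vlo v (po Z₂) = po z₂ ∧
        vlo v (po U₁) = po w₁ ∧ vlo v (po U₂) = po w₂ ∧ z₁ ≠ 0 ∧ z₂ ≠ 0 ∧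
        f.Ker S T z₁ (ε * Qv Q z₁) w₁ ∧ f.Ker S T z₂ (ε * Qv Q z₂) w₂ ∧
        ((∃ μ ν : k, z₁ = (fun i => μ * X₁ i) ∧ z₂ = fun i => ν * X₂ i) ∨
          ∃ μ ν : k, z₁ = (fun i => μ * X₂ i) ∧ z₂ = fun i => ν * X₁ i) := by
    intro v ε σ hσ hvR hvy
    obtain ⟨a₁, z₁, s1⟩ := exists_sp v hZ1
    obtain ⟨a₂, z₂, s2⟩ := exists_sp v hZ2
    obtain ⟨e₁, w₁, y₁, t1, u1, -, m1⟩ := lim (sp_cst hS) (sp_cst hT) s1 (hysq Z₁ r1) kU1
    obtain ⟨e₂, w₂, y₂, t2, u2, -, m2⟩ := lim (sp_cst hS) (sp_cst hT) s2 (hysq Z₂ r2) kU2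
    have q1 : y₁ = ε * Qv Q z₁ := by
      rw [mul_one, one_pow, one_mul] at u1
      exact u1.unique (hvy Z₁ a₁ z₁ r1 s1.sp)
    have q2 : y₂ = ε * Qv Q z₂ := by
      rw [mul_one, one_pow, one_mul] at u2
      exact u2.unique (hvy Z₂ a₂ z₂ r2 s2.sp)
    rw [q1] at m1
    rw [q2] at m2
    refine ⟨z₁, z₂, w₁, w₂, s1.vlo, s2.vlo, t1.vlo, t2.vlo, s1.z0, s2.z0, m1, m2, ?_⟩
    have hp := at_pr s1.sp s2.sp
    rw [pr_smul, hZ] at hp
    have hN0 : (fun i => σ * N i) ≠ 0 := by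
      intro h0
      apply pr_ne hX₁ hX₂
      rw [← hN]
      funext i
      exact (mul_eq_zero.1 (congrFun h0 i)).resolve_left hσ
    have hb : VA v (fun i => 1 * R i) (fun i => σ * N i) := by
      intro i
      show v.At (1 * R i) _
      rw [one_mul]
      exact hvR i
    obtain ⟨c, -, -, hc⟩ := ratio hp hb (pr_ne s1.z0 s2.z0) hN0
    apply pr_unique (c := c * σ) s1.z0 s2.z0 hX₁ hX₂
    rw [hc, hN]
    funext i
    ring
  have hQat : ∀ (v : Place k (Om k)) (Z : Fin 2 → Om k) (a : Om k) (z : Fin 2 → k),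
      VA v (fun i => a * Z i) z → v.At (a ^ 2 * Qv Q' Z) (Qv Q z) ∧
        v.At (a ^ 2 * Qv N' Z) (Qv N z) := by
    intro v Z a z hz
    rw [← (hQN Z a).1, ← (hQN Z a).2, hQ', hN']
    exact ⟨at_Qq (at_cst Q) hz, at_Qq (at_cst N) hz⟩
  have hb := bridge (n := 2) (c₀ := 0) (c₁ := 1) (C₀ := FV F S T X₁ Y₁ + FV F S T X₂ Y₂)
    (C₁ := -(FV F S T X₁ Y₁ + FV F S T X₂ Y₂)) h.cf
    (S := fun _ => cst (Om k) S) (T := fun _ => cst (Om k) T) (X := ![Z₁, Z₂])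
    (Y := ![U₁, U₂]) (fun _ => cst_ne hS) (fun _ => cst_ne hT) ?_ ?_ ?_ ?_ ?_
  · have h4 : (2 : ℚ) • (FV F S T X₁ Y₁ + FV F S T X₂ Y₂) = 0 := by
      rw [two_smul]
      nth_rewrite 2 [hb]
      exact add_neg_cancel _
    exact (smul_eq_zero.1 h4).resolve_left two_ne_zero
  · intro j
    fin_cases j
    · exact hZ1
    · exact hZ2
  · intro j
    fin_cases j
    · exact kU1.ne
    · exact kU2.ne
  · intro j
    fin_cases j
    · exact kU1.onV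
    · exact kU2.onV
  · intro v hv
    rw [← hτ] at hv
    have hvR : VA v R (fun i => κ * N i) := by
      intro i
      rw [hR, hκ', hN', hQ']
      have e1 := ((((Place.at_const (v := v) κ).mul ((at_one.sub hv).pow 2)).sub
        (hv.pow 2)).mul (at_cst N i)).sub
        ((((at_num 2).mul hv).mul (at_one.sub hv)).mul (at_cst (K := Om k) Q i))
      have e2 : (κ * (1 - 0) ^ 2 - 0 ^ 2) * N i - 2 * 0 * (1 - 0) * Q i = κ * N i := by ring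
      rw [e2] at e1
      exact e1
    obtain ⟨z₁, z₂, w₁, w₂, v1, v2, v3, v4, n1, n2, m1, m2, hcase⟩ := hval v 1 κ hκ hvR (by
      intro Z a z _ hz
      obtain ⟨e1, e2⟩ := hQat v Z a z hz
      have e3 := e1.add ((hv.div (at_one.sub hv) (by simp)).mul e2)
      have e4 : Qv Q z + 0 / (1 - 0) * Qv N z = 1 * Qv Q z := by ring
      rw [e4] at e3
      rw [hy]
      have e5 : a ^ 2 * Qv Q' Z + τ / (1 - τ) * (a ^ 2 * Qv N' Z) =
          a ^ 2 * (Qv Q' Z + τ / (1 - τ) * Qv N' Z) := by ring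
      rw [e5] at e3
      exact e3)
    rw [one_mul] at m1 m2
    rw [Fin.sum_univ_two]
    simp only [Matrix.cons_val_zero, Matrix.cons_val_one]
    rw [(sp_cst hS).vlo, (sp_cst hT).vlo, v1, v2, v3, v4]
    show FV F S T z₁ w₁ + FV F S T z₂ w₂ = _
    rcases hcase with ⟨μ, ν, e1, e2⟩ | ⟨μ, ν, e1, e2⟩
    · rw [pen_plus hS hT n1 h1 k1 e1 m1, pen_plus hS hT n2 h2 k2 e2 m2]
    · rw [pen_plus hS hT n1 h2 k2 e1 m1, pen_plus hS hT n2 h1 k1 e2 m2, add_comm]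
  · intro v hv
    rw [← hτ] at hv
    have hvR : VA v R (fun i => -1 * N i) := by
      intro i
      rw [hR, hκ', hN', hQ']
      have e1 := ((((Place.at_const (v := v) κ).mul ((at_one.sub hv).pow 2)).sub
        (hv.pow 2)).mul (at_cst N i)).sub
        ((((at_num 2).mul hv).mul (at_one.sub hv)).mul (at_cst (K := Om k) Q i))
      have e2 : (κ * (1 - 1) ^ 2 - 1 ^ 2) * N i - 2 * 1 * (1 - 1) * Q i = -1 * N i := by ring
      rw [e2] at e1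
      exact e1
    obtain ⟨z₁, z₂, w₁, w₂, v1, v2, v3, v4, n1, n2, m1, m2, hcase⟩ :=
      hval v (-1) (-1) (neg_ne_zero.2 one_ne_zero) hvR (by
      intro Z a z hZR hz
      obtain ⟨e1, e2⟩ := hQat v Z a z hz
      have e3 := e1.neg.add ((((Place.at_const (v := v) κ).mul (at_one.sub hv)).div hv
        one_ne_zero).mul e2)
      have e4 : -Qv Q z + κ * (1 - 1) / 1 * Qv N z = -1 * Qv Q z := by ring
      rw [e4, ← hκ'] at e3
      rw [hQR] at hZR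
      have e5 : -(a ^ 2 * Qv Q' Z) + κ' * (1 - τ) / τ * (a ^ 2 * Qv N' Z) = a ^ 2 * y Z := by
        rw [hy]
        field_simp
        linear_combination a ^ 2 * hZR
      rw [e5] at e3
      exact e3)
    have n : ∀ z, -1 * Qv Q z = -Qv Q z := fun z => by ring
    rw [n] at m1 m2
    rw [Fin.sum_univ_two]
    simp only [Matrix.cons_val_zero, Matrix.cons_val_one]
    rw [(sp_cst hS).vlo, (sp_cst hT).vlo, v1, v2, v3, v4]
    show FV F S T z₁ w₁ + FV F S T z₂ w₂ = _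
    rcases hcase with ⟨μ, ν, e1, e2⟩ | ⟨μ, ν, e1, e2⟩
    · rw [pen_minus h hS hT n1 hX₁ h1 k1 e1 m1, pen_minus h hS hT n2 hX₂ h2 k2 e2 m2, neg_add]
    · rw [pen_minus h hS hT n1 hX₂ h2 k2 e1 m1, pen_minus h hS hT n2 hX₁ h1 k1 e2 m2, neg_add,
        add_comm]

end Pool.Agent.GOC
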