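import Pool.Agent.GOC.Bas
import Pool.Agent.GOC.Pen

/-!
# The pencil of forms of degree (1, 1) through two points
-/

set_option autoImplicit false
set_option linter.unusedSectionVars false

noncomputable section

namespace Pool.Agent.GOC

open Pool.Agent.ZCyc Pool.Agent.Dess Pool.Agent.GT Pool.Agent.TInc
open Pool.Agent.VFP (Om tt)
open Pool.Agent.HGF (fst snd vlo)

variable {k : Type} [Field k]

theorem lc_ne {K : Type} [Field K] {x y u : Fin 2 → K} (h : dt x y ≠ 0) (hu : u ≠ 0) :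
    lc x y u ≠ 0 := by
  intro h0
  have h1 : u 0 * x 0 + u 1 * y 0 = 0 := congrFun h0 0
  have h2 : u 0 * x 1 + u 1 * y 1 = 0 := congrFun h0 1
  apply hu
  apply vec_ext
  · apply (mul_eq_zero.1 (?_ : dt x y * u 0 = 0)).resolve_left h
    unfold dt
    linear_combination y 1 * h1 - y 0 * h2
  · apply (mul_eq_zero.1 (?_ : dt x y * u 1 = 0)).resolve_left h
    unfold dt
    linear_combination x 0 * h2 - x 1 * h1

theorem lc_smul {K : Type} [Field K] (x y u : Fin 2 → K) (a : K) :
    lc x y (fun i => a * u i) = fun i => a * lc x y u i := by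
  funext i
  unfold lc
  ring

theorem at_lc {K : Type} [Field K] [Algebra k K] {v : Place k K} {x y : Fin 2 → k}
    {U : Fin 2 → K} {u : Fin 2 → k} (h : VA v U u) :
    VA v (lc (cst K x) (cst K y) U) (lc x y u) := fun i =>
  ((h 0).mul (Place.at_const (x i))).add ((h 1).mul (Place.at_const (y i)))

theorem sp_lc {K : Type} [Field K] [Algebra k K] {v : Place k K} {x y : Fin 2 → k}
    {U : Fin 2 → K} {u : Fin 2 → k} {a : K} (hd : dt x y ≠ 0) (h : Sp v a U u) :
    Sp v a (lc (cst K x) (cst K y) U) (lc x y u) := by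
  refine ⟨h.a0, lc_ne hd h.z0, ?_⟩
  rw [← lc_smul]
  exact at_lc h.sp

theorem cc_cst {K : Type} [Field K] [Algebra k K] (e : Fin 3 → Fin 3 → k) (x y x' y' : Fin 2 → k)
    (i j : Fin 3) : cc (fun i j => algebraMap k K (e i j)) (cst K x) (cst K y) (cst K x')
      (cst K y') i j = algebraMap k K (cc e x y x' y' i j) := by
  have hb : ∀ (q : Fin 3 → k) (x y : Fin 2 → k) (i : Fin 3),
      bs (cst K x) (cst K y) (fun i => algebraMap k K (q i)) i = algebraMap k K (bs x y q i) := by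
    intro q x y i
    fin_cases i <;> simp [bs, Qv, cst, map_ofNat]
  unfold cc
  rw [← hb]
  congr 1
  funext i'
  rw [hb]

/-- the value of the form on the line of the pencil -/
theorem V2_pen {K : Type} [CommRing K] (c : Fin 3 → Fin 3 → K) (v : K) (u : Fin 2 → K)
    (h22 : c 2 2 = 0) (h00 : c 0 0 = 0) : V2 c u ![u 0, v * u 1] =
      u 0 * u 1 * Qv ![v * (c 0 1 + c 1 0 * v), c 0 2 + c 1 1 * v + c 2 0 * v ^ 2,
        c 1 2 + c 2 1 * v] u := by
  simp only [V2, Qv, Matrix.cons_val]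
  rw [h22, h00]
  ring

/-- the condition for the reducible curves -/
theorem disc_red {K : Type} [Field K] {c : Fin 3 → Fin 3 → K} (h22 : c 2 2 = 0)
    (h00 : c 0 0 = 0) (h21 : c 2 1 ≠ 0) (h12 : c 1 2 ≠ 0) (hΔ : c 2 1 * c 0 1 = c 1 0 * c 1 2)
    (hq : c 0 2 * c 2 1 ^ 2 - c 1 1 * c 1 2 * c 2 1 + c 2 0 * c 1 2 ^ 2 = 0) :
    Dq (dY c) = 0 := by
  have e1 : c 0 1 = c 1 0 * c 1 2 / c 2 1 := by
    field_simp
    linear_combination hΔ
  have e2 : c 1 1 = (c 0 2 * c 2 1 ^ 2 + c 2 0 * c 1 2 ^ 2) / (c 1 2 * c 2 1) := by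
    field_simp
    linear_combination -hq
  have h : dY c = sqs ![c 1 2 * c 1 0 / c 2 1, c 1 2 * c 2 0 / c 2 1 - c 2 1 * c 0 2 / c 1 2,
      -c 2 1] 0 0 := by
    funext i
    fin_cases i
    · simp [dY, dsc, sqs]
      rw [h00, e1]
      field_simp
      ring
    · simp [dY, dsc, sqs]
      rw [h00, e1, e2]
      field_simp
      ring
    · simp [dY, dsc, sqs]
      rw [h00, h22, e1, e2]
      field_simp
      ring
    · simp [dY, dsc, sqs]
      rw [h22, e2]
      field_simp
      ring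
    · simp [dY, dsc, sqs, h22]
  rw [h]
  exact Dq_square _ _

end Pool.Agent.GOC
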