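import Pool.Agent.GOC.LmB

/-!
# The relation of the pencil
-/

set_option autoImplicit false
set_option linter.unusedSectionVars false

noncomputable section

namespace Pool.Agent.GOC

open Pool.Agent.ZCyc Pool.Agent.Dess Pool.Agent.GT Pool.Agent.TInc
open Pool.Agent.VFP (Om tt)
open Pool.Agent.HGF (fst snd vlo)

variable {k : Type} [Field k] [IsAlgClosed k] [CharZero k] {W : Type} [AddCommGroup W] [Module ℚ W]
  {f : Cf k} {F : Option k → Option k → Option k → Option k → W}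

/-- the value in bases, up to multiples -/
theorem FV_lc {S T X₁ X₂ Y₁ Y₂ u w u' w' : Fin 2 → k} {μ ν : k} (hS : S ≠ 0) (hT : T ≠ 0)
    (hX : dt X₁ X₂ ≠ 0) (hY : dt Y₁ Y₂ ≠ 0) (hu : u ≠ 0) (hw : w ≠ 0)
    (h1 : u = fun i => μ * u' i) (h2 : w = fun i => ν * w' i) :
    FV F S T (lc X₁ X₂ u) (lc Y₁ Y₂ w) = FV F S T (lc X₁ X₂ u') (lc Y₁ Y₂ w') := by
  refine FV_congr (a := 1) (b := 1) (c := μ) (d := ν) hS hT (lc_ne hX hu) (lc_ne hY hw) (by simp)
    (by simp) ?_ ?_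
  · rw [← lc_smul, ← h1]
  · rw [← lc_smul, ← h2]

theorem lc_left {K : Type} [Field K] (x y : Fin 2 → K) : lc x y ![1, 0] = x := by
  funext i
  simp [lc]

theorem lc_right {K : Type} [Field K] (x y : Fin 2 → K) : lc x y ![0, 1] = y := by
  funext i
  simp [lc]

theorem roots_lim {v : Place k (Om k)} {U₁ U₂ : Fin 2 → Om k} {u₁ u₂ x₁ x₂ : Fin 2 → k}
    {a₁ a₂ b : Om k} {κ : k} (s1 : Sp v a₁ U₁ u₁) (s2 : Sp v a₂ U₂ u₂) (hκ : κ ≠ 0)
    (hx₁ : x₁ ≠ 0) (hx₂ : x₂ ≠ 0) (h : VA v (fun i => b * pr U₁ U₂ i) (fun i => κ * pr x₁ x₂ i)) :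
    (∃ μ ν : k, u₁ = (fun i => μ * x₁ i) ∧ u₂ = fun i => ν * x₂ i) ∨
      ∃ μ ν : k, u₁ = (fun i => μ * x₂ i) ∧ u₂ = fun i => ν * x₁ i := by
  have hp := at_pr s1.sp s2.sp
  rw [pr_smul] at hp
  have hN0 : (fun i => κ * pr x₁ x₂ i) ≠ 0 := by
    intro h0
    apply pr_ne hx₁ hx₂
    funext i
    exact (mul_eq_zero.1 (congrFun h0 i)).resolve_left hκ
  obtain ⟨c, -, -, hc⟩ := ratio hp h (pr_ne s1.z0 s2.z0) hN0
  apply pr_unique (c := c * κ) s1.z0 s2.z0 hx₁ hx₂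
  rw [hc]
  funext i
  ring

/-- **The relation.** Let `z = (X₁, Y₁)` and `z' = (X₂, Y₂)`, and suppose that a form of degree `(1, 1)`
is tangent in both points. The function (this form divided by the form which is zero for `X = X₂` and
for `Y = Y₁`) has the zeros `z`, `z'` and its poles are the other point with the same `Y` as `z` and the
other point with the same `X` as `z'`. -/
theorem tang (hF : f.IsCF F) {S T X₁ X₂ Y₁ Y₂ : Fin 2 → k} (hS : S ≠ 0) (hT : T ≠ 0)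
    (hX : dt X₁ X₂ ≠ 0) (hY : dt Y₁ Y₂ ≠ 0) {c : Fin 3 → Fin 3 → k}
    (hc : c = cc (f.vc S T) X₁ X₂ Y₁ Y₂) (h22 : c 2 2 = 0) (h00 : c 0 0 = 0) (h21 : c 2 1 ≠ 0)
    (h10 : c 1 0 ≠ 0) (h12 : c 1 2 ≠ 0) (hΔ : c 2 1 * c 0 1 = c 1 0 * c 1 2)
    (hq : c 0 2 * c 2 1 ^ 2 - c 1 1 * c 1 2 * c 2 1 + c 2 0 * c 1 2 ^ 2 ≠ 0) :
    FV F S T X₁ Y₁ + FV F S T X₂ Y₂ =
      FV F S T (lc X₁ X₂ ![-c 0 2, c 1 2]) Y₁ + FV F S T X₂ (lc Y₁ Y₂ ![-c 0 1, c 0 2]) := by
  obtain ⟨τ, hτ⟩ : ∃ τ, τ = tt k := ⟨_, rfl⟩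
  have hτ0 : τ ≠ 0 := by
    rw [hτ]
    have := VFP.tt_ne (0 : k)
    rwa [map_zero] at this
  have hτ1 : 1 - τ ≠ 0 := by
    rw [hτ]
    intro h0
    exact VFP.tt_ne (1 : k) (by rw [map_one]; linear_combination -h0)
  have h01 : c 0 1 ≠ 0 := by
    intro h0
    rw [h0, mul_zero] at hΔ
    exact mul_ne_zero h10 h12 hΔ.symm
  -- the parameter of the pencil
  obtain ⟨v₀, hv₀⟩ : ∃ v₀, v₀ = -(c 1 2 / c 2 1) := ⟨_, rfl⟩
  have hv00 : v₀ ≠ 0 := by
    rw [hv₀]
    exact neg_ne_zero.2 (div_ne_zero h12 h21)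
  obtain ⟨V, hV⟩ : ∃ V : Om k, V = (1 - τ) * algebraMap k (Om k) v₀ := ⟨_, rfl⟩
  have hV0 : V ≠ 0 := by
    rw [hV]
    exact mul_ne_zero hτ1 (by rwa [Ne, map_eq_zero])
  obtain ⟨C, hC⟩ : ∃ C : Fin 3 → Fin 3 → Om k, C = fun i j => algebraMap k (Om k) (c i j) :=
    ⟨_, rfl⟩
  have hC21 : C 2 1 ≠ 0 := by
    rw [hC]
    show algebraMap k (Om k) (c 2 1) ≠ 0
    rwa [Ne, map_eq_zero]
  obtain ⟨R, hR⟩ : ∃ R : Fin 3 → Om k, R = ![V * (C 0 1 + C 1 0 * V),
    C 0 2 + C 1 1 * V + C 2 0 * V ^ 2, C 1 2 + C 2 1 * V] := ⟨_, rfl⟩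
  have hC12 : C 1 2 + C 2 1 * V = τ * C 1 2 := by
    rw [hV, hv₀, hC]
    simp only [map_neg, map_div₀]
    have : algebraMap k (Om k) (c 2 1) ≠ 0 := by rwa [Ne, map_eq_zero]
    field_simp
    ring
  have hR0 : R ≠ 0 := by
    intro h0
    have h1 := congrFun h0 2
    rw [hR] at h1
    simp only [Matrix.cons_val, Pi.zero_apply] at h1
    rw [hC12, hC] at h1
    exact mul_ne_zero hτ0 (by rwa [Ne, map_eq_zero]) h1
  obtain ⟨U₁, U₂, hU⟩ := exists_pr R
  have hU1 : U₁ ≠ 0 := by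
    rintro rfl
    apply hR0
    rw [← hU]
    funext i
    fin_cases i <;> simp [pr]
  have hU2 : U₂ ≠ 0 := by
    rintro rfl
    apply hR0
    rw [← hU]
    funext i
    fin_cases i <;> simp [pr]
  have r1 : Qv R U₁ = 0 := by rw [← hU, Qq_pr, dt_self, zero_mul]
  have r2 : Qv R U₂ = 0 := by rw [← hU, Qq_pr, dt_self, mul_zero]
  obtain ⟨L, hL⟩ : ∃ L : (Fin 2 → Om k) → Fin 2 → Om k, L = fun U => ![U 0, V * U 1] := ⟨_, rfl⟩
  have hL0 : ∀ U : Fin 2 → Om k, U ≠ 0 → L U ≠ 0 := by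
    intro U hU0 h0
    apply hU0
    rw [hL] at h0
    have e0 : U 0 = 0 := congrFun h0 0
    have e1 : V * U 1 = 0 := congrFun h0 1
    exact vec_ext e0 ((mul_eq_zero.1 e1).resolve_left hV0)
  have hdX : dt (cst (Om k) X₁) (cst (Om k) X₂) ≠ 0 := by
    have : dt (cst (Om k) X₁) (cst (Om k) X₂) = algebraMap k (Om k) (dt X₁ X₂) := by
      simp [dt, cst]
    rw [this]
    rwa [Ne, map_eq_zero]
  have hdY : dt (cst (Om k) Y₁) (cst (Om k) Y₂) ≠ 0 := by
    have : dt (cst (Om k) Y₁) (cst (Om k) Y₂) = algebraMap k (Om k) (dt Y₁ Y₂) := by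
      simp [dt, cst]
    rw [this]
    rwa [Ne, map_eq_zero]
  have hon : ∀ U : Fin 2 → Om k, Qv R U = 0 → f.OnV (cst (Om k) S) (cst (Om k) T)
      (lc (cst (Om k) X₁) (cst (Om k) X₂) U) (lc (cst (Om k) Y₁) (cst (Om k) Y₂) (L U)) := by
    intro U hRU
    show V2 (f.vc (cst (Om k) S) (cst (Om k) T)) _ _ = 0
    have e1 : f.vc (cst (Om k) S) (cst (Om k) T) =
        fun i j => algebraMap k (Om k) (f.vc S T i j) := by
      funext i j
      exact vc_cst S T i j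
    have e2 : cc (fun i j => algebraMap k (Om k) (f.vc S T i j)) (cst (Om k) X₁) (cst (Om k) X₂)
        (cst (Om k) Y₁) (cst (Om k) Y₂) = C := by
      funext i j
      rw [cc_cst, hC, hc]
    have e3 : C 2 2 = 0 := by
      rw [hC]
      show algebraMap k (Om k) (c 2 2) = 0
      rw [h22, map_zero]
    have e4 : C 0 0 = 0 := by
      rw [hC]
      show algebraMap k (Om k) (c 0 0) = 0
      rw [h00, map_zero]
    rw [V2_lc, e1, e2, hL, V2_pen C V U e3 e4, ← hR, hRU, mul_zero]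
  have hz : ∀ v : Place k (Om k), v.At (0 : Om k) (0 : k) := by
    intro v
    have h3 := Place.at_const (v := v) (0 : k)
    rwa [map_zero] at h3
  have hCat : ∀ (v : Place k (Om k)) (i j : Fin 3), v.At (C i j) (c i j) := by
    intro v i j
    rw [hC]
    exact Place.at_const _
  have h10' : (![1, 0] : Fin 2 → k) ≠ 0 := v10_ne
  have h01' : (![0, 1] : Fin 2 → k) ≠ 0 := v01_ne
  refine bridge (n := 2) (c₀ := 0) (c₁ := 1) hF
    (S := fun _ => cst (Om k) S) (T := fun _ => cst (Om k) T)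
    (X := ![lc (cst (Om k) X₁) (cst (Om k) X₂) U₁, lc (cst (Om k) X₁) (cst (Om k) X₂) U₂])
    (Y := ![lc (cst (Om k) Y₁) (cst (Om k) Y₂) (L U₁), lc (cst (Om k) Y₁) (cst (Om k) Y₂) (L U₂)])
    (fun _ => cst_ne hS) (fun _ => cst_ne hT) ?_ ?_ ?_ ?_ ?_
  · intro j
    fin_cases j
    · exact lc_ne hdX hU1
    · exact lc_ne hdX hU2
  · intro j
    fin_cases j
    · exact lc_ne hdY (hL0 _ hU1)
    · exact lc_ne hdY (hL0 _ hU2)
  · intro j
    fin_cases j
    · exact hon _ r1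
    · exact hon _ r2
  · intro v hv
    rw [← hτ] at hv
    have hVv : v.At V v₀ := by
      have h1 := (at_one.sub hv).mul (Place.at_const (v := v) v₀)
      rw [sub_zero, one_mul] at h1
      rw [hV]
      exact h1
    obtain ⟨q₀, hq₀⟩ : ∃ q₀, q₀ = c 0 2 + c 1 1 * v₀ + c 2 0 * v₀ ^ 2 := ⟨_, rfl⟩
    have hq0 : -q₀ ≠ 0 := by
      intro h0
      apply hq
      have h1 : c 2 1 ^ 2 * q₀ = 0 := by rw [neg_eq_zero.1 h0, mul_zero]
      rw [hq₀, hv₀] at h1
      rw [← h1]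
      field_simp
      ring
    obtain ⟨a₁, u₁, s1⟩ := exists_sp v hU1
    obtain ⟨a₂, u₂, s2⟩ := exists_sp v hU2
    have hpair := roots_lim (b := 1) (κ := -q₀) s1 s2 hq0 h10' h01' (by
      rw [hU]
      intro i
      show v.At (1 * R i) _
      rw [one_mul, hR]
      fin_cases i
      · have h1 := hVv.mul ((hCat v 0 1).add ((hCat v 1 0).mul hVv))
        have h2 : v₀ * (c 0 1 + c 1 0 * v₀) = -q₀ * pr ![1, 0] ![0, 1] 0 := by
          simp only [pr, Matrix.cons_val, mul_zero]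
          rw [hv₀]
          field_simp
          linear_combination (-c 1 2) * hΔ
        rw [h2] at h1
        exact h1
      · have h1 := ((hCat v 0 2).add ((hCat v 1 1).mul hVv)).add
          ((hCat v 2 0).mul (hVv.pow 2))
        have h2 : c 0 2 + c 1 1 * v₀ + c 2 0 * v₀ ^ 2 = -q₀ * pr ![1, 0] ![0, 1] 1 := by
          simp only [pr, Matrix.cons_val]
          rw [hq₀]
          ring
        rw [h2] at h1
        exact h1
      · have h1 := (hCat v 1 2).add ((hCat v 2 1).mul hVv)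
        have h2 : c 1 2 + c 2 1 * v₀ = -q₀ * pr ![1, 0] ![0, 1] 2 := by
          simp only [pr, Matrix.cons_val, zero_mul, mul_zero]
          rw [hv₀]
          field_simp
          ring
        rw [h2] at h1
        exact h1)
    have hLsp : ∀ {U : Fin 2 → Om k} {a : Om k} {u : Fin 2 → k}, Sp v a U u →
        Sp v a (L U) ![u 0, v₀ * u 1] := by
      intro U a u s
      refine ⟨s.a0, fun h0 => s.z0 ?_, fun i => ?_⟩
      · have e0 : u 0 = 0 := congrFun h0 0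
        have e1 : v₀ * u 1 = 0 := congrFun h0 1
        exact vec_ext e0 ((mul_eq_zero.1 e1).resolve_left hv00)
      · rw [hL]
        fin_cases i
        · exact s.sp 0
        · have h1 := hVv.mul (s.sp 1)
          have h2 : V * (a * U 1) = a * (V * U 1) := by ring
          rw [h2] at h1
          exact h1
    have t1 := hLsp s1
    have t2 := hLsp s2
    rw [Fin.sum_univ_two]
    simp only [Matrix.cons_val_zero, Matrix.cons_val_one]
    rw [(sp_cst hS).vlo, (sp_cst hT).vlo, (sp_lc hX s1).vlo, (sp_lc hX s2).vlo,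
      (sp_lc hY t1).vlo, (sp_lc hY t2).vlo]
    show FV F S T (lc X₁ X₂ u₁) (lc Y₁ Y₂ _) + FV F S T (lc X₁ X₂ u₂) (lc Y₁ Y₂ _) = _
    have key1 : ∀ {u : Fin 2 → k} {μ : k}, u ≠ 0 → ![u 0, v₀ * u 1] ≠ 0 →
        (u = fun i => μ * (![1, 0] : Fin 2 → k) i) →
        FV F S T (lc X₁ X₂ u) (lc Y₁ Y₂ ![u 0, v₀ * u 1]) = FV F S T X₁ Y₁ := by
      intro u μ h1 h2 h3
      rw [FV_lc (u' := ![1, 0]) (w' := ![1, 0]) (μ := μ) (ν := μ) hS hT hX hY h1 h2 h3, lc_left,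
        lc_left]
      rw [h3]
      funext i
      fin_cases i <;> simp
    have key2 : ∀ {u : Fin 2 → k} {μ : k}, u ≠ 0 → ![u 0, v₀ * u 1] ≠ 0 →
        (u = fun i => μ * (![0, 1] : Fin 2 → k) i) →
        FV F S T (lc X₁ X₂ u) (lc Y₁ Y₂ ![u 0, v₀ * u 1]) = FV F S T X₂ Y₂ := by
      intro u μ h1 h2 h3
      rw [FV_lc (u' := ![0, 1]) (w' := ![0, 1]) (μ := μ) (ν := v₀ * μ) hS hT hX hY h1 h2 h3,
        lc_right, lc_right]
      rw [h3]
      funext i
      fin_cases i <;> simp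
    rcases hpair with ⟨μ, ν, e1, e2⟩ | ⟨μ, ν, e1, e2⟩
    · rw [key1 s1.z0 t1.z0 e1, key2 s2.z0 t2.z0 e2]
    · rw [key2 s1.z0 t1.z0 e1, key1 s2.z0 t2.z0 e2, add_comm]
  · intro v hv
    rw [← hτ] at hv
    have hVv : v.At V 0 := by
      have h1 := (at_one.sub hv).mul (Place.at_const (v := v) v₀)
      rw [sub_self, zero_mul] at h1
      rw [hV]
      exact h1
    obtain ⟨a₁, u₁, s1⟩ := exists_sp v hU1
    obtain ⟨a₂, u₂, s2⟩ := exists_sp v hU2
    obtain ⟨b₁, w₁, t1⟩ := exists_sp v (hL0 _ hU1)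
    obtain ⟨b₂, w₂, t2⟩ := exists_sp v (hL0 _ hU2)
    have hx1 : (![-c 0 2, c 1 2] : Fin 2 → k) ≠ 0 := by
      intro h0
      exact h12 (congrFun h0 1)
    have hy1 : (![-c 0 1, c 0 2] : Fin 2 → k) ≠ 0 := by
      intro h0
      exact h01 (neg_eq_zero.1 (congrFun h0 0))
    have hpx := roots_lim (b := 1) (κ := 1) s1 s2 one_ne_zero hx1 h01' (by
      rw [hU]
      intro i
      show v.At (1 * R i) _
      rw [one_mul, hR]
      fin_cases i
      · have h1 := hVv.mul ((hCat v 0 1).add ((hCat v 1 0).mul hVv))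
        have h2 : 0 * (c 0 1 + c 1 0 * 0) = 1 * pr ![-c 0 2, c 1 2] ![0, 1] 0 := by
          simp only [pr, Matrix.cons_val]
          ring
        rw [h2] at h1
        exact h1
      · have h1 := ((hCat v 0 2).add ((hCat v 1 1).mul hVv)).add
          ((hCat v 2 0).mul (hVv.pow 2))
        have h2 : c 0 2 + c 1 1 * 0 + c 2 0 * 0 ^ 2 = 1 * pr ![-c 0 2, c 1 2] ![0, 1] 1 := by
          simp only [pr, Matrix.cons_val]
          ring
        rw [h2] at h1
        exact h1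
      · have h1 := (hCat v 1 2).add ((hCat v 2 1).mul hVv)
        have h2 : c 1 2 + c 2 1 * 0 = 1 * pr ![-c 0 2, c 1 2] ![0, 1] 2 := by
          simp only [pr, Matrix.cons_val]
          ring
        rw [h2] at h1
        exact h1)
    have hpy := roots_lim (b := V⁻¹) (κ := -1) t1 t2 (neg_ne_zero.2 one_ne_zero) h10' hy1 (by
      have e0 : U₁ 0 * U₂ 0 = R 0 := congrFun hU 0
      have e1 : -(U₁ 1 * U₂ 0 + U₁ 0 * U₂ 1) = R 1 := congrFun hU 1
      have e2 : U₁ 1 * U₂ 1 = R 2 := congrFun hU 2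
      have hR0' : R 0 = V * (C 0 1 + C 1 0 * V) := by rw [hR]; rfl
      have hR1' : R 1 = C 0 2 + C 1 1 * V + C 2 0 * V ^ 2 := by rw [hR]; rfl
      have hR2' : R 2 = C 1 2 + C 2 1 * V := by rw [hR]; rfl
      intro i
      rw [hL]
      fin_cases i
      · show v.At (V⁻¹ * (U₁ 0 * U₂ 0)) _
        rw [e0, hR0', inv_mul_cancel_left₀ hV0]
        have h1 := (hCat v 0 1).add ((hCat v 1 0).mul hVv)
        have h2 : c 0 1 + c 1 0 * 0 = -1 * pr ![1, 0] ![-c 0 1, c 0 2] 0 := by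
          simp only [pr, Matrix.cons_val]
          ring
        rw [h2] at h1
        exact h1
      · show v.At (V⁻¹ * -(V * U₁ 1 * U₂ 0 + U₁ 0 * (V * U₂ 1))) _
        have h3 : V⁻¹ * -(V * U₁ 1 * U₂ 0 + U₁ 0 * (V * U₂ 1)) = R 1 := by
          rw [← e1]
          field_simp
        rw [h3, hR1']
        have h1 := ((hCat v 0 2).add ((hCat v 1 1).mul hVv)).add
          ((hCat v 2 0).mul (hVv.pow 2))
        have h2 : c 0 2 + c 1 1 * 0 + c 2 0 * 0 ^ 2 = -1 * pr ![1, 0] ![-c 0 1, c 0 2] 1 := by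
          simp only [pr, Matrix.cons_val]
          ring
        rw [h2] at h1
        exact h1
      · show v.At (V⁻¹ * (V * U₁ 1 * (V * U₂ 1))) _
        have h3 : V⁻¹ * (V * U₁ 1 * (V * U₂ 1)) = V * (U₁ 1 * U₂ 1) := by
          field_simp
        rw [h3, e2, hR2']
        have h1 := hVv.mul ((hCat v 1 2).add ((hCat v 2 1).mul hVv))
        have h2 : 0 * (c 1 2 + c 2 1 * 0) = -1 * pr ![1, 0] ![-c 0 1, c 0 2] 2 := by
          simp only [pr, Matrix.cons_val]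
          ring
        rw [h2] at h1
        exact h1)
    -- the relation between the two coordinates
    have hrel : ∀ {U : Fin 2 → Om k} {a b : Om k} {u w : Fin 2 → k}, Sp v a U u →
        Sp v b (L U) w → u 0 * w 1 = 0 := by
      intro U a b u w s t
      have h1 := (s.sp 0).mul (t.sp 1)
      have h2 := (hVv.mul (s.sp 1)).mul (t.sp 0)
      have h3 : V * (a * U 1) * (b * L U 0) = a * U 0 * (b * L U 1) := by
        rw [hL]
        simp only [Matrix.cons_val]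
        ring
      rw [h3] at h2
      have h4 := h1.unique h2
      rw [h4]
      ring
    have g1 := hrel s1 t1
    have g2 := hrel s2 t2
    rw [Fin.sum_univ_two]
    simp only [Matrix.cons_val_zero, Matrix.cons_val_one]
    rw [(sp_cst hS).vlo, (sp_cst hT).vlo, (sp_lc hX s1).vlo, (sp_lc hX s2).vlo,
      (sp_lc hY t1).vlo, (sp_lc hY t2).vlo]
    show FV F S T (lc X₁ X₂ u₁) (lc Y₁ Y₂ w₁) + FV F S T (lc X₁ X₂ u₂) (lc Y₁ Y₂ w₂) = _
    -- the final comparison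
    have fin : ∀ {u₁ u₂ w₁ w₂ : Fin 2 → k} {μ ν : k}, u₁ ≠ 0 → u₂ ≠ 0 → w₁ ≠ 0 → w₂ ≠ 0 →
        (u₁ = fun i => μ * (![-c 0 2, c 1 2] : Fin 2 → k) i) →
        (u₂ = fun i => ν * (![0, 1] : Fin 2 → k) i) → u₁ 0 * w₁ 1 = 0 →
        ((∃ μ ν : k, w₁ = (fun i => μ * (![1, 0] : Fin 2 → k) i) ∧
            w₂ = fun i => ν * (![-c 0 1, c 0 2] : Fin 2 → k) i) ∨
          ∃ μ ν : k, w₁ = (fun i => μ * (![-c 0 1, c 0 2] : Fin 2 → k) i) ∧
            w₂ = fun i => ν * (![1, 0] : Fin 2 → k) i) →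
        FV F S T (lc X₁ X₂ u₁) (lc Y₁ Y₂ w₁) + FV F S T (lc X₁ X₂ u₂) (lc Y₁ Y₂ w₂) =
          FV F S T (lc X₁ X₂ ![-c 0 2, c 1 2]) Y₁ + FV F S T X₂ (lc Y₁ Y₂ ![-c 0 1, c 0 2]) := by
      intro u₁ u₂ w₁ w₂ μ ν n1 n2 n3 n4 e1 e2 g hw
      rcases hw with ⟨α, β, e3, e4⟩ | ⟨α, β, e3, e4⟩
      · rw [FV_lc hS hT hX hY n1 n3 e1 e3, FV_lc hS hT hX hY n2 n4 e2 e4, lc_left, lc_right]
      · have hμ := smul_ne n1 e1
        have hα := smul_ne n3 e3
        have hc02 : c 0 2 = 0 := by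
          rw [e1, e3] at g
          simp only [Matrix.cons_val] at g
          have h5 : μ * α * (c 0 2 * c 0 2) = 0 := by linear_combination -g
          have h6 := (mul_eq_zero.1 h5).resolve_left (mul_ne_zero hμ hα)
          exact mul_self_eq_zero.1 h6
        have e1' : u₁ = fun i => (μ * c 1 2) * (![0, 1] : Fin 2 → k) i := by
          rw [e1, hc02]
          funext i
          fin_cases i <;> simp
        have e3' : w₁ = fun i => (α * -c 0 1) * (![1, 0] : Fin 2 → k) i := by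
          rw [e3, hc02]
          funext i
          fin_cases i <;> simp
        rw [FV_lc hS hT hX hY n1 n3 e1' e3', FV_lc hS hT hX hY n2 n4 e2 e4, lc_left, lc_right]
        have e5 : FV F S T (lc X₁ X₂ ![-c 0 2, c 1 2]) Y₁ = FV F S T X₂ Y₁ := by
          have h5 := FV_lc (F := F) (w := ![1, 0]) (w' := ![1, 0]) (u' := ![0, 1]) (μ := c 1 2)
            (ν := 1) hS hT hX hY hx1 h10' (by
              rw [hc02]
              funext i
              fin_cases i <;> simp) (by simp)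
          rw [lc_left, lc_right] at h5
          exact h5
        have e6 : FV F S T X₂ (lc Y₁ Y₂ ![-c 0 1, c 0 2]) = FV F S T X₂ Y₁ := by
          have h5 := FV_lc (F := F) (u := ![0, 1]) (u' := ![0, 1]) (w' := ![1, 0]) (μ := 1)
            (ν := -c 0 1) hS hT hX hY h01' hy1 (by simp) (by
              rw [hc02]
              funext i
              fin_cases i <;> simp)
          rw [lc_left, lc_right] at h5
          exact h5
        rw [e5, e6]
    rcases hpx with ⟨μ, ν, e1, e2⟩ | ⟨μ, ν, e1, e2⟩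
    · exact fin s1.z0 s2.z0 t1.z0 t2.z0 e1 e2 g1 hpy
    · rw [add_comm]
      refine fin s2.z0 s1.z0 t2.z0 t1.z0 e2 e1 g2 ?_
      rcases hpy with ⟨α, β, e3, e4⟩ | ⟨α, β, e3, e4⟩
      · exact Or.inr ⟨β, α, e4, e3⟩
      · exact Or.inl ⟨β, α, e4, e3⟩

end Pool.Agent.GOC
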