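import Pool.Agent.GOC.LmA
import Pool.Agent.GOC.LmC
import Pool.Agent.GOC.Img

/-!
# Two points with the same image for the two projections
-/

set_option autoImplicit false
set_option linter.unusedSectionVars false

noncomputable section

namespace Pool.Agent.GOC

open Pool.Agent.ZCyc Pool.Agent.Dess Pool.Agent.GT Pool.Agent.TInc
open Pool.Agent.VFP (Om tt)
open Pool.Agent.HGF (fst snd vlo)

section ring

variable {K : Type} [CommRing K]

theorem cc_row2 (e : Fin 3 → Fin 3 → K) (x y x' y' : Fin 2 → K) (j : Fin 3) :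
    cc e x y x' y' 2 j = bs x' y' (fun j' => Qv (fun i => e i j') x) j := by
  fin_cases j <;> simp [cc, bs, Qv] <;> ring

theorem cc_row0 (e : Fin 3 → Fin 3 → K) (x y x' y' : Fin 2 → K) (j : Fin 3) :
    cc e x y x' y' 0 j = bs x' y' (fun j' => Qv (fun i => e i j') y) j := by
  fin_cases j <;> simp [cc, bs, Qv] <;> ring

theorem bs_swap1 (x y : Fin 2 → K) (q : Fin 3 → K) : bs y x q 1 = bs x y q 1 := by
  simp [bs]
  ring

theorem pol_ker {g : Fin 3 → K} {y : K} {Y : Fin 2 → K} (Z : Fin 2 → K)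
    (h1 : 2 * g 2 * Y 0 + (g 1 - y) * Y 1 = 0) (h2 : (g 1 + y) * Y 0 + 2 * g 0 * Y 1 = 0) :
    bs Y Z g 1 = -(y * dt Y Z) := by
  simp only [bs, dt, Matrix.cons_val]
  linear_combination Z 0 * h1 + Z 1 * h2

end ring

section field

variable {K : Type} [Field K]

theorem factor_right {x y : Fin 2 → K} {g : Fin 3 → K} (hd : dt x y ≠ 0) (h : bs x y g 0 = 0)
    (i : Fin 3) : g i = (dt x y ^ 2)⁻¹ * pr y (lc x y ![-bs x y g 1, bs x y g 2]) i := by
  have h1 : dt x y ^ 2 * g i = pr y (lc x y ![-bs x y g 1, bs x y g 2]) i := by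
    simp only [bs, Qv, Matrix.cons_val] at h
    have e0 : dt x y ^ 2 * g 0 = pr y (lc x y ![-bs x y g 1, bs x y g 2]) 0 := by
      simp only [bs, Qv, pr, lc, dt, Matrix.cons_val]
      linear_combination x 0 ^ 2 * h
    have e1 : dt x y ^ 2 * g 1 = pr y (lc x y ![-bs x y g 1, bs x y g 2]) 1 := by
      simp only [bs, Qv, pr, lc, dt, Matrix.cons_val]
      linear_combination (-2 * x 0 * x 1) * h
    have e2 : dt x y ^ 2 * g 2 = pr y (lc x y ![-bs x y g 1, bs x y g 2]) 2 := by
      simp only [bs, Qv, pr, lc, dt, Matrix.cons_val]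
      linear_combination x 1 ^ 2 * h
    fin_cases i
    · exact e0
    · exact e1
    · exact e2
  rw [← h1]
  field_simp

theorem factor_left {x y : Fin 2 → K} {g : Fin 3 → K} (hd : dt x y ≠ 0) (h : bs x y g 2 = 0)
    (i : Fin 3) : g i = -(dt x y ^ 2)⁻¹ * pr x (lc x y ![-bs x y g 0, bs x y g 1]) i := by
  have h1 : dt x y ^ 2 * g i = -pr x (lc x y ![-bs x y g 0, bs x y g 1]) i := by
    simp only [bs, Qv, Matrix.cons_val] at h
    have e0 : dt x y ^ 2 * g 0 = -pr x (lc x y ![-bs x y g 0, bs x y g 1]) 0 := by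
      simp only [bs, Qv, pr, lc, dt, Matrix.cons_val]
      linear_combination y 0 ^ 2 * h
    have e1 : dt x y ^ 2 * g 1 = -pr x (lc x y ![-bs x y g 0, bs x y g 1]) 1 := by
      simp only [bs, Qv, pr, lc, dt, Matrix.cons_val]
      linear_combination (-2 * y 0 * y 1) * h
    have e2 : dt x y ^ 2 * g 2 = -pr x (lc x y ![-bs x y g 0, bs x y g 1]) 2 := by
      simp only [bs, Qv, pr, lc, dt, Matrix.cons_val]
      linear_combination y 1 ^ 2 * h
    fin_cases i
    · exact e0
    · exact e1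
    · exact e2
  have h2 : -(dt x y ^ 2)⁻¹ * pr x (lc x y ![-bs x y g 0, bs x y g 1]) i =
      (dt x y ^ 2)⁻¹ * -pr x (lc x y ![-bs x y g 0, bs x y g 1]) i := by ring
  rw [h2, ← h1]
  field_simp

end field

variable {k : Type} [Field k] {f : Cf k}

theorem vc_sym (hs : ∀ a b i j : Fin 3, f a b i j = f b a j i) {K : Type} [CommRing K]
    [Algebra k K] (S T : Fin 2 → K) : f.vc T S = tr (f.vc S T) := by
  funext i j
  show (∑ a, ∑ b, algebraMap k K (f a b i j) * (mv T a * mv S b)) =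
    ∑ a, ∑ b, algebraMap k K (f a b j i) * (mv S a * mv T b)
  rw [Finset.sum_comm]
  refine Finset.sum_congr rfl fun a _ => Finset.sum_congr rfl fun b _ => ?_
  rw [hs b a i j]
  ring

theorem co_eq {K : Type} [CommRing K] [Algebra k K] (S T X : Fin 2 → K) (j : Fin 3) :
    f.co S T X j = Qv (fun i => f.vc S T i j) X := rfl

end Pool.Agent.GOC
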