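import Pool.Agent.GOC.LmD

/-!
# Two points with the same image for the two projections: the general case
-/

set_option autoImplicit false
set_option linter.unusedSectionVars false

noncomputable section

namespace Pool.Agent.GOC

open Pool.Agent.ZCyc Pool.Agent.Dess Pool.Agent.GT Pool.Agent.TInc
open Pool.Agent.VFP (Om tt)
open Pool.Agent.HGF (fst snd vlo)

section field

variable {K : Type} [Field K] [CharZero K] {c : Fin 3 → Fin 3 → K} {g : Fin 5 → K}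
  {x y : Fin 2 → K} {δ y₁ x₀ w₀ α : K}

theorem imgL (hP : ∀ i, dY c i = δ ^ 2 * pl g x y i) (h22 : c 2 2 = 0) (hm : c 2 1 = -(y₁ * δ))
    (hδ : δ ≠ 0) (hy : y₁ ≠ 0) (i : Img g x y₁ x₀ w₀) (hα : dY c 3 = c 2 1 * α) :
    4 * x₀ * (dt x y * δ) ^ 2 = 3 * (3 * α ^ 2 - 8 * dY c 2) ∧
      8 * w₀ * (dt x y * δ) ^ 3 =
        -27 * (α ^ 3 + 8 * c 2 1 * dY c 1 - 4 * α * dY c 2) := by
  have h4 : dY c 4 = c 2 1 ^ 2 := by
    simp [dY, dsc, h22]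
  have hH := Hq_left g x y
  have hT := Tq_left g x y
  have p1 := hP 1
  have p2 := hP 2
  have p3 := hP 3
  have p4 := hP 4
  obtain ⟨P1, hP1⟩ : ∃ P1, P1 = dY c 1 := ⟨_, rfl⟩
  obtain ⟨P2, hP2⟩ : ∃ P2, P2 = dY c 2 := ⟨_, rfl⟩
  rw [h4, hm] at p4
  rw [hα, hm] at p3
  rw [← hP2] at p2
  rw [← hP1] at p1
  rw [← hP1, ← hP2, hm]
  obtain ⟨q1, hq1⟩ : ∃ q1, q1 = pl g x y 1 := ⟨_, rfl⟩
  obtain ⟨q2, hq2⟩ : ∃ q2, q2 = pl g x y 2 := ⟨_, rfl⟩
  obtain ⟨q3, hq3⟩ : ∃ q3, q3 = pl g x y 3 := ⟨_, rfl⟩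
  obtain ⟨q4, hq4⟩ : ∃ q4, q4 = pl g x y 4 := ⟨_, rfl⟩
  rw [← hq2, ← hq3, ← hq4] at hH
  rw [← hq1, ← hq2, ← hq3, ← hq4] at hT
  rw [← hq1] at p1
  rw [← hq2] at p2
  rw [← hq3] at p3
  rw [← hq4] at p4
  have e4 : q4 = y₁ ^ 2 := by
    apply mul_left_cancel₀ (pow_ne_zero 2 hδ)
    linear_combination -p4
  have e3 : δ * q3 = -(y₁ * α) := by
    apply mul_left_cancel₀ hδ
    linear_combination -p3
  rw [e4] at hH hT
  constructor
  · apply mul_left_cancel₀ (pow_ne_zero 2 hy)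
    linear_combination (-(dt x y * δ) ^ 2) * i.one + 3 * δ ^ 2 * hH +
      9 * (δ * q3 - y₁ * α) * e3 + 24 * y₁ ^ 2 * p2
  · apply mul_left_cancel₀ (pow_ne_zero 3 hy)
    linear_combination (-(dt x y * δ) ^ 3) * i.two + 27 * δ ^ 3 * hT +
      27 * ((δ * q3) ^ 2 - (δ * q3) * (y₁ * α) + (y₁ * α) ^ 2 - 4 * y₁ ^ 2 * P2) * e3 -
      27 * 8 * y₁ ^ 4 * δ * p1 + 27 * 4 * y₁ ^ 2 * (δ * q3) * p2

theorem imgR (hP : ∀ i, dY c i = δ ^ 2 * pl g x y i) (h00 : c 0 0 = 0) (hm : c 0 1 = y₁ * δ)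
    (hδ : δ ≠ 0) (hy : y₁ ≠ 0) (i : Img g y y₁ x₀ w₀) (hα : dY c 1 = c 0 1 * α) :
    4 * x₀ * (dt x y * δ) ^ 2 = 3 * (3 * α ^ 2 - 8 * dY c 2) ∧
      8 * w₀ * (dt x y * δ) ^ 3 =
        -27 * (α ^ 3 + 8 * c 0 1 * dY c 3 - 4 * α * dY c 2) := by
  have h4 : dY c 0 = c 0 1 ^ 2 := by
    simp [dY, dsc, h00]
  have hH := Hq_right g x y
  have hT := Tq_right g x y
  have p1 := hP 3
  have p2 := hP 2
  have p3 := hP 1
  have p4 := hP 0
  obtain ⟨P1, hP1⟩ : ∃ P1, P1 = dY c 3 := ⟨_, rfl⟩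
  obtain ⟨P2, hP2⟩ : ∃ P2, P2 = dY c 2 := ⟨_, rfl⟩
  rw [h4, hm] at p4
  rw [hα, hm] at p3
  rw [← hP2] at p2
  rw [← hP1] at p1
  rw [← hP1, ← hP2, hm]
  obtain ⟨q1, hq1⟩ : ∃ q1, q1 = pl g x y 3 := ⟨_, rfl⟩
  obtain ⟨q2, hq2⟩ : ∃ q2, q2 = pl g x y 2 := ⟨_, rfl⟩
  obtain ⟨q3, hq3⟩ : ∃ q3, q3 = pl g x y 1 := ⟨_, rfl⟩
  obtain ⟨q4, hq4⟩ : ∃ q4, q4 = pl g x y 0 := ⟨_, rfl⟩
  rw [← hq2, ← hq3, ← hq4] at hH
  rw [← hq1, ← hq2, ← hq3, ← hq4] at hT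
  rw [← hq1] at p1
  rw [← hq2] at p2
  rw [← hq3] at p3
  rw [← hq4] at p4
  have e4 : q4 = y₁ ^ 2 := by
    apply mul_left_cancel₀ (pow_ne_zero 2 hδ)
    linear_combination -p4
  have e3 : δ * q3 = y₁ * α := by
    apply mul_left_cancel₀ hδ
    linear_combination -p3
  rw [e4] at hH hT
  constructor
  · apply mul_left_cancel₀ (pow_ne_zero 2 hy)
    linear_combination (-(dt x y * δ) ^ 2) * i.one + 3 * δ ^ 2 * hH +
      9 * (δ * q3 + y₁ * α) * e3 + 24 * y₁ ^ 2 * p2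
  · apply mul_left_cancel₀ (pow_ne_zero 3 hy)
    linear_combination (-(dt x y * δ) ^ 3) * i.two + 27 * δ ^ 3 * hT -
      27 * ((δ * q3) ^ 2 + (δ * q3) * (y₁ * α) + (y₁ * α) ^ 2 - 4 * y₁ ^ 2 * P2) * e3 +
      27 * 8 * y₁ ^ 4 * δ * p1 - 27 * 4 * y₁ ^ 2 * (δ * q3) * p2

end field

variable {k : Type} [Field k] [IsAlgClosed k] [CharZero k] {W : Type} [AddCommGroup W] [Module ℚ W]
  {f : Cf k} {F : Option k → Option k → Option k → Option k → W}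

/-- **Lemma B, general case.** -/
theorem lmB (h : DatV f F) (h' : DatV f fun s t X Y => F t s Y X)
    (hs : ∀ a b i j : Fin 3, f a b i j = f b a j i) {S T X₁ X₂ Y₁ Y₂ : Fin 2 → k}
    {y₁ y₂ x₀ w₀ : k} (hS : S ≠ 0) (hT : T ≠ 0) (hX : dt X₁ X₂ ≠ 0) (hY : dt Y₁ Y₂ ≠ 0)
    (hD : Dq (f.vg S T) ≠ 0) (hw : w₀ ≠ 0) (k1 : f.Ker S T X₁ y₁ Y₁)
    (i1 : Img (f.vg S T) X₁ y₁ x₀ w₀) (k2 : f.Ker T S Y₂ y₂ X₂)
    (i2 : Img (f.vg T S) Y₂ y₂ x₀ w₀) : FV F S T X₁ Y₁ + FV F S T X₂ Y₂ = 0 := by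
  have hX1 : X₁ ≠ 0 := by
    rintro rfl
    apply hX
    simp [dt]
  have hY2 : Y₂ ≠ 0 := by
    rintro rfl
    apply hY
    simp [dt]
  obtain ⟨e, he⟩ : ∃ e, e = f.vc S T := ⟨_, rfl⟩
  obtain ⟨c, hc⟩ : ∃ c, c = cc e X₁ X₂ Y₁ Y₂ := ⟨_, rfl⟩
  have hco : ∀ X j, f.co S T X j = Qv (fun i => e i j) X := by
    intro X j
    rw [co_eq, he]
  have hco' : ∀ X j, f.co T S X j = Qv (e j) X := by
    intro X j
    rw [co_eq, vc_sym hs, he]
    rfl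
  have hg : f.vg S T = dY e := by
    rw [he]
    rfl
  have hg' : f.vg T S = dY (tr e) := by
    rw [he, ← vc_sym hs]
    rfl
  have hD' : Dq (f.vg T S) ≠ 0 := by
    rw [hg', Dq_tr, ← hg]
    exact hD
  have hy1 := img_ne hD hX1 i1
  have hy2 := img_ne hD' hY2 i2
  -- the coefficients
  have r2 : ∀ j, c 2 j = bs Y₁ Y₂ (fun j => f.co S T X₁ j) j := by
    intro j
    rw [hc, cc_row2]
    congr 1
    funext j
    rw [hco]
  have r0 : ∀ j, c 0 j = bs Y₁ Y₂ (fun j => f.co S T X₂ j) j := by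
    intro j
    rw [hc, cc_row0]
    congr 1
    funext j
    rw [hco]
  have s2 : ∀ i, c i 2 = bs X₁ X₂ (fun j => f.co T S Y₁ j) i := by
    intro i
    rw [hc, ← cc_tr, cc_row2]
    congr 1
    funext j
    rw [hco']
    rfl
  have s0 : ∀ i, c i 0 = bs X₁ X₂ (fun j => f.co T S Y₂ j) i := by
    intro i
    rw [hc, ← cc_tr, cc_row0]
    congr 1
    funext j
    rw [hco']
    rfl
  have h22 : c 2 2 = 0 := by
    rw [r2]
    have h1 := k1.onV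
    unfold Cf.OnV at h1
    simp only [bs, Qv, Matrix.cons_val]
    linear_combination h1
  have h00 : c 0 0 = 0 := by
    rw [s0]
    have h1 := k2.onV
    unfold Cf.OnV at h1
    simp only [bs, Qv, Matrix.cons_val]
    linear_combination h1
  have h21 : c 2 1 = -(y₁ * dt Y₁ Y₂) := by
    rw [r2]
    exact pol_ker Y₂ k1.one k1.two
  have h10 : c 1 0 = y₂ * dt X₁ X₂ := by
    rw [s0, ← bs_swap1, pol_ker X₁ k2.one k2.two]
    unfold dt
    ring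
  have n21 : c 2 1 ≠ 0 := by
    rw [h21]
    exact neg_ne_zero.2 (mul_ne_zero hy1 hY)
  have n10 : c 1 0 ≠ 0 := by
    rw [h10]
    exact mul_ne_zero hy2 hX
  -- the equality of the images
  obtain ⟨u, hu⟩ : ∃ u, c 1 2 = u * c 2 1 := ⟨c 1 2 / c 2 1, by field_simp⟩
  obtain ⟨v, hv⟩ : ∃ v, c 0 1 = v * c 1 0 := ⟨c 0 1 / c 1 0, by field_simp⟩
  obtain ⟨A1, A2⟩ := imgL (c := c) (g := f.vg S T) (x := X₁) (y := X₂) (δ := dt Y₁ Y₂)
    (α := 2 * c 1 1 - 4 * u * c 2 0) (by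
      intro i
      rw [hc, dY_cc, hg]) h22 h21 hY hy1 i1 (by
      simp only [dY, dsc, Matrix.cons_val]
      rw [h22, hu]
      ring)
  obtain ⟨B1, B2⟩ := imgR (c := tr c) (g := f.vg T S) (x := Y₁) (y := Y₂) (δ := dt X₁ X₂)
    (α := 2 * c 1 1 - 4 * v * c 2 0) (by
      intro i
      have h1 : tr c = cc (tr e) Y₁ Y₂ X₁ X₂ := by
        funext i j
        rw [cc_tr, hc]
        rfl
      rw [h1, dY_cc, hg']) h00 h10 hX hy2 i2 (by
      simp only [dY, dsc, tr, Matrix.cons_val]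
      rw [h00, hv]
      ring)
  have hvu : v = u := by
    have hd : dt X₁ X₂ * dt Y₁ Y₂ ≠ 0 := mul_ne_zero hX hY
    have h27 : (27 : k) ≠ 0 := by norm_num
    have h3 : (3 : k) ≠ 0 := by norm_num
    simp only [dY, dsc, tr, Matrix.cons_val] at A1 A2 B1 B2
    rw [h22, h00, hu, hv] at A1 A2 B1 B2
    refine uv_eq (a := c 2 0) (c := c 0 2) (e := c 1 1) (m := c 2 1) (n := c 1 0) (u := u)
      (v := v) (ω := -(8 * w₀ * (dt X₁ X₂ * dt Y₁ Y₂) ^ 3) / 27) ?_ rfl rfl ?_ ?_ ?_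
    · exact div_ne_zero (neg_ne_zero.2 (mul_ne_zero (mul_ne_zero (by norm_num) hw)
        (pow_ne_zero 3 hd))) h27
    · apply mul_left_cancel₀ h3
      linear_combination B1 - A1
    · rw [eq_div_iff h27]
      linear_combination A2
    · rw [eq_div_iff h27]
      linear_combination B2
  have hΔ : c 2 1 * c 0 1 = c 1 0 * c 1 2 := by
    rw [hu, hv, hvu]
    ring
  by_cases n12 : c 1 2 = 0
  · -- both points are double points
    have n01 : c 0 1 = 0 := by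
      rw [n12, mul_zero] at hΔ
      exact (mul_eq_zero.1 hΔ).resolve_left n21
    have z1 : FV F S T X₁ Y₁ = 0 := by
      refine zero_of_y h' hT hS k1.ne (S := T) (T := S) (X := Y₁) (Y := X₁) ⟨hX1, ?_, ?_⟩
      · have a2 := s2 2
        have a1 := s2 1
        rw [h22] at a2
        rw [n12] at a1
        simp only [bs, Qv, Matrix.cons_val] at a1 a2
        apply mul_left_cancel₀ hX
        unfold dt
        linear_combination X₁ 1 * a1 - 2 * X₂ 1 * a2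
      · have a2 := s2 2
        have a1 := s2 1
        rw [h22] at a2
        rw [n12] at a1
        simp only [bs, Qv, Matrix.cons_val] at a1 a2
        apply mul_left_cancel₀ hX
        unfold dt
        linear_combination (-X₁ 0) * a1 + 2 * X₂ 0 * a2
    have z2 : FV F S T X₂ Y₂ = 0 := by
      refine zero_of_y h hS hT k2.ne ⟨hY2, ?_, ?_⟩
      · have a2 := r0 0
        have a1 := r0 1
        rw [h00] at a2
        rw [n01] at a1
        simp only [bs, Qv, Matrix.cons_val] at a1 a2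
        apply mul_left_cancel₀ hY
        unfold dt
        linear_combination (-Y₂ 1) * a1 + 2 * Y₁ 1 * a2
      · have a2 := r0 0
        have a1 := r0 1
        rw [h00] at a2
        rw [n01] at a1
        simp only [bs, Qv, Matrix.cons_val] at a1 a2
        apply mul_left_cancel₀ hY
        unfold dt
        linear_combination Y₂ 0 * a1 - 2 * Y₁ 0 * a2
    rw [z1, z2, add_zero]
  · have n01 : c 0 1 ≠ 0 := by
      intro h0
      rw [h0, mul_zero] at hΔ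
      exact mul_ne_zero n10 n12 hΔ.symm
    have hq : c 0 2 * c 2 1 ^ 2 - c 1 1 * c 1 2 * c 2 1 + c 2 0 * c 1 2 ^ 2 ≠ 0 := by
      intro h0
      have h1 := disc_red h22 h00 n21 n12 hΔ h0
      rw [hc, dY_cc, Dq_mul, Dq_basis, ← hg] at h1
      exact mul_ne_zero (pow_ne_zero 6 (pow_ne_zero 2 hY)) (mul_ne_zero (pow_ne_zero 12 hX) hD) h1
    have hrel := tang h.cf hS hT hX hY (he ▸ hc) h22 h00 n21 n10 n12 hΔ hq
    have hxb : lc X₁ X₂ ![-c 0 2, c 1 2] ≠ 0 := lc_ne hX (fun h0 => n12 (congrFun h0 1))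
    have hyb : lc Y₁ Y₂ ![-c 0 1, c 0 2] ≠ 0 :=
      lc_ne hY (fun h0 => n01 (neg_eq_zero.1 (congrFun h0 0)))
    have b1 : FV F S T X₁ Y₁ + FV F S T (lc X₁ X₂ ![-c 0 2, c 1 2]) Y₁ = 0 := by
      have g1 := factor_left (g := fun j => f.co T S Y₁ j) hX (by rw [← s2, h22])
      rw [← s2, ← s2] at g1
      have hκ : -(dt X₁ X₂ ^ 2)⁻¹ ≠ 0 := neg_ne_zero.2 (inv_ne_zero (pow_ne_zero 2 hX))
      exact bar_gen h' hT hS k1.ne hX1 hxb hκ (g1 2) (by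
        rw [show f.co T S Y₁ 1 = _ from g1 1]
        simp only [pr, Matrix.cons_val]
        ring) (g1 0)
    have b2 : FV F S T X₂ Y₂ + FV F S T X₂ (lc Y₁ Y₂ ![-c 0 1, c 0 2]) = 0 := by
      have g1 := factor_right (g := fun j => f.co S T X₂ j) hY (by rw [← r0, h00])
      rw [← r0, ← r0] at g1
      have hκ : (dt Y₁ Y₂ ^ 2)⁻¹ ≠ 0 := inv_ne_zero (pow_ne_zero 2 hY)
      exact bar_gen h hS hT k2.ne hY2 hyb hκ (g1 2) (by
        rw [show f.co S T X₂ 1 = _ from g1 1]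
        simp only [pr, Matrix.cons_val]
        ring) (g1 0)
    have h4 : (2 : ℚ) • (FV F S T X₁ Y₁ + FV F S T X₂ Y₂) = 0 := by
      rw [two_smul]
      nth_rewrite 2 [hrel]
      have h5 : FV F S T X₁ Y₁ + FV F S T X₂ Y₂ + (FV F S T (lc X₁ X₂ ![-c 0 2, c 1 2]) Y₁ +
          FV F S T X₂ (lc Y₁ Y₂ ![-c 0 1, c 0 2])) =
          (FV F S T X₁ Y₁ + FV F S T (lc X₁ X₂ ![-c 0 2, c 1 2]) Y₁) +
          (FV F S T X₂ Y₂ + FV F S T X₂ (lc Y₁ Y₂ ![-c 0 1, c 0 2])) := by abel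
      rw [h5, b1, b2, add_zero]
    exact (smul_eq_zero.1 h4).resolve_left two_ne_zero

end Pool.Agent.GOC
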