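import Pool.Agent.GOC.Cov

/-!
# Roots of binary forms
-/

set_option autoImplicit false

namespace Pool.Agent.GOC

open Polynomial

section forms

variable {K : Type*} [CommRing K]

/-- the value of the quadratic form -/
def Qv (q : Fin 3 → K) (x : Fin 2 → K) : K := q 2 * x 0 ^ 2 + q 1 * x 0 * x 1 + q 0 * x 1 ^ 2

/-- the quadratic form `dt x u * dt x v` -/
def pr (u v : Fin 2 → K) : Fin 3 → K := ![u 0 * v 0, -(u 1 * v 0 + u 0 * v 1), u 1 * v 1]

theorem Qq_pr (u v x : Fin 2 → K) : Qv (pr u v) x = dt x u * dt x v := by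
  simp only [Qv, pr, dt, Matrix.cons_val]
  ring

/-- the quartic form `Q ² + κ N ²` -/
def sqs (q n : Fin 3 → K) (κ : K) : Fin 5 → K :=
  ![q 0 ^ 2 + κ * n 0 ^ 2, 2 * (q 0 * q 1 + κ * (n 0 * n 1)),
    q 1 ^ 2 + 2 * q 0 * q 2 + κ * (n 1 ^ 2 + 2 * n 0 * n 2), 2 * (q 1 * q 2 + κ * (n 1 * n 2)),
    q 2 ^ 2 + κ * n 2 ^ 2]

theorem Gq_sqs (q n : Fin 3 → K) (κ : K) (x : Fin 2 → K) :
    Gq (sqs q n κ) x = Qv q x ^ 2 + κ * Qv n x ^ 2 := by
  simp only [Gq, Qv, sqs, Matrix.cons_val]
  ring

theorem Dq_square (q n : Fin 3 → K) : Dq (sqs q n 0) = 0 := by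
  simp only [Dq, Iq, Jq, sqs, Matrix.cons_val]
  ring

end forms

section field

variable {K : Type*} [Field K]

theorem dt_self {R : Type*} [CommRing R] (x : Fin 2 → R) : dt x x = 0 := by
  unfold dt
  ring

theorem exists_dt {r : Fin 2 → K} (h : r ≠ 0) : ∃ y : Fin 2 → K, dt r y = 1 := by
  by_cases h0 : r 0 = 0
  · have h1 : r 1 ≠ 0 := by
      intro h1
      apply h
      funext i
      fin_cases i
      · exact h0
      · exact h1
    refine ⟨![-(r 1)⁻¹, 0], ?_⟩
    simp [dt, h0, h1]
  · refine ⟨![0, (r 0)⁻¹], ?_⟩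
    simp [dt, h0]

/-- two vectors with determinant zero are proportional -/
theorem dt_zero {x y : Fin 2 → K} (hx : x ≠ 0) (h : dt x y = 0) : ∃ c : K, y = fun i => c * x i := by
  obtain ⟨z, hz⟩ := exists_dt hx
  refine ⟨dt y z, ?_⟩
  unfold dt at *
  funext i
  fin_cases i
  · simp only [Fin.zero_eta]
    linear_combination (-(y 0)) * hz + z 0 * h
  · simp only [Fin.mk_one]
    linear_combination (-(y 1)) * hz + z 1 * h

/-- the roots of a binary form given by a polynomial -/
theorem exists_zero_form [IsAlgClosed K] {n : ℕ} (hn : 0 < n) (P : K[X]) (hP : P.natDegree ≤ n) :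
    (∃ c, P.eval c = 0) ∨ P.coeff n = 0 := by
  by_cases h : P.natDegree = 0
  · right
    apply coeff_eq_zero_of_natDegree_lt
    omega
  · left
    obtain ⟨c, hc⟩ := IsAlgClosed.exists_root P (fun h1 => h (natDegree_eq_of_degree_eq_some h1))
    exact ⟨c, hc⟩

theorem exists_zero [IsAlgClosed K] (g : Fin 5 → K) : ∃ x : Fin 2 → K, x ≠ 0 ∧ Gq g x = 0 := by
  have hd : (C (g 4) * X ^ 4 + C (g 3) * X ^ 3 + C (g 2) * X ^ 2 + C (g 1) * X + C (g 0) :
      K[X]).natDegree ≤ 4 := by compute_degree
  rcases exists_zero_form (by norm_num) _ hd with ⟨c, hc⟩ | hc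
  · refine ⟨![c, 1], fun h => ?_, ?_⟩
    · have := congrFun h 1
      simp at this
    · simp only [eval_add, eval_mul, eval_C, eval_pow, eval_X] at hc
      simp only [Gq, Matrix.cons_val]
      linear_combination hc
  · refine ⟨![1, 0], fun h => ?_, ?_⟩
    · have := congrFun h 0
      simp at this
    · have h4 : (C (g 4) * X ^ 4 + C (g 3) * X ^ 3 + C (g 2) * X ^ 2 + C (g 1) * X + C (g 0) :
          K[X]).coeff 4 = g 4 := by
        simp
      rw [h4] at hc
      simp [Gq, hc]

end field

section double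

variable {k : Type} [Field k] [IsAlgClosed k] [CharZero k]

/-- a cubic with discriminant zero has a double root -/
theorem cubic_double {a b c d : k} (ha : a ≠ 0)
    (h : b ^ 2 * c ^ 2 - 4 * a * c ^ 3 - 4 * b ^ 3 * d - 27 * a ^ 2 * d ^ 2 +
      18 * a * b * c * d = 0) :
    ∃ x z : k, b = a * -(x + x + z) ∧ c = a * (x * x + x * z + x * z) ∧ d = a * -(x * x * z) := by
  let P : Cubic k := ⟨a, b, c, d⟩
  obtain ⟨x, y, z, h3⟩ := (Cubic.splits_iff_roots_eq_three (φ := RingHom.id k) (P := P) ha).1
    (IsAlgClosed.splits _)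
  have hb := Cubic.b_eq_three_roots (φ := RingHom.id k) (P := P) ha h3
  have hc := Cubic.c_eq_three_roots (φ := RingHom.id k) (P := P) ha h3
  have hd := Cubic.d_eq_three_roots (φ := RingHom.id k) (P := P) ha h3
  have hD := Cubic.discr_eq_prod_three_roots (φ := RingHom.id k) (P := P) ha h3
  simp only [RingHom.id_apply, P] at hb hc hd hD
  have h0 : (a * a * (x - y) * (x - z) * (y - z)) ^ 2 = 0 := by
    rw [← hD]
    exact h
  have h1 := pow_eq_zero_iff (two_ne_zero) |>.1 h0
  rcases mul_eq_zero.1 h1 with h2 | h2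
  · rcases mul_eq_zero.1 h2 with h4 | h4
    · rcases mul_eq_zero.1 h4 with h5 | h5
      · exact absurd h5 (mul_ne_zero ha ha)
      · have e : y = x := (sub_eq_zero.1 h5).symm
        subst e
        exact ⟨y, z, hb, hc, hd⟩
    · have e : z = x := (sub_eq_zero.1 h4).symm
      subst e
      refine ⟨z, y, ?_, ?_, ?_⟩
      · rw [hb]; ring
      · rw [hc]; ring
      · rw [hd]; ring
  · have e : z = y := (sub_eq_zero.1 h2).symm
    subst e
    refine ⟨z, x, ?_, ?_, ?_⟩
    · rw [hb]; ring
    · rw [hc]; ring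
    · rw [hd]; ring

/-- **Double root.** A quartic form with discriminant zero is divisible by the square of a linear
form. -/
theorem exists_double {g : Fin 5 → k} (h : Dq g = 0) :
    ∃ (r : Fin 2 → k) (q : Fin 3 → k), r ≠ 0 ∧ ∀ (K : Type) [Field K] [Algebra k K]
      (x : Fin 2 → K), Gq (fun i => algebraMap k K (g i)) x =
        dt x (fun i => algebraMap k K (r i)) ^ 2 * Qv (fun i => algebraMap k K (q i)) x := by
  obtain ⟨r, hr, h0⟩ := exists_zero g
  obtain ⟨y, hy⟩ := exists_dt hr
  obtain ⟨p, hp⟩ : ∃ p, p = pl g r y := ⟨_, rfl⟩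
  have hp4 : p 4 = 0 := by
    rw [hp, pl4, h0]
  have hD : Dq p = 0 := by
    rw [hp, Dq_basis, h, mul_zero]
  have hG : ∀ (K : Type) [Field K] [Algebra k K] (x : Fin 2 → K),
      Gq (fun i => algebraMap k K (g i)) x =
      dt (fun i => algebraMap k K (r i)) x *
        (algebraMap k K (p 3) * dt x (fun i => algebraMap k K (y i)) ^ 3 +
        algebraMap k K (p 2) * dt x (fun i => algebraMap k K (y i)) ^ 2 *
          dt (fun i => algebraMap k K (r i)) x +
        algebraMap k K (p 1) * dt x (fun i => algebraMap k K (y i)) *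
          dt (fun i => algebraMap k K (r i)) x ^ 2 +
        algebraMap k K (p 0) * dt (fun i => algebraMap k K (r i)) x ^ 3) := by
    intro K _ _ x
    obtain ⟨l, hl⟩ : ∃ l, l = dt x (fun i => algebraMap k K (y i)) := ⟨_, rfl⟩
    obtain ⟨m, hm⟩ : ∃ m, m = dt (fun i => algebraMap k K (r i)) x := ⟨_, rfl⟩
    have hy' : algebraMap k K (r 0) * algebraMap k K (y 1) -
        algebraMap k K (r 1) * algebraMap k K (y 0) = 1 := by
      rw [← map_mul, ← map_mul, ← map_sub]
      unfold dt at hy
      rw [hy, map_one]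
    have h1 := Gq_basis (fun i => algebraMap k K (g i)) (fun i => algebraMap k K (r i))
      (fun i => algebraMap k K (y i)) l m
    have hx : (fun i => l * algebraMap k K (r i) + m * algebraMap k K (y i)) = x := by
      rw [hl, hm]
      unfold dt
      funext i
      fin_cases i
      · simp only [Fin.zero_eta]
        linear_combination x 0 * hy'
      · simp only [Fin.mk_one]
        linear_combination x 1 * hy'
    have hpl : pl (fun i => algebraMap k K (g i)) (fun i => algebraMap k K (r i))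
        (fun i => algebraMap k K (y i)) = fun i => algebraMap k K (p i) := by
      rw [hp]
      funext i
      fin_cases i <;> simp [pl, Gq, map_ofNat]
    rw [hx, hpl] at h1
    rw [h1, ← hl, ← hm]
    simp only [Gq, Matrix.cons_val]
    rw [hp4, map_zero]
    ring
  have hDp : p 3 ^ 2 * (p 2 ^ 2 * p 1 ^ 2 - 4 * p 3 * p 1 ^ 3 - 4 * p 2 ^ 3 * p 0 -
      27 * p 3 ^ 2 * p 0 ^ 2 + 18 * p 3 * p 2 * p 1 * p 0) = 0 := by
    have h27 : (27 : k) ≠ 0 := by norm_num
    apply (mul_eq_zero.1 (?_ : 27 * _ = (0 : k))).resolve_left h27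
    unfold Dq Iq Jq at hD
    rw [hp4] at hD
    linear_combination hD
  have key : ∀ (u v : Fin 2 → k) (K : Type) [Field K] [Algebra k K] (x : Fin 2 → K),
      Qv (fun i => algebraMap k K (pr u v i)) x =
        dt x (fun i => algebraMap k K (u i)) * dt x (fun i => algebraMap k K (v i)) := by
    intro u v K _ _ x
    rw [← Qq_pr]
    congr 1
    funext i
    fin_cases i <;> simp [pr]
  by_cases hp3 : p 3 = 0
  · refine ⟨r, fun i => p 2 * pr y y i - p 1 * pr y r i + p 0 * pr r r i, hr, ?_⟩
    intro K _ _ x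
    rw [hG K x, hp3, map_zero]
    have h1 := key y y K x
    have h2 := key y r K x
    have h3 := key r r K x
    have h4 : Qv (fun i => algebraMap k K (p 2 * pr y y i - p 1 * pr y r i + p 0 * pr r r i)) x =
        algebraMap k K (p 2) * Qv (fun i => algebraMap k K (pr y y i)) x -
        algebraMap k K (p 1) * Qv (fun i => algebraMap k K (pr y r i)) x +
        algebraMap k K (p 0) * Qv (fun i => algebraMap k K (pr r r i)) x := by
      simp only [Qv, map_add, map_sub, map_mul]
      ring
    rw [h4, h1, h2, h3]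
    unfold dt
    ring
  · obtain ⟨a, c, hb, hc, hd⟩ := cubic_double hp3
      ((mul_eq_zero.1 hDp).resolve_left (pow_ne_zero 2 hp3))
    refine ⟨fun i => y i + a * r i, fun i => -(p 3 * pr r (fun i => y i + c * r i) i), ?_, ?_⟩
    · intro h1
      have h2 : dt r (fun i => y i + a * r i) = 1 := by
        unfold dt at hy ⊢
        linear_combination hy
      rw [h1] at h2
      simp [dt] at h2
    · intro K _ _ x
      have h1 := key r (fun i => y i + c * r i) K x
      have h4 : Qv (fun i => algebraMap k K (-(p 3 * pr r (fun i => y i + c * r i) i))) x =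
          -(algebraMap k K (p 3) *
            Qv (fun i => algebraMap k K (pr r (fun i => y i + c * r i) i)) x) := by
        simp only [Qv, map_neg, map_mul]
        ring
      rw [h4, h1, hG K x, hb, hc, hd]
      simp only [map_add, map_mul, map_neg, dt]
      ring

end double

end Pool.Agent.GOC
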