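import Pool.Agent.GOC.VecO

/-!
# Values of forms and points at a place
-/

set_option autoImplicit false

noncomputable section

namespace Pool.Agent.GOC

open Pool.Agent.ZCyc Pool.Agent.Dess Pool.Agent.GT Pool.Agent.TInc
open Pool.Agent.HGF (fst snd vlo)

variable {k : Type} [Field k] {K : Type} [Field K] [Algebra k K] {f : Cf k} {v : Place k K}

/-- the vector `Z` has the value `z` -/
def VA {n : ℕ} (v : Place k K) (Z : Fin n → K) (z : Fin n → k) : Prop := ∀ i, v.At (Z i) (z i)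

theorem at_one : v.At (1 : K) (1 : k) := by
  have := Place.at_const (v := v) (1 : k)
  rwa [map_one] at this

theorem at_num (n : ℕ) [n.AtLeastTwo] : v.At (OfNat.ofNat n : K) (OfNat.ofNat n : k) := by
  have := Place.at_const (v := v) (OfNat.ofNat n : k)
  rwa [map_ofNat] at this

section forms

variable {g : Fin 5 → K} {g' : Fin 5 → k} {q : Fin 3 → K} {q' : Fin 3 → k} {x : Fin 2 → K}
  {x' : Fin 2 → k}

theorem at_Qq (hq : VA v q q') (hx : VA v x x') : v.At (Qv q x) (Qv q' x') :=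
  (((hq 2).mul ((hx 0).pow 2)).add (((hq 1).mul (hx 0)).mul (hx 1))).add
    ((hq 0).mul ((hx 1).pow 2))

theorem at_Gq (hg : VA v g g') (hx : VA v x x') : v.At (Gq g x) (Gq g' x') :=
  (((((hg 4).mul ((hx 0).pow 4)).add (((hg 3).mul ((hx 0).pow 3)).mul (hx 1))).add
    (((hg 2).mul ((hx 0).pow 2)).mul ((hx 1).pow 2))).add
    (((hg 1).mul (hx 0)).mul ((hx 1).pow 3))).add ((hg 0).mul ((hx 1).pow 4))

theorem at_Hq (hg : VA v g g') (hx : VA v x x') : v.At (Hq g x) (Hq g' x') := by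
  unfold Hq
  have h0 := hg 0
  have h1 := hg 1
  have h2 := hg 2
  have h3 := hg 3
  have h4 := hg 4
  have x0 := hx 0
  have x1 := hx 1
  exact ((((((at_num 3).mul (h3.pow 2)).sub (((at_num 8).mul h4).mul h2)).mul (x0.pow 4)).add
    ((((at_num 4).mul ((h3.mul h2).sub (((at_num 6).mul h4).mul h1))).mul (x0.pow 3)).mul
      x1)).add
    ((((at_num 2).mul ((((at_num 2).mul (h2.pow 2)).sub (((at_num 24).mul h4).mul h0)).sub
      (((at_num 3).mul h3).mul h1))).mul (x0.pow 2)).mul (x1.pow 2))).add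
    ((((at_num 4).mul ((h2.mul h1).sub (((at_num 6).mul h3).mul h0))).mul x0).mul
      (x1.pow 3)) |>.add
    ((((at_num 3).mul (h1.pow 2)).sub (((at_num 8).mul h2).mul h0)).mul (x1.pow 4))

theorem at_Iq (hg : VA v g g') : v.At (Iq g) (Iq g') :=
  (((((at_num 12).mul (hg 4)).mul (hg 0)).sub (((at_num 3).mul (hg 3)).mul (hg 1))).add
    ((hg 2).pow 2))

theorem at_Jq (hg : VA v g g') : v.At (Jq g) (Jq g') :=
  (((((((at_num 72).mul (hg 4)).mul (hg 2)).mul (hg 0)).add
    ((((at_num 9).mul (hg 3)).mul (hg 2)).mul (hg 1))).sub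
    (((at_num 27).mul (hg 4)).mul ((hg 1).pow 2))).sub
    (((at_num 27).mul (hg 0)).mul ((hg 3).pow 2))).sub ((at_num 2).mul ((hg 2).pow 3))

theorem at_Dq (hg : VA v g g') : v.At (Dq g) (Dq g') :=
  ((at_num 4).mul ((at_Iq hg).pow 3)).sub ((at_Jq hg).pow 2)

/-- The value of the sextic covariant: by the formula in a basis it suffices to use ring
operations. -/
theorem at_Tq (hg : VA v g g') (hx : VA v x x') : v.At (Tq g x) (Tq g' x') := by
  unfold Tq
  have h0 := hg 0
  have h1 := hg 1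
  have h2 := hg 2
  have h3 := hg 3
  have h4 := hg 4
  have x0 := hx 0
  have x1 := hx 1
  have a6 := (((h3.pow 3).add (((at_num 8).mul (h4.pow 2)).mul h1)).sub
    ((((at_num 4).mul h4).mul h3).mul h2)).mul (x0.pow 6)
  have a5 := (((at_num 2).mul ((((((at_num 16).mul (h4.pow 2)).mul h0).add
    ((((at_num 2).mul h4).mul h3).mul h1)).sub (((at_num 4).mul h4).mul (h2.pow 2))).add
    ((h3.pow 2).mul h2))).mul (x0.pow 5)).mul x1
  have a4 := (((at_num 5).mul ((((((at_num 8).mul h4).mul h3).mul h0).add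
    ((h3.pow 2).mul h1)).sub ((((at_num 4).mul h4).mul h2).mul h1))).mul (x0.pow 4)).mul
      (x1.pow 2)
  have a3 := (((at_num 20).mul (((h3.pow 2).mul h0).sub (h4.mul (h1.pow 2)))).mul
    (x0.pow 3)).mul (x1.pow 3)
  have a2 := (((at_num 5).mul ((((((at_num 8).mul h4).mul h1).mul h0).add
    (h3.mul (h1.pow 2))).sub ((((at_num 4).mul h3).mul h2).mul h0))).mul (x0.pow 2)).mul
      (x1.pow 4)
  have a1 := (((at_num 2).mul ((((((at_num 16).mul h4).mul (h0.pow 2)).add
    ((((at_num 2).mul h3).mul h1).mul h0)).sub (((at_num 4).mul (h2.pow 2)).mul h0)).add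
    (h2.mul (h1.pow 2)))).mul x0).mul (x1.pow 5)
  have a0 := (((h1.pow 3).add (((at_num 8).mul h3).mul (h0.pow 2))).sub
    ((((at_num 4).mul h2).mul h1).mul h0)).mul (x1.pow 6)
  exact (((((a6.add a5).add a4).add a3).sub a2).sub a1).sub a0

theorem at_dt {y : Fin 2 → K} {y' : Fin 2 → k} (hx : VA v x x') (hy : VA v y y') :
    v.At (dt x y) (dt x' y') := ((hx 0).mul (hy 1)).sub ((hx 1).mul (hy 0))

theorem at_pr {y : Fin 2 → K} {y' : Fin 2 → k} (hx : VA v x x') (hy : VA v y y') :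
    VA v (pr x y) (pr x' y') := by
  intro i
  fin_cases i
  · exact (hx 0).mul (hy 0)
  · exact (((hx 1).mul (hy 0)).add ((hx 0).mul (hy 1))).neg
  · exact (hx 1).mul (hy 1)

end forms

section hyp

variable {S T X : Fin 2 → K} {s t x : Fin 2 → k}

theorem at_mv (hS : VA v S s) (i : Fin 3) : v.At (mv S i) (mv s i) :=
  ((hS 0).pow _).mul ((hS 1).pow _)

theorem at_vc (hS : VA v S s) (hT : VA v T t) (i j : Fin 3) :
    v.At (f.vc S T i j) (f.vc s t i j) := by
  unfold Cf.vc
  refine Place.At.sum fun a _ => Place.At.sum fun b _ => ?_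
  exact (Place.at_const _).mul ((at_mv hS a).mul (at_mv hT b))

theorem at_vq (hS : VA v S s) (hT : VA v T t) (j : Fin 3) : VA v (f.vq S T j) (f.vq s t j) :=
  fun i => at_vc hS hT i j

theorem at_co (hS : VA v S s) (hT : VA v T t) (hX : VA v X x) (j : Fin 3) :
    v.At (f.co S T X j) (f.co s t x j) := at_Qq (at_vq hS hT j) hX

theorem at_vg (hS : VA v S s) (hT : VA v T t) : VA v (f.vg S T) (f.vg s t) := by
  have h2 := at_vq (f := f) hS hT 2
  have h1 := at_vq (f := f) hS hT 1
  have h0 := at_vq (f := f) hS hT 0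
  intro i
  fin_cases i
  · exact ((h1 0).pow 2).sub ((at_num 4).mul ((h2 0).mul (h0 0)))
  · exact (((at_num 2).mul (h1 0)).mul (h1 1)).sub
      ((at_num 4).mul (((h2 0).mul (h0 1)).add ((h2 1).mul (h0 0))))
  · exact (((h1 1).pow 2).add (((at_num 2).mul (h1 0)).mul (h1 2))).sub
      ((at_num 4).mul ((((h2 0).mul (h0 2)).add ((h2 1).mul (h0 1))).add ((h2 2).mul (h0 0))))
  · exact (((at_num 2).mul (h1 1)).mul (h1 2)).sub
      ((at_num 4).mul (((h2 1).mul (h0 2)).add ((h2 2).mul (h0 1))))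
  · exact ((h1 2).pow 2).sub ((at_num 4).mul ((h2 2).mul (h0 2)))

end hyp

/-! ### Specialisation of points -/

/-- The multiple `a Z` of the vector `Z` has the value `z ≠ 0`. -/
structure Sp {n : ℕ} (v : Place k K) (a : K) (Z : Fin n → K) (z : Fin n → k) : Prop where
  a0 : a ≠ 0
  z0 : z ≠ 0
  sp : VA v (fun i => a * Z i) z

theorem vec_ext {R : Type} {x y : Fin 2 → R} (h0 : x 0 = y 0) (h1 : x 1 = y 1) : x = y := by
  funext i
  fin_cases i
  · exact h0
  · exact h1

theorem Sp.ne {n : ℕ} {a : K} {Z : Fin n → K} {z : Fin n → k} (h : Sp v a Z z) : Z ≠ 0 := by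
  rintro rfl
  apply h.z0
  funext i
  have h1 := h.sp i
  have h2 : v.At (0 : K) (z i) := by simpa using h1
  have h3 := Place.at_const (v := v) (0 : k)
  rw [map_zero] at h3
  exact h2.unique h3

/-- every point has a value -/
theorem exists_sp [HasRes k K] (v : Place k K) {Z : Fin 2 → K} (hZ : Z ≠ 0) :
    ∃ (a : K) (z : Fin 2 → k), Sp v a Z z := by
  obtain ⟨r, hr, h⟩ := exists_vo hZ
  obtain ⟨l, hl, h1, h2⟩ := HGF.exists_mul v (po Z)
  refine ⟨l / r, vo (vlo v (po Z)), div_ne_zero hl hr, vo_ne _, fun i => ?_⟩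
  have h3 : l / r * Z i = l * vo (po Z) i := by
    conv_lhs => rw [h]
    field_simp
  show v.At (l / r * Z i) _
  rw [h3]
  fin_cases i
  · exact h1
  · exact h2

/-- the value of a point of the projective line -/
theorem Sp.vlo {a : K} {Z : Fin 2 → K} {z : Fin 2 → k} (h : Sp v a Z z) :
    vlo v (po Z) = po z := by
  have hzero : v.At (0 : K) (0 : k) := by
    have h3 := Place.at_const (v := v) (0 : k)
    rwa [map_zero] at h3
  by_cases h1 : z 1 = 0
  · have h0 : z 0 ≠ 0 := fun h0 => h.z0 (vec_ext h0 h1)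
    rw [po_eq_none.2 h1]
    by_cases h3 : Z 1 = 0
    · rw [po_eq_none.2 h3]
      rfl
    · have e : po Z = some (Z 0 / Z 1) := by
        unfold po
        rw [if_neg h3]
      rw [e, HGF.vlo_some, HYG.vl_none]
      intro c hc
      have hi : v.At (Z 1 / Z 0) 0 := by
        have h5 := (h.sp 1).div (h.sp 0) h0
        rw [h1, zero_div] at h5
        have h6 : a * Z 1 / (a * Z 0) = Z 1 / Z 0 := mul_div_mul_left _ _ h.a0
        rwa [h6] at h5
      have h0' : Z 0 ≠ 0 := by
        intro hz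
        have h7 := h.sp 0
        simp only [hz, mul_zero] at h7
        exact h0 (h7.unique hzero)
      have h8 := hc.mul hi
      have h9 : Z 0 / Z 1 * (Z 1 / Z 0) = 1 := by field_simp
      rw [h9, mul_zero] at h8
      exact zero_ne_one (h8.unique at_one)
  · have h3 : Z 1 ≠ 0 := by
      intro hz
      have h7 := h.sp 1
      simp only [hz, mul_zero] at h7
      exact h1 (h7.unique hzero)
    have e : po Z = some (Z 0 / Z 1) := by
      unfold po
      rw [if_neg h3]
    have e' : po z = some (z 0 / z 1) := by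
      unfold po
      rw [if_neg h1]
    rw [e, e']
    apply HGF.vlo_at
    have h5 := (h.sp 0).div (h.sp 1) h1
    have h6 : a * Z 0 / (a * Z 1) = Z 0 / Z 1 := mul_div_mul_left _ _ h.a0
    rwa [h6] at h5

/-- Two multiples of the same vector with values which are not zero. -/
theorem ratio {n : ℕ} {a b : K} {Z : Fin n → K} {z z' : Fin n → k}
    (ha : VA v (fun i => a * Z i) z) (hb : VA v (fun i => b * Z i) z') (hz : z ≠ 0) (hz' : z' ≠ 0) :
    ∃ c : k, c ≠ 0 ∧ v.At (a / b) c ∧ z = fun i => c * z' i := by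
  have hzero : v.At (0 : K) (0 : k) := by
    have h3 := Place.at_const (v := v) (0 : k)
    rwa [map_zero] at h3
  obtain ⟨i, hi⟩ : ∃ i, z' i ≠ 0 := by
    by_contra h
    push Not at h
    exact hz' (funext h)
  have hbi : b * Z i ≠ 0 := by
    intro h0
    have h7 := hb i
    simp only [h0] at h7
    exact hi (h7.unique hzero)
  have hb0 : b ≠ 0 := left_ne_zero_of_mul hbi
  have hc : v.At (a / b) (z i / z' i) := by
    have h5 := (ha i).div (hb i) hi
    have h6 : a * Z i / (b * Z i) = a / b := mul_div_mul_right _ _ (right_ne_zero_of_mul hbi)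
    rwa [h6] at h5
  have hj : z = fun j => z i / z' i * z' j := by
    funext j
    have h1 := hc.mul (hb j)
    have h2 : a / b * (b * Z j) = a * Z j := by
      field_simp
    rw [h2] at h1
    exact (ha j).unique h1
  refine ⟨z i / z' i, ?_, hc, hj⟩
  intro h0
  apply hz
  rw [hj, h0]
  funext j
  simp

/-- **Values of points of the hypersurface.** -/
theorem lim [IsAlgClosed k] [CharZero k] [HasRes k K] {S T X Y : Fin 2 → K} {y : K}
    {s t x : Fin 2 → k} {a b d : K} (hS : Sp v a S s) (hT : Sp v b T t) (hX : Sp v d X x)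
    (hy : y ^ 2 = Gq (f.vg S T) X) (hk : f.Ker S T X y Y) :
    ∃ (e : K) (w : Fin 2 → k) (y' : k), Sp v e Y w ∧ v.At ((a * b) ^ 2 * d ^ 2 * y) y' ∧
      y' ^ 2 = Gq (f.vg s t) x ∧ f.Ker s t x y' w := by
  obtain ⟨e, w, hw⟩ := exists_sp v hk.ne
  have h1 : v.At (((a * b) ^ 2 * d ^ 2 * y) ^ 2) (Gq (f.vg s t) x) := by
    have h2 := at_Gq (at_vg (f := f) hS.sp hT.sp) hX.sp
    rw [Cf.vg_smul, Gq_smul, Gq_mul, ← hy] at h2
    have h3 : d ^ 4 * ((a * b) ^ 4 * y ^ 2) = ((a * b) ^ 2 * d ^ 2 * y) ^ 2 := by ring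
    rwa [h3] at h2
  obtain ⟨y', hy'⟩ : ∃ y' : k, v.At ((a * b) ^ 2 * d ^ 2 * y) y' := by
    apply HasRes.res v
    by_contra hmem
    have h4 := h1.mem
    rcases v.ring.mem_or_inv_mem ((a * b) ^ 2 * d ^ 2 * y) with h5 | h5
    · exact hmem h5
    · apply hmem
      have h6 : (a * b) ^ 2 * d ^ 2 * y =
          ((a * b) ^ 2 * d ^ 2 * y) ^ 2 * ((a * b) ^ 2 * d ^ 2 * y)⁻¹ := by
        by_cases h0 : (a * b) ^ 2 * d ^ 2 * y = 0
        · rw [h0]
          ring
        · field_simp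
      rw [h6]
      exact mul_mem h4 h5
  have hsq : y' ^ 2 = Gq (f.vg s t) x := (hy'.pow 2).unique h1
  refine ⟨e, w, y', hw, hy', hsq, hw.z0, ?_, ?_⟩
  · have hs := hk.smul (c := a) (d := b) (r := d) hw.a0
    have h2 := (((at_num 2).mul (at_co (f := f) hS.sp hT.sp hX.sp 2)).mul (hw.sp 0)).add
      (((at_co (f := f) hS.sp hT.sp hX.sp 1).sub hy').mul (hw.sp 1))
    rw [hs.one] at h2
    have h3 := Place.at_const (v := v) (0 : k)
    rw [map_zero] at h3
    exact h2.unique h3
  · have hs := hk.smul (c := a) (d := b) (r := d) hw.a0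
    have h2 := (((at_co (f := f) hS.sp hT.sp hX.sp 1).add hy').mul (hw.sp 0)).add
      (((at_num 2).mul (at_co (f := f) hS.sp hT.sp hX.sp 0)).mul (hw.sp 1))
    rw [hs.two] at h2
    have h3 := Place.at_const (v := v) (0 : k)
    rw [map_zero] at h3
    exact h2.unique h3

end Pool.Agent.GOC
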