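import Pool.Agent.GOC.BarV

/-!
# The exchange of the two points
-/

set_option autoImplicit false
set_option linter.unusedSectionVars false

noncomputable section

namespace Pool.Agent.GOC

open Pool.Agent.ZCyc Pool.Agent.Dess Pool.Agent.GT Pool.Agent.TInc
open Pool.Agent.VFP (Om tt)
open Pool.Agent.HGF (fst snd vlo)

/-- the vector of the point `p / X` -/
def swp {K : Type} [CommRing K] (p : K) (X : Fin 2 → K) : Fin 2 → K := ![p * X 1, X 0]

section data

variable {k : Type} [Field k] {f : Cf k} {p q : k} {K : Type} [Field K] [Algebra k K]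

private theorem swp0_SwpA (p : K) (X : Fin 2 → K) : swp p X 0 = p * X 1 := rfl

private theorem swp1_SwpA (p : K) (X : Fin 2 → K) : swp p X 1 = X 0 := rfl

/-- `po (swp p X) = inv p (po X)` -/
theorem po_swp {p : K} {X : Fin 2 → K} (hp : p ≠ 0) (hX : X ≠ 0) : po (swp p X) = inv p (po X) := by
  by_cases h1 : X 1 = 0
  · have h0 : X 0 ≠ 0 := by
      intro h0
      apply hX
      funext i
      fin_cases i
      · exact h0
      · exact h1
    rw [po_eq_none.2 h1]
    unfold po inv
    rw [swp1_SwpA, if_neg h0, swp0_SwpA, h1, mul_zero, zero_div]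
  · have e : po X = some (X 0 / X 1) := by
      unfold po
      rw [if_neg h1]
    rw [e]
    unfold po inv
    rw [swp1_SwpA, swp0_SwpA]
    by_cases h0 : X 0 = 0
    · rw [if_pos h0]
      simp only [h0, zero_div, if_true]
    · rw [if_neg h0]
      simp only [div_eq_zero_iff, h0, h1, or_self, if_false]
      congr 1
      field_simp

theorem swp_ne {p : K} {X : Fin 2 → K} (hp : p ≠ 0) (hX : X ≠ 0) : swp p X ≠ 0 := by
  intro h
  apply hX
  have h0 : p * X 1 = 0 := congrFun h 0
  have h1 : X 0 = 0 := congrFun h 1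
  funext i
  fin_cases i
  · exact h1
  · exact (mul_eq_zero.1 h0).resolve_left hp

theorem swp_swp (p : K) (X : Fin 2 → K) : swp p (swp p X) = fun i => p * X i := by
  funext i
  fin_cases i <;> rfl

/-- the coefficients for the exchanged points -/
private theorem vc_swp_SwpA (hs : ∀ a b i j : Fin 3, p ^ (i : ℕ) * q ^ (j : ℕ) * f b a i j =
      p * q * f a b (Fin.rev i) (Fin.rev j)) (S T : Fin 2 → K) (i j : Fin 3) :
    algebraMap k K p ^ (i : ℕ) * algebraMap k K q ^ (j : ℕ) * f.vc T S i j =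
      algebraMap k K p * algebraMap k K q * f.vc S T (Fin.rev i) (Fin.rev j) := by
  unfold Cf.vc
  rw [Finset.sum_comm, Finset.mul_sum, Finset.mul_sum]
  refine Finset.sum_congr rfl fun a _ => ?_
  rw [Finset.mul_sum, Finset.mul_sum]
  refine Finset.sum_congr rfl fun b _ => ?_
  have h := congrArg (algebraMap k K) (hs a b i j)
  simp only [map_mul, map_pow] at h
  linear_combination (mv S a * mv T b) * h

/-- The coefficients over the exchanged points. By `hs`, `p ^ i q ^ j f.vc T S i j` is equal to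
`p q f.vc S T (rev i) (rev j)`, hence `q ^ j * f.co T S (swp p X) j = p q * f.co S T X (rev j)` (the factor
`p ^ 2` of `X` gives `p`). -/
theorem co_swp (hp : p ≠ 0) (hs : ∀ a b i j : Fin 3, p ^ (i : ℕ) * q ^ (j : ℕ) * f b a i j =
      p * q * f a b (Fin.rev i) (Fin.rev j)) (S T X : Fin 2 → K) (j : Fin 3) :
    algebraMap k K q ^ (j : ℕ) * f.co T S (swp (algebraMap k K p) X) j =
      algebraMap k K (p * q) * f.co S T X (Fin.rev j) := by
  have h0 := vc_swp_SwpA hs S T 0 j
  have h1 := vc_swp_SwpA hs S T 1 j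
  have h2 := vc_swp_SwpA hs S T 2 j
  have r0 : Fin.rev (0 : Fin 3) = 2 := rfl
  have r1 : Fin.rev (1 : Fin 3) = 1 := rfl
  have r2 : Fin.rev (2 : Fin 3) = 0 := rfl
  rw [r0] at h0
  rw [r1] at h1
  rw [r2] at h2
  simp only [Fin.val_zero, Fin.val_one, Fin.val_two, pow_zero, pow_one] at h0 h1 h2
  unfold Cf.co Qv Cf.vq
  rw [swp0_SwpA, swp1_SwpA, map_mul]
  linear_combination (X 0) ^ 2 * h0 + X 0 * X 1 * h1 + (X 1) ^ 2 * h2

/-- the discriminant for the exchanged points -/
private theorem vg_swp_SwpA (hp : p ≠ 0) (hq : q ≠ 0)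
    (hs : ∀ a b i j : Fin 3, p ^ (i : ℕ) * q ^ (j : ℕ) * f b a i j =
      p * q * f a b (Fin.rev i) (Fin.rev j)) (S T : Fin 2 → K) :
    f.vg T S 0 = algebraMap k K p ^ 2 * f.vg S T 4 ∧ f.vg T S 1 = algebraMap k K p * f.vg S T 3 ∧
      f.vg T S 2 = f.vg S T 2 ∧ f.vg T S 3 = f.vg S T 1 / algebraMap k K p ∧
        f.vg T S 4 = f.vg S T 0 / algebraMap k K p ^ 2 := by
  have hP : algebraMap k K p ≠ 0 := (map_ne_zero _).2 hp
  have hQ : algebraMap k K q ≠ 0 := (map_ne_zero _).2 hq
  have r0 : Fin.rev (0 : Fin 3) = 2 := rfl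
  have r1 : Fin.rev (1 : Fin 3) = 1 := rfl
  have r2 : Fin.rev (2 : Fin 3) = 0 := rfl
  have h := vc_swp_SwpA hs S T
  generalize algebraMap k K p = P at h hP ⊢
  generalize algebraMap k K q = Q at h hQ
  have h00 := h 0 0
  have h01 := h 0 1
  have h02 := h 0 2
  have h10 := h 1 0
  have h11 := h 1 1
  have h12 := h 1 2
  have h20 := h 2 0
  have h21 := h 2 1
  have h22 := h 2 2
  simp only [r0, r1, r2, Fin.val_zero, Fin.val_one, Fin.val_two, pow_zero, pow_one, one_mul,
    mul_one] at h00 h01 h02 h10 h11 h12 h20 h21 h22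
  have e01 : f.vc T S 0 1 = P * f.vc S T 2 1 := mul_left_cancel₀ hQ (by linear_combination h01)
  have e02 : f.vc T S 0 2 = P / Q * f.vc S T 2 0 := by
    field_simp
    refine mul_left_cancel₀ hQ ?_
    linear_combination h02
  have e10 : f.vc T S 1 0 = Q * f.vc S T 1 2 := mul_left_cancel₀ hP (by linear_combination h10)
  have e11 : f.vc T S 1 1 = f.vc S T 1 1 :=
    mul_left_cancel₀ (mul_ne_zero hP hQ) (by linear_combination h11)
  have e12 : f.vc T S 1 2 = f.vc S T 1 0 / Q := by
    field_simp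
    refine mul_left_cancel₀ (mul_ne_zero hP hQ) ?_
    linear_combination h12
  have e20 : f.vc T S 2 0 = Q / P * f.vc S T 0 2 := by
    field_simp
    refine mul_left_cancel₀ hP ?_
    linear_combination h20
  have e21 : f.vc T S 2 1 = f.vc S T 0 1 / P := by
    field_simp
    refine mul_left_cancel₀ (mul_ne_zero hP hQ) ?_
    linear_combination h21
  have e22 : f.vc T S 2 2 = f.vc S T 0 0 / (P * Q) := by
    field_simp
    refine mul_left_cancel₀ (mul_ne_zero hP hQ) ?_
    linear_combination h22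
  simp only [Cf.vg, dsc, Cf.vq, Matrix.cons_val, h00, e01, e02, e10, e11, e12, e20, e21, e22]
  refine ⟨?_, ?_, ?_, ?_, ?_⟩ <;> field_simp

/-- The data `G`, `H`, `T` over the exchanged points, by `Gq_vg` and `co_swp`, and the corresponding
formulas for `f.vg T S i` in terms of `f.vg S T (rev i)`:
`f.vg T S i = p ^ (2 - i) f.vg S T (4 - i)`. -/
theorem quart_swp (hp : p ≠ 0) (hq : q ≠ 0)
    (hs : ∀ a b i j : Fin 3, p ^ (i : ℕ) * q ^ (j : ℕ) * f b a i j =
      p * q * f a b (Fin.rev i) (Fin.rev j)) (S T X : Fin 2 → K) :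
    Gq (f.vg T S) (swp (algebraMap k K p) X) = algebraMap k K p ^ 2 * Gq (f.vg S T) X ∧
    Hq (f.vg T S) (swp (algebraMap k K p) X) = algebraMap k K p ^ 2 * Hq (f.vg S T) X ∧
    Tq (f.vg T S) (swp (algebraMap k K p) X) = -(algebraMap k K p ^ 3 * Tq (f.vg S T) X) ∧
    Iq (f.vg T S) = Iq (f.vg S T) ∧ Jq (f.vg T S) = Jq (f.vg S T) := by
  obtain ⟨h0, h1, h2, h3, h4⟩ := vg_swp_SwpA hp hq hs S T
  have hP : algebraMap k K p ≠ 0 := (map_ne_zero _).2 hp
  generalize algebraMap k K p = P at *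
  unfold Gq Hq Tq Iq Jq
  rw [swp0_SwpA, swp1_SwpA, h0, h1, h2, h3, h4]
  generalize f.vg S T 0 = g0
  generalize f.vg S T 1 = g1
  generalize f.vg S T 2 = g2
  generalize f.vg S T 3 = g3
  generalize f.vg S T 4 = g4
  generalize X 0 = x
  generalize X 1 = y
  refine ⟨?_, ?_, ?_, ?_, ?_⟩
  · field_simp
    ring
  · field_simp
    ring
  · field_simp
    ring
  · field_simp
  · field_simp
    ring

/-- The point `(T, S, p / X, q / Y)` has the square root `-p y`: by `co_swp` the two equations are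
`p` times `Ker.two` and `p q` times `Ker.one`. -/
theorem ker_swp (hp : p ≠ 0) (hq : q ≠ 0)
    (hs : ∀ a b i j : Fin 3, p ^ (i : ℕ) * q ^ (j : ℕ) * f b a i j =
      p * q * f a b (Fin.rev i) (Fin.rev j)) {S T X Y : Fin 2 → K} {y : K}
    (h : f.Ker S T X y Y) :
    f.Ker T S (swp (algebraMap k K p) X) (-(algebraMap k K p * y)) (swp (algebraMap k K q) Y) := by
  have hQ : algebraMap k K q ≠ 0 := (map_ne_zero _).2 hq
  have r0 : Fin.rev (0 : Fin 3) = 2 := rfl
  have r1 : Fin.rev (1 : Fin 3) = 1 := rfl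
  have r2 : Fin.rev (2 : Fin 3) = 0 := rfl
  have h0 := co_swp hp hs S T X 0
  have h1 := co_swp hp hs S T X 1
  have h2 := co_swp hp hs S T X 2
  rw [r0, map_mul] at h0
  rw [r1, map_mul] at h1
  rw [r2, map_mul] at h2
  simp only [Fin.val_zero, Fin.val_one, Fin.val_two, pow_zero, pow_one, one_mul] at h0 h1 h2
  have e1 : f.co T S (swp (algebraMap k K p) X) 1 = algebraMap k K p * f.co S T X 1 :=
    mul_left_cancel₀ hQ (by linear_combination h1)
  have e2 : algebraMap k K q * f.co T S (swp (algebraMap k K p) X) 2 =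
      algebraMap k K p * f.co S T X 0 := mul_left_cancel₀ hQ (by linear_combination h2)
  refine ⟨swp_ne hQ h.ne, ?_, ?_⟩
  · rw [swp0_SwpA, swp1_SwpA, e1]
    linear_combination 2 * Y 1 * e2 + algebraMap k K p * h.two
  · rw [swp0_SwpA, swp1_SwpA, e1, h0]
    linear_combination algebraMap k K p * algebraMap k K q * h.one

end data

end Pool.Agent.GOC
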