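import Pool.Agent.GOC.Pen

/-!
# Points with the same image in the Jacobian
-/

set_option autoImplicit false
set_option linter.unusedSectionVars false

noncomputable section

namespace Pool.Agent.GOC

open Pool.Agent.ZCyc Pool.Agent.Dess Pool.Agent.GT Pool.Agent.TInc
open Pool.Agent.VFP (Om tt)
open Pool.Agent.HGF (fst snd vlo)

variable {k : Type} [Field k] [IsAlgClosed k] [CharZero k] {W : Type} [AddCommGroup W] [Module ℚ W]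
  {f : Cf k} {F : Option k → Option k → Option k → Option k → W} {p q : k}

theorem Gq_inj {g g' : Fin 5 → k} (h : ∀ x, Gq g x = Gq g' x) : g = g' := by
  have h0 := h ![0, 1]
  have h4 := h ![1, 0]
  have a1 := h ![1, 1]
  have a2 := h ![1, -1]
  have a3 := h ![1, 2]
  simp only [Gq, Matrix.cons_val] at h0 h4 a1 a2 a3
  have e0 : g 0 = g' 0 := by linear_combination h0
  have e4 : g 4 = g' 4 := by linear_combination h4
  have e2 : g 2 = g' 2 := by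
    apply mul_left_cancel₀ (two_ne_zero (α := k))
    linear_combination a1 + a2 - 2 * e0 - 2 * e4
  have e1 : g 1 = g' 1 := by
    apply mul_left_cancel₀ (by norm_num : (6 : k) ≠ 0)
    linear_combination a3 - a1 + a2 - e4 - 4 * e2 - 16 * e0
  have e3 : g 3 = g' 3 := by linear_combination a1 - e0 - e1 - e2 - e4
  funext i
  fin_cases i
  · exact e0
  · exact e1
  · exact e2
  · exact e3
  · exact e4

/-- the coordinates in a basis -/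
theorem basis_eq {X₁ X₂ : Fin 2 → k} (hδ : dt X₁ X₂ ≠ 0) (x : Fin 2 → k) :
    x = fun i => dt x X₂ / dt X₁ X₂ * X₁ i + dt X₁ x / dt X₁ X₂ * X₂ i := by
  funext i
  have h : dt X₁ X₂ * x i = dt x X₂ * X₁ i + dt X₁ x * X₂ i := by
    unfold dt
    fin_cases i
    · simp only [Fin.zero_eta]
      ring
    · simp only [Fin.mk_one]
      ring
  field_simp
  linear_combination h

/-- **Points with the same image.** -/
theorem two (h : DatV f F) {S T X₁ X₂ Y₁ Y₂ : Fin 2 → k} {y₁ y₂ : k} (hS : S ≠ 0) (hT : T ≠ 0)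
    (hX₁ : X₁ ≠ 0) (hX₂ : X₂ ≠ 0) (hD : Dq (f.vg S T) ≠ 0) (k1 : f.Ker S T X₁ y₁ Y₁)
    (s1 : y₁ ^ 2 = Gq (f.vg S T) X₁) (k2 : f.Ker S T X₂ y₂ Y₂)
    (s2 : y₂ ^ 2 = Gq (f.vg S T) X₂) (hy1 : y₁ ≠ 0) (hy2 : y₂ ≠ 0)
    (ht : Tq (f.vg S T) X₁ ≠ 0)
    (e1 : Hq (f.vg S T) X₁ * y₂ ^ 2 = Hq (f.vg S T) X₂ * y₁ ^ 2)
    (e2 : Tq (f.vg S T) X₁ * y₂ ^ 3 = Tq (f.vg S T) X₂ * y₁ ^ 3) :
    FV F S T X₁ Y₁ = FV F S T X₂ Y₂ := by
  obtain ⟨g, hg⟩ : ∃ g, g = f.vg S T := ⟨_, rfl⟩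
  rw [← hg] at hD s1 s2 ht e1 e2
  have t2 : (2 : k) ≠ 0 := two_ne_zero
  by_cases hδ : dt X₁ X₂ = 0
  · obtain ⟨c, hc⟩ := dt_zero hX₁ hδ
    have hc0 := smul_ne hX₂ hc
    rw [hc, Tq_smul] at e2
    rw [hc, Gq_smul, ← s1] at s2
    have e3 : y₂ ^ 3 = c ^ 6 * y₁ ^ 3 := by
      apply mul_left_cancel₀ ht
      linear_combination e2
    have e4 : y₂ = c ^ 2 * y₁ := by
      apply mul_left_cancel₀ (mul_ne_zero (pow_ne_zero 4 hc0) (pow_ne_zero 2 hy1))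
      linear_combination e3 - y₂ * s2
    have h1 := k1.smul (c := 1) (d := 1) (r := c) (e := 1) one_ne_zero
    simp only [one_mul, one_pow] at h1
    rw [e4, hc] at k2
    obtain ⟨d, hd⟩ := h1.unique (mul_ne_zero (pow_ne_zero 2 hc0) hy1) k2
    exact (FV_congr (a := 1) (b := 1) hS hT hX₂ k2.ne (by simp) (by simp) hc hd).symm
  obtain ⟨δ, hδ'⟩ : ∃ δ, δ = dt X₁ X₂ := ⟨_, rfl⟩
  have hδ0 : δ ≠ 0 := by rw [hδ']; exact hδ
  obtain ⟨A, hA⟩ : ∃ A, A = pl g X₁ X₂ 4 := ⟨_, rfl⟩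
  obtain ⟨B, hB⟩ : ∃ B, B = pl g X₁ X₂ 3 := ⟨_, rfl⟩
  obtain ⟨C, hC⟩ : ∃ C, C = pl g X₁ X₂ 2 := ⟨_, rfl⟩
  obtain ⟨D, hD'⟩ : ∃ D, D = pl g X₁ X₂ 1 := ⟨_, rfl⟩
  obtain ⟨E, hE⟩ : ∃ E, E = pl g X₁ X₂ 0 := ⟨_, rfl⟩
  have hA1 : A = y₁ ^ 2 := by rw [hA, pl4, s1]
  have hE1 : E = y₂ ^ 2 := by rw [hE, pl0, s2]
  have H1 := Hq_left g X₁ X₂
  have H2 := Hq_right g X₁ X₂
  have T1 := Tq_left g X₁ X₂
  have T2 := Tq_right g X₁ X₂
  rw [← hδ', ← hA, ← hB, ← hC] at H1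
  rw [← hδ', ← hC, ← hD', ← hE] at H2
  rw [← hδ', ← hA, ← hB, ← hC, ← hD'] at T1
  rw [← hδ', ← hB, ← hC, ← hD', ← hE] at T2
  rw [hA1] at H1 T1
  rw [hE1] at H2 T2
  have hsq : (B * y₂ - D * y₁) * (B * y₂ + D * y₁) = 0 := by
    apply mul_left_cancel₀ (by norm_num : (3 : k) ≠ 0)
    linear_combination δ ^ 2 * e1 - y₂ ^ 2 * H1 + y₁ ^ 2 * H2
  have hBD : B * y₂ + D * y₁ = 0 := by
    rcases mul_eq_zero.1 hsq with h1 | h1
    · exfalso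
      apply ht
      have h3 : D * y₁ = B * y₂ := by linear_combination -h1
      apply (mul_eq_zero.1 (?_ : 2 * y₂ ^ 3 * δ ^ 3 * _ = 0)).resolve_left
        (mul_ne_zero (mul_ne_zero t2 (pow_ne_zero 3 hy2)) (pow_ne_zero 3 hδ0))
      linear_combination y₂ ^ 3 * T1 + y₁ ^ 3 * T2 + δ ^ 3 * e2 +
        (8 * y₁ ^ 3 * y₂ ^ 3 + 4 * y₁ ^ 2 * y₂ ^ 2 * C -
          (D ^ 2 * y₁ ^ 2 + D * B * y₁ * y₂ + B ^ 2 * y₂ ^ 2)) * h3
    · exact h1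
  obtain ⟨Q, hQ⟩ : ∃ Q : Fin 3 → k, Q = fun i => (δ ^ 2)⁻¹ * (y₁ * pr X₂ X₂ i -
      B / (2 * y₁) * pr X₁ X₂ i - y₂ * pr X₁ X₁ i) := ⟨_, rfl⟩
  obtain ⟨κ, hκ⟩ : ∃ κ, κ = (δ ^ 4)⁻¹ * (C - B ^ 2 / (4 * y₁ ^ 2) + 2 * y₁ * y₂) := ⟨_, rfl⟩
  have hQq : ∀ x, Qv Q x = (δ ^ 2)⁻¹ * (y₁ * dt x X₂ ^ 2 - B / (2 * y₁) * (dt x X₁ * dt x X₂) -
      y₂ * dt x X₁ ^ 2) := by
    intro x
    have e1 := Qq_pr X₂ X₂ x
    have e2 := Qq_pr X₁ X₂ x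
    have e3 := Qq_pr X₁ X₁ x
    have e4 : Qv Q x = (δ ^ 2)⁻¹ * (y₁ * Qv (pr X₂ X₂) x - B / (2 * y₁) * Qv (pr X₁ X₂) x -
        y₂ * Qv (pr X₁ X₁) x) := by
      rw [hQ]
      simp only [Qv]
      ring
    rw [e4, e1, e2, e3]
    ring
  have hG : g = sqs Q (pr X₁ X₂) κ := by
    apply Gq_inj
    intro x
    rw [Gq_sqs, Qq_pr, hQq, hκ]
    have h1 := Gq_basis g X₁ X₂ (dt x X₂ / δ) (dt X₁ x / δ)
    rw [hδ', ← basis_eq hδ x, ← hδ'] at h1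
    have h3 : dt X₁ x = -dt x X₁ := by
      unfold dt
      ring
    rw [h1, h3]
    simp only [Gq, Matrix.cons_val]
    rw [← hA, ← hB, ← hC, ← hD', ← hE, hA1, hE1]
    have h4 : D = -(B * y₂) / y₁ := by
      field_simp
      linear_combination hBD
    rw [h4]
    field_simp
    ring
  have hκ0 : κ ≠ 0 := by
    intro h0
    apply hD
    rw [hG, h0]
    exact Dq_square _ _
  have q1 : Qv Q X₁ = y₁ := by
    rw [hQq, dt_self, ← hδ']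
    field_simp
    ring
  have q2 : Qv Q X₂ = -y₂ := by
    have h3 : dt X₂ X₁ = -δ := by
      rw [hδ']
      unfold dt
      ring
    rw [hQq, dt_self, h3]
    field_simp
    ring
  obtain ⟨Y', k3⟩ := exists_ker (f := f) (S := S) (T := T) (X := X₂) (y := -y₂)
    (by rw [neg_sq, s2, hg])
  have h5 := pen h hS hT hκ0 hX₁ hX₂ (hg ▸ hG) (q1 ▸ hy1) (by rw [q2]; exact neg_ne_zero.2 hy2)
    (Y₁ := Y₁) (Y₂ := Y') (by rw [q1]; exact k1) (by rw [q2]; exact k3)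
  have h6 := bar' h hS hT hX₂ hy2 k2 k3
  rw [eq_neg_of_add_eq_zero_left h5, eq_neg_of_add_eq_zero_left h6]

/-- **Points whose image has order two.** -/
theorem tors (h : DatV f F) {S T X Y : Fin 2 → k} {y : k} (hS : S ≠ 0) (hT : T ≠ 0)
    (hX : X ≠ 0) (hD : Dq (f.vg S T) ≠ 0) (k1 : f.Ker S T X y Y) (s1 : y ^ 2 = Gq (f.vg S T) X)
    (hy : y ≠ 0) (ht : Tq (f.vg S T) X = 0) : FV F S T X Y = 0 := by
  obtain ⟨g, hg⟩ : ∃ g, g = f.vg S T := ⟨_, rfl⟩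
  rw [← hg] at hD s1 ht
  have t2 : (2 : k) ≠ 0 := two_ne_zero
  obtain ⟨U, hU⟩ := exists_dt hX
  obtain ⟨A, hA⟩ : ∃ A, A = pl g X U 4 := ⟨_, rfl⟩
  obtain ⟨B, hB⟩ : ∃ B, B = pl g X U 3 := ⟨_, rfl⟩
  obtain ⟨C, hC⟩ : ∃ C, C = pl g X U 2 := ⟨_, rfl⟩
  obtain ⟨D, hD'⟩ : ∃ D, D = pl g X U 1 := ⟨_, rfl⟩
  obtain ⟨E, hE⟩ : ∃ E, E = pl g X U 0 := ⟨_, rfl⟩
  have hA1 : A = y ^ 2 := by rw [hA, pl4, s1]
  have T1 := Tq_left g X U
  rw [hU, ht, ← hA, ← hB, ← hC, ← hD', hA1] at T1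
  obtain ⟨r, hr⟩ : ∃ r, r = (C - B ^ 2 / (4 * y ^ 2)) / (2 * y) := ⟨_, rfl⟩
  obtain ⟨Q, hQ⟩ : ∃ Q : Fin 3 → k, Q = fun i => y * pr U U i -
      B / (2 * y) * pr X U i + r * pr X X i := ⟨_, rfl⟩
  obtain ⟨κ, hκ⟩ : ∃ κ, κ = E - r ^ 2 := ⟨_, rfl⟩
  have hQq : ∀ x, Qv Q x = y * dt x U ^ 2 - B / (2 * y) * (dt x X * dt x U) +
      r * dt x X ^ 2 := by
    intro x
    have e1 := Qq_pr U U x
    have e2 := Qq_pr X U x
    have e3 := Qq_pr X X x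
    have e4 : Qv Q x = y * Qv (pr U U) x - B / (2 * y) * Qv (pr X U) x +
        r * Qv (pr X X) x := by
      rw [hQ]
      simp only [Qv]
      ring
    rw [e4, e1, e2, e3]
    ring
  have hU0 : dt X U ≠ 0 := by rw [hU]; exact one_ne_zero
  have hG : g = sqs Q (pr X X) κ := by
    apply Gq_inj
    intro x
    rw [Gq_sqs, Qq_pr, hQq, hκ, hr]
    have h1 := Gq_basis g X U (dt x U / dt X U) (dt X x / dt X U)
    rw [← basis_eq hU0 x, hU, div_one, div_one] at h1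
    have h3 : dt X x = -dt x X := by
      unfold dt
      ring
    rw [h1, h3]
    simp only [Gq, Matrix.cons_val]
    rw [← hA, ← hB, ← hC, ← hD', ← hE, hA1]
    have h4 : D = (4 * y ^ 2 * B * C - B ^ 3) / (8 * y ^ 4) := by
      field_simp
      linear_combination -T1
    rw [h4]
    field_simp
    ring
  have hκ0 : κ ≠ 0 := by
    intro h0
    apply hD
    rw [hG, h0]
    exact Dq_square _ _
  have q1 : Qv Q X = y := by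
    rw [hQq, dt_self, hU]
    ring
  have h5 := pen h hS hT hκ0 hX hX (hg ▸ hG) (q1 ▸ hy) (q1 ▸ hy)
    (Y₁ := Y) (Y₂ := Y) (by rw [q1]; exact k1) (by rw [q1]; exact k1)
  have h4 : (2 : ℚ) • FV F S T X Y = 0 := by
    rw [two_smul]
    exact h5
  exact (smul_eq_zero.1 h4).resolve_left two_ne_zero

end Pool.Agent.GOC
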