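import Pool.Agent.GOC.Defs
import Pool.Agent.GOC.Root

/-!
# The hypersurface in homogeneous coordinates

All coordinates `s`, `t`, `X`, `Y` are given by vectors in `K ²`.
-/

set_option autoImplicit false

noncomputable section

namespace Pool.Agent.GOC

open Pool.Agent.ZCyc Pool.Agent.Dess Pool.Agent.GT Pool.Agent.TInc
open Pool.Agent.HGF (fst snd vlo)

section ring

variable {k : Type} [Field k] {K : Type} [CommRing K] [Algebra k K]

/-- the monomials of degree 2 -/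
def mv (S : Fin 2 → K) (i : Fin 3) : K := S 0 ^ (i : ℕ) * S 1 ^ (2 - (i : ℕ))

/-- the coefficient of `X ^ i * Y ^ j` over the point `(S, T)` -/
def Cf.vc (f : Cf k) (S T : Fin 2 → K) (i j : Fin 3) : K :=
  ∑ a, ∑ b, algebraMap k K (f a b i j) * (mv S a * mv T b)

/-- the coefficient of `Y ^ j`, a quadratic form in `X` -/
def Cf.vq (f : Cf k) (S T : Fin 2 → K) (j : Fin 3) : Fin 3 → K := fun i => f.vc S T i j

/-- the quartic form `q₁ ² - 4 q₂ q₀` -/
def dsc (q₂ q₁ q₀ : Fin 3 → K) : Fin 5 → K :=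
  ![q₁ 0 ^ 2 - 4 * (q₂ 0 * q₀ 0), 2 * q₁ 0 * q₁ 1 - 4 * (q₂ 0 * q₀ 1 + q₂ 1 * q₀ 0),
    q₁ 1 ^ 2 + 2 * q₁ 0 * q₁ 2 - 4 * (q₂ 0 * q₀ 2 + q₂ 1 * q₀ 1 + q₂ 2 * q₀ 0),
    2 * q₁ 1 * q₁ 2 - 4 * (q₂ 1 * q₀ 2 + q₂ 2 * q₀ 1), q₁ 2 ^ 2 - 4 * (q₂ 2 * q₀ 2)]

/-- the discriminant of the equation as a quadratic equation for `Y`, a quartic form in `X` -/
def Cf.vg (f : Cf k) (S T : Fin 2 → K) : Fin 5 → K :=
  dsc (f.vq S T 2) (f.vq S T 1) (f.vq S T 0)

/-- the value of the coefficient of `Y ^ j` at the point `X` -/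
def Cf.co (f : Cf k) (S T X : Fin 2 → K) (j : Fin 3) : K := Qv (f.vq S T j) X

theorem Gq_dsc (q₂ q₁ q₀ : Fin 3 → K) (x : Fin 2 → K) :
    Gq (dsc q₂ q₁ q₀) x = Qv q₁ x ^ 2 - 4 * (Qv q₂ x * Qv q₀ x) := by
  simp only [Gq, Qv, dsc, Matrix.cons_val]
  ring

theorem Cf.Gq_vg (f : Cf k) (S T X : Fin 2 → K) :
    Gq (f.vg S T) X = f.co S T X 1 ^ 2 - 4 * (f.co S T X 2 * f.co S T X 0) := by
  exact Gq_dsc _ _ _ _

/-- the equation of the hypersurface -/
def Cf.OnV (f : Cf k) (S T X Y : Fin 2 → K) : Prop :=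
  f.co S T X 2 * Y 0 ^ 2 + f.co S T X 1 * (Y 0 * Y 1) + f.co S T X 0 * Y 1 ^ 2 = 0

/-- The coordinate `Y` is not zero and it is given by the square root `y` of the discriminant. -/
structure Cf.Ker (f : Cf k) (S T X : Fin 2 → K) (y : K) (Y : Fin 2 → K) : Prop where
  ne : Y ≠ 0
  one : 2 * f.co S T X 2 * Y 0 + (f.co S T X 1 - y) * Y 1 = 0
  two : (f.co S T X 1 + y) * Y 0 + 2 * f.co S T X 0 * Y 1 = 0

/-! ### Multiples -/

section smul

variable (c : K)

theorem Gq_smul (g : Fin 5 → K) (x : Fin 2 → K) : Gq g (fun i => c * x i) = c ^ 4 * Gq g x := by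
  unfold Gq
  ring

theorem Hq_smul (g : Fin 5 → K) (x : Fin 2 → K) : Hq g (fun i => c * x i) = c ^ 4 * Hq g x := by
  unfold Hq
  ring

theorem Tq_smul (g : Fin 5 → K) (x : Fin 2 → K) : Tq g (fun i => c * x i) = c ^ 6 * Tq g x := by
  unfold Tq
  ring

theorem Gq_mul (g : Fin 5 → K) (x : Fin 2 → K) : Gq (fun i => c * g i) x = c * Gq g x := by
  unfold Gq
  ring

theorem Hq_mul (g : Fin 5 → K) (x : Fin 2 → K) : Hq (fun i => c * g i) x = c ^ 2 * Hq g x := by
  unfold Hq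
  ring

theorem Tq_mul (g : Fin 5 → K) (x : Fin 2 → K) : Tq (fun i => c * g i) x = c ^ 3 * Tq g x := by
  unfold Tq
  ring

theorem Iq_mul (g : Fin 5 → K) : Iq (fun i => c * g i) = c ^ 2 * Iq g := by
  unfold Iq
  ring

theorem Jq_mul (g : Fin 5 → K) : Jq (fun i => c * g i) = c ^ 3 * Jq g := by
  unfold Jq
  ring

theorem Dq_mul (g : Fin 5 → K) : Dq (fun i => c * g i) = c ^ 6 * Dq g := by
  unfold Dq
  rw [Iq_mul, Jq_mul]
  ring

theorem Qq_smul (q : Fin 3 → K) (x : Fin 2 → K) : Qv q (fun i => c * x i) = c ^ 2 * Qv q x := by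
  unfold Qv
  ring

theorem Qq_mul (q : Fin 3 → K) (x : Fin 2 → K) : Qv (fun i => c * q i) x = c * Qv q x := by
  unfold Qv
  ring

theorem mv_smul (S : Fin 2 → K) (i : Fin 3) : mv (fun i => c * S i) i = c ^ 2 * mv S i := by
  unfold mv
  fin_cases i <;> simp <;> ring

theorem Cf.vc_smul (f : Cf k) (d : K) (S T : Fin 2 → K) (i j : Fin 3) :
    f.vc (fun i => c * S i) (fun i => d * T i) i j = (c * d) ^ 2 * f.vc S T i j := by
  unfold Cf.vc
  rw [Finset.mul_sum]
  refine Finset.sum_congr rfl fun a _ => ?_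
  rw [Finset.mul_sum]
  refine Finset.sum_congr rfl fun b _ => ?_
  rw [mv_smul, mv_smul]
  ring

theorem Cf.vq_smul (f : Cf k) (d : K) (S T : Fin 2 → K) (j : Fin 3) :
    f.vq (fun i => c * S i) (fun i => d * T i) j = fun i => (c * d) ^ 2 * f.vq S T j i := by
  funext i
  exact f.vc_smul c d S T i j

theorem Cf.vg_smul (f : Cf k) (d : K) (S T : Fin 2 → K) :
    f.vg (fun i => c * S i) (fun i => d * T i) = fun i => (c * d) ^ 4 * f.vg S T i := by
  unfold Cf.vg
  rw [Cf.vq_smul, Cf.vq_smul, Cf.vq_smul]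
  funext i
  fin_cases i <;> simp [dsc] <;> ring

theorem Cf.co_smul (f : Cf k) (d r : K) (S T X : Fin 2 → K) (j : Fin 3) :
    f.co (fun i => c * S i) (fun i => d * T i) (fun i => r * X i) j =
      (c * d) ^ 2 * r ^ 2 * f.co S T X j := by
  unfold Cf.co
  rw [Cf.vq_smul, Qq_smul, Qq_mul]
  ring

end smul

end ring

section field

variable {k : Type} [Field k] {K : Type} [Field K] [Algebra k K] {f : Cf k} {S T X Y : Fin 2 → K}
  {y : K}

theorem Cf.Ker.onV [CharZero K] (h : f.Ker S T X y Y) : f.OnV S T X Y := by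
  have h2 : (2 : K) ≠ 0 := two_ne_zero
  apply (mul_eq_zero.1 (?_ : 2 * _ = (0 : K))).resolve_left h2
  linear_combination Y 0 * h.one + Y 1 * h.two

/-- scaling of all coordinates -/
theorem Cf.Ker.smul (h : f.Ker S T X y Y) {c d r e : K} (he : e ≠ 0) :
    f.Ker (fun i => c * S i) (fun i => d * T i) (fun i => r * X i) ((c * d) ^ 2 * r ^ 2 * y)
      (fun i => e * Y i) := by
  refine ⟨fun h1 => h.ne ?_, ?_, ?_⟩
  · funext i
    exact (mul_eq_zero.1 (congrFun h1 i)).resolve_left he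
  · rw [Cf.co_smul, Cf.co_smul]
    linear_combination (c * d) ^ 2 * r ^ 2 * e * h.one
  · rw [Cf.co_smul, Cf.co_smul]
    linear_combination (c * d) ^ 2 * r ^ 2 * e * h.two

/-- For every point of the hypersurface there is a square root `y`. -/
theorem Cf.OnV.exists_y (hY : Y ≠ 0) (h : f.OnV S T X Y) :
    ∃ y, y ^ 2 = Gq (f.vg S T) X ∧ f.Ker S T X y Y := by
  unfold Cf.OnV at h
  rw [Cf.Gq_vg]
  by_cases h1 : Y 1 = 0
  · have h0 : Y 0 ≠ 0 := by
      intro h0
      apply hY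
      funext i
      fin_cases i
      · exact h0
      · exact h1
    rw [h1] at h
    have h2 : f.co S T X 2 = 0 := by
      apply (mul_eq_zero.1 (?_ : _ * Y 0 ^ 2 = 0)).resolve_right (pow_ne_zero 2 h0)
      linear_combination h
    refine ⟨-f.co S T X 1, ?_, hY, ?_, ?_⟩
    · rw [h2]
      ring
    · rw [h1, h2]
      ring
    · rw [h1]
      ring
  · refine ⟨(2 * f.co S T X 2 * Y 0 + f.co S T X 1 * Y 1) / Y 1, ?_, hY, ?_, ?_⟩
    · field_simp
      linear_combination 4 * f.co S T X 2 * h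
    · field_simp
      ring
    · field_simp
      linear_combination 2 * h

/-- For every square root `y` there is a point of the hypersurface. -/
theorem exists_ker [CharZero K] (h : y ^ 2 = Gq (f.vg S T) X) : ∃ Y, f.Ker S T X y Y := by
  rw [Cf.Gq_vg] at h
  have t2 : (2 : K) ≠ 0 := two_ne_zero
  by_cases h1 : f.co S T X 1 - y = 0 ∧ f.co S T X 2 = 0
  · by_cases h2 : f.co S T X 1 + y = 0 ∧ f.co S T X 0 = 0
    · refine ⟨![1, 0], fun h3 => ?_, ?_, ?_⟩
      · have := congrFun h3 0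
        simp at this
      · simp [h1.2]
      · simp [h2.1]
    · refine ⟨![-(2 * f.co S T X 0), f.co S T X 1 + y], fun h3 => h2 ⟨congrFun h3 1, ?_⟩, ?_, ?_⟩
      · have h4 : -(2 * f.co S T X 0) = 0 := congrFun h3 0
        exact (mul_eq_zero.1 (neg_eq_zero.1 h4)).resolve_left t2
      · simp only [Matrix.cons_val]
        rw [h1.1, h1.2]
        ring
      · simp only [Matrix.cons_val]
        ring
  · refine ⟨![-(f.co S T X 1 - y), 2 * f.co S T X 2], fun h3 => h1 ⟨?_, ?_⟩, ?_, ?_⟩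
    · have h4 : -(f.co S T X 1 - y) = 0 := congrFun h3 0
      exact neg_eq_zero.1 h4
    · have h4 : 2 * f.co S T X 2 = 0 := congrFun h3 1
      exact (mul_eq_zero.1 h4).resolve_left t2
    · simp only [Matrix.cons_val]
      ring
    · simp only [Matrix.cons_val]
      linear_combination h

/-- The coordinate `Y` is determined by `y` if `y ≠ 0`. -/
theorem Cf.Ker.unique {Y' : Fin 2 → K} [CharZero K] (hy : y ≠ 0) (h : f.Ker S T X y Y)
    (h' : f.Ker S T X y Y') : ∃ c, Y' = fun i => c * Y i := by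
  apply dt_zero h.ne
  have h2 : (2 : K) ≠ 0 := two_ne_zero
  apply (mul_eq_zero.1 (?_ : 2 * y * _ = (0 : K))).resolve_left (mul_ne_zero h2 hy)
  unfold dt
  linear_combination Y' 1 * h.two - Y 1 * h'.two - Y 0 * h'.one + Y' 0 * h.one

end field

end Pool.Agent.GOC
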