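import Pool.Agent.GOC.Vec

/-!
# The points of the projective line and vectors
-/

set_option autoImplicit false

noncomputable section

namespace Pool.Agent.GOC

open Pool.Agent.ZCyc Pool.Agent.Dess Pool.Agent.GT Pool.Agent.TInc
open Pool.Agent.HGF (fst snd vlo)

variable {k : Type} [Field k] {K : Type} [Field K] [Algebra k K] {f : Cf k}

/-- the point of the projective line with the homogeneous coordinates `τ` -/
def po (τ : Fin 2 → K) : Option K := by
  classical
  exact if τ 1 = 0 then none else some (τ 0 / τ 1)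

/-- the homogeneous coordinates of a point -/
def vo (x : Option K) : Fin 2 → K := ![fst x, snd x]

theorem vo_none : vo (none : Option K) = ![1, 0] := by
  unfold vo
  rw [HGF.fst_none, HGF.snd_none]

theorem vo_some (c : K) : vo (some c) = ![c, 1] := by
  unfold vo
  rw [HGF.fst_some, HGF.snd_some]

theorem vo_ne (x : Option K) : vo x ≠ 0 := by
  intro h
  cases x with
  | none =>
    rw [vo_none] at h
    have := congrFun h 0
    simp at this
  | some c =>
    rw [vo_some] at h
    have := congrFun h 1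
    simp at this

theorem po_vo (x : Option K) : po (vo x) = x := by
  cases x with
  | none =>
    rw [vo_none]
    simp [po]
  | some c =>
    rw [vo_some]
    simp [po]

theorem exists_vo {τ : Fin 2 → K} (h : τ ≠ 0) : ∃ r : K, r ≠ 0 ∧ τ = fun i => r * vo (po τ) i := by
  by_cases h1 : τ 1 = 0
  · have h2 : po τ = none := by
      unfold po
      rw [if_pos h1]
    refine ⟨τ 0, fun h0 => h ?_, ?_⟩
    · funext i
      fin_cases i
      · exact h0
      · exact h1
    · rw [h2, vo_none]
      funext i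
      fin_cases i
      · simp
      · simp [h1]
  · have h2 : po τ = some (τ 0 / τ 1) := by
      unfold po
      rw [if_neg h1]
    refine ⟨τ 1, h1, ?_⟩
    rw [h2, vo_some]
    funext i
    fin_cases i
    · simp [mul_div_cancel₀ _ h1]
    · simp

theorem po_mul {c : K} (hc : c ≠ 0) (τ : Fin 2 → K) : po (fun i => c * τ i) = po τ := by
  unfold po
  by_cases h : τ 1 = 0
  · rw [if_pos h, if_pos (by show c * τ 1 = 0; rw [h, mul_zero])]
  · rw [if_neg h, if_neg (mul_ne_zero hc h), mul_div_mul_left _ _ hc]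

theorem po_eq_none {τ : Fin 2 → K} : po τ = none ↔ τ 1 = 0 := by
  unfold po
  split_ifs with h
  · simp [h]
  · simp [h]

theorem po_eq_zero {τ : Fin 2 → K} : po τ = some 0 ↔ τ 1 ≠ 0 ∧ τ 0 = 0 := by
  unfold po
  split_ifs with h
  · simp [h]
  · rw [Option.some_inj, div_eq_zero_iff]
    simp [h]

/-- the coefficients of the equation for `Y` -/
theorem hco_eq (f : Cf k) (s t X : Option K) (j : Fin 3) :
    (f.at s t).hco j X = f.co (vo s) (vo t) (vo X) j := by
  have h : ∀ i, (f.at s t) i j = f.vc (vo s) (vo t) i j := by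
    intro i
    rfl
  unfold Bq.hco
  simp only [h, Fin.sum_univ_three]
  unfold Cf.co Qv Cf.vq mon vo
  simp
  ring

theorem val_iff (s t X Y : Option K) :
    (f.at s t).val X Y = 0 ↔ f.OnV (vo s) (vo t) (vo X) (vo Y) := by
  rw [Bq.val_eq, hco_eq, hco_eq, hco_eq]
  exact Iff.rfl

theorem onV_smul {S T X Y : Fin 2 → K} {c d r e : K} (hc : c ≠ 0) (hd : d ≠ 0) (hr : r ≠ 0)
    (he : e ≠ 0) :
    f.OnV (fun i => c * S i) (fun i => d * T i) (fun i => r * X i) (fun i => e * Y i) ↔
      f.OnV S T X Y := by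
  unfold Cf.OnV
  simp only [Cf.co_smul]
  have h : (c * d) ^ 2 * r ^ 2 * e ^ 2 ≠ 0 :=
    mul_ne_zero (mul_ne_zero (pow_ne_zero 2 (mul_ne_zero hc hd)) (pow_ne_zero 2 hr))
      (pow_ne_zero 2 he)
  constructor
  · intro h1
    apply (mul_eq_zero.1 (?_ : (c * d) ^ 2 * r ^ 2 * e ^ 2 * _ = 0)).resolve_left h
    linear_combination h1
  · intro h1
    linear_combination (c * d) ^ 2 * r ^ 2 * e ^ 2 * h1

/-- the equation of the hypersurface in homogeneous coordinates -/
theorem onV_iff {S T X Y : Fin 2 → K} (hS : S ≠ 0) (hT : T ≠ 0) (hX : X ≠ 0) (hY : Y ≠ 0) :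
    (f.at (po S) (po T)).val (po X) (po Y) = 0 ↔ f.OnV S T X Y := by
  obtain ⟨c, hc, h1⟩ := exists_vo hS
  obtain ⟨d, hd, h2⟩ := exists_vo hT
  obtain ⟨r, hr, h3⟩ := exists_vo hX
  obtain ⟨e, he, h4⟩ := exists_vo hY
  rw [val_iff]
  conv_rhs => rw [h1, h2, h3, h4]
  exact (onV_smul hc hd hr he).symm

end Pool.Agent.GOC
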